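import Pool.Agent.PHK.PotH.ExH
import Pool.Agent.PHK.Z1S
import Pool.Agent.PHK.ChgB
import Pool.Agent.PHK.H0.GasC
import Pool.Agent.PLX.NUGC.ShlF
import Pool.Agent.PLX.PotH.Env

/-!
# From the gas with the data of a configuration to the gas of any one body data, six kinds

General sea, `sN m a` rows of the species `a`, abstract cutoff `cr`, real potential `H`, statistic `Ψ`.

* `T1H`, `RgH6`: end of the window, range of the parameters; `lhsH6`, `oneEH6`, `confEH6`, `enH6`, `prefH`;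
* `gas_zH6`: from the gas bound to `Z1S6`, with the tilt, for any extra data `I` on the curves `Fil.cv a η`;
* **`red_stepH6`**: one configuration.
-/

set_option autoImplicit false
set_option linter.unusedSectionVars false

noncomputable section

open MeasureTheory Finset Filter Topology
open scoped ENNReal
open PLX (Fil Ends)

namespace PotH.PLX

open PHK
open NUGC (ES)
open NUGC.PLX (OB seaG gP pE qE CcF CcF_one SC chG FamOk dom_fam)
open NUO (Xo ht Tb TW excS exc)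
open NUSea.PLX.H0 (Inp Gd TG BF cstF aR datO6 DatC6 hfar confC6)
open NUDispW (win)
open PBZ.PLX (Z1S6)

variable [NUSea.Sea] [Fil] [Ends]

/-! ### definitions -/

/-- end of the window: `E` is the excess of the composite groups -/
def T1H (ep e1 : ℝ) (m : ℕ) {r : ℕ} (O : Fin r → Xo) (E : ℝ) : ℝ :=
  TW ep e1 m + max (excS (TW ep e1 m) O) E

/-- the range of the parameters of one configuration: `N + aX` quanta X, `N + aY` quanta Y (`aY` contains
the `xe m` additional quanta) -/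
structure RgH6 (ep e1 : ℝ) (m : ℕ) {n : ℕ} (g : Fin n → Gd) (aX aY : ℕ) (ν : ℝ) (N : ℕ) {r : ℕ}
    (O : Fin r → Xo) (E x : ℝ) : Prop where
  n2 : n ≤ 2
  sp : ∀ i j, i ≠ j → (g i).σ ≠ (g j).σ
  ax : aX ≤ 3
  ay : aY ≤ Fil.xe m + 3
  ay' : Fil.xe m ≤ aY + 3
  q : (aX : ℝ) + (Fil.xe m : ℕ) - aY = -∑ i, NUC43.sg (g i).σ * NUSp.qc (g i).c / 2
  nu : |ν - m| ≤ 4
  hN : N ≤ 3 * m
  hr : r ≤ 2 * (N + aX) + 2 * (N + aY)
  hc1 : chgO6 O true ≤ ((N + aX : ℕ) : ℤ)
  hc2 : chgO6 O false ≤ ((N + aY : ℕ) : ℤ)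
  E0 : 0 ≤ E
  hE : ∀ i, (g i).c = .w ∨ (g i).c = .d ∨ |(g i).τ| ≤ TW ep e1 m + E
  x0 : 0 ≤ x
  hx : ∀ i, NUSp.exc (T1H ep e1 m O E) (g i).τ ≤ x

/-- exponent of an object: mean field, full current of the curve, far factor -/
def oneEH6 (m : ℕ) (η : ℝ → ℝ) (T' : ℝ) {r : ℕ} (O : Fin r → Xo) (i : Fin r) : ℝ :=
  mfo6 (sN m) (parts6 par6 (O i)) -
    2 * Real.pi * wind6 (k6 (O i)) * crH η m (ht (O i)) + exc T' (ht (O i))

/-- exponent of the objects: one body exponents, `K` per object, energy of the densities, `kap` times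
the window energy -/
def confEH6 (m : ℕ) (η : ℝ → ℝ) (T' K kap : ℝ) {r : ℕ} (O : Fin r → Xo) : ℝ :=
  ∑ i, oneEH6 m η T' O i + K * r + enC6 par6 O + kap * win univ (fun i => ht (O i))

/-- energies objects - groups and groups - groups (groups pinned at `T1`), far constants of the groups
with `p` quanta X, `q` quanta Y in the gas -/
def enH6 (m : ℕ) {n : ℕ} (g : Fin n → Gd) {r : ℕ} (O : Fin r → Xo) (T1 : ℝ) (p q : ℕ) : ℝ :=
  ∑ i, ∑ d, ES (obSr6 par6 (O i)) (TG (fun i => (g i).pin T1) d) +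
    1 / 2 * (∑ d, ∑ d', ES (TG (fun i => (g i).pin T1) d) (TG (fun i => (g i).pin T1) d')) +
    cstF T1 g true * ((p : ℝ) - q + (Fil.xe m : ℕ))

/-- prefactor: mean field value, sea terms of the groups at their true heights, far factors -/
def prefH (m : ℕ) {n : ℕ} (g : Fin n → Gd) (E x Cst : ℝ) : ℝ :=
  Cst * Real.exp (NUSea.PLX.MF (sN m) + ∑ i, seaG (sN m) (g i)) * Real.exp (37 / 20 * x + 12 / 5 * E)

set_option linter.unusedVariables false in
/-- the left side: tilt and positive gas with the statistic `Ψ` -/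
def lhsH6 (B : OB) (m : ℕ) (η η1 : ℝ → ℝ) (aX aY : ℕ) (ν : ℝ) (N : ℕ) (b' : ℝ) {r : ℕ}
    (O : Fin r → Xo)
    (Ψ : (Fin (nA6 (N + aX) O true) → ℝ) × (Fin (nA6 (N + aY) O false) → ℝ) → ℝ≥0∞) :
    ℝ≥0∞ :=
  ENNReal.ofReal (Real.exp (b' * (ν - N))) *
    Z1S6 B par6 η η1 O (nA6 (N + aX) O true) (nA6 (N + aY) O false) Ψ

theorem prefH_nonneg {m : ℕ} {n : ℕ} {g : Fin n → Gd} {E x Cst : ℝ} (h : 0 ≤ Cst) :
    0 ≤ prefH m g E x Cst := by
  unfold prefH
  positivity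

theorem prefH_mono {m : ℕ} {n : ℕ} {g : Fin n → Gd} {E x Cst Cst' : ℝ} (h : Cst ≤ Cst') :
    prefH m g E x Cst ≤ prefH m g E x Cst' := by
  unfold prefH
  clear * - h
  gcongr

theorem prefH_mul {m : ℕ} {n : ℕ} {g : Fin n → Gd} {E x Cst a : ℝ} :
    prefH m g E x (Cst * a) = prefH m g E x Cst * a := by
  unfold prefH
  ring

theorem confEH6_add (m : ℕ) (η : ℝ → ℝ) (T' K K' kap : ℝ) {r : ℕ} (O : Fin r → Xo) :
    confEH6 m η T' (K + K') kap O = confEH6 m η T' K kap O + K' * r := by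
  unfold confEH6
  ring

theorem confEH6_mono {m : ℕ} {η : ℝ → ℝ} {T' K K' kap : ℝ} (hK : K ≤ K') {r : ℕ} (O : Fin r → Xo) :
    confEH6 m η T' K kap O ≤ confEH6 m η T' K' kap O := by
  unfold confEH6
  have : K * (r : ℝ) ≤ K' * r := mul_le_mul_of_nonneg_right hK (Nat.cast_nonneg r)
  linarith

/-- the exponent of the objects, split -/
lemma confEH6_split {m : ℕ} {η : ℝ → ℝ} {T' K kap : ℝ} {r : ℕ} (O : Fin r → Xo) :
    confEH6 m η T' K kap O =
      (∑ i, (mfo6 (sN m) (parts6 par6 (O i)) -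
        2 * Real.pi * wind6 (k6 (O i)) * crH η m (ht (O i)))) +
      5 / 2 * excS T' O + K * r + enC6 par6 O + kap * win univ (fun i => ht (O i)) := by
  unfold confEH6 oneEH6 excS exc
  rw [Finset.sum_add_distrib, ← Finset.mul_sum]

/-! ### the gas -/

/-- **from the gas bound to the gas of the one body data `B`**: any extra data `I` with the numbers
`sN m`, the curves `Fil.cv a η` and the ends and groups `g`; one body factors with the real rest `raH`;
constant `Q`, exponent `E`, statistic `Ψ`, factor `Y` -/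
theorem gas_zH6 {m : ℕ} {η η1 cr : ℝ → ℝ} (hcr : ∀ t, 0 ≤ cr t) {T1 x b' : ℝ} {n : ℕ}
    {g : Fin n → Gd} {B : OB} (hBn : B.Nn) {H : Bool → ℝ → ℝ} (hD : DomH B m η cr g H)
    (hF : FamOk T1 x g) (hT : 0 ≤ T1) {I : Inp} (hIs : I.s = sN m) (hIη : ∀ a, I.η a = Fil.cv a η)
    (hIη1 : ∀ a, I.η1 a = Fil.cv a η1)
    (hIA : ∀ a z, I.A a z = NUSp.DD pE qE (List.ofFn fun i => (gP T1 g i).G) a z)
    (hP : PG6 (1 / 64) par6)
    (hη : ∀ a t, |I.η a t| < 1 / 64 * NUMF.l) {r : ℕ} {O : Fin r → Xo} {p q : ℕ}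
    {Ψ : (Fin p → ℝ) × (Fin q → ℝ) → ℝ≥0∞} {Y : ℝ≥0∞} {Q E : ℝ} (hQ : 0 < Q)
    (h : ∫⁻ y, ENNReal.ofReal (NUSea.PLX.H0.W0 (datO6 I par6 O) p q
        (aR (datO6 I par6 O) (raH η T1 b' g H) true) (aR (datO6 I par6 O) (raH η T1 b' g H) false)
        (fun t => cr t * hfar (CcF n) T1 x t) y) * Ψ y ≤
      ENNReal.ofReal ((p.factorial : ℝ) * q.factorial *
        (Q * Real.exp (NUSea.PLX.MFs I.s p q + E))) * Y) :
    ENNReal.ofReal (Real.exp (-(b' / 2) * ((p : ℝ) + q))) *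
      Z1S6 B par6 η η1 O p q Ψ ≤
      ENNReal.ofReal (Q * Real.exp (NUSea.PLX.MF (sN m) + E + cstF T1 g true * p +
        cstF T1 g false * q)) * Y := by
  have hl := NUMF.l_pos
  have ea : ∀ a, aR (datO6 I par6 O) (raH η T1 b' g H) a =
      NUBR.PLX.aFe (datO6 I par6 O)
        (fun a t => (BF T1 g (Fil.cv a η) a t + H a t) + -(b' / 2)) a := by
    intro a
    funext t
    unfold aR NUBR.PLX.aFe raH
    rw [sub_eq_add_neg]
  rw [ea true, ea false] at h
  have eQ : ∀ y : ℝ, Q * Real.exp y = Real.exp (Real.log Q + y) := by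
    intro y
    rw [Real.exp_add, Real.exp_log hQ]
  have h' : ∫⁻ y, ENNReal.ofReal (NUSea.PLX.H0.W0 (datO6 I par6 O) p q
      (NUBR.PLX.aFe (datO6 I par6 O)
        (fun a t => (BF T1 g (Fil.cv a η) a t + H a t) + -(b' / 2)) true)
      (NUBR.PLX.aFe (datO6 I par6 O)
        (fun a t => (BF T1 g (Fil.cv a η) a t + H a t) + -(b' / 2)) false)
      (fun t => cr t * hfar (CcF n) T1 x t) y) * Ψ y ≤
      ENNReal.ofReal ((p.factorial : ℝ) * q.factorial *
        Real.exp (NUSea.PLX.MFs I.s p q + (Real.log Q + E))) * Y := by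
    refine h.trans (le_of_eq ?_)
    rw [eQ]
    congr 4
    ring
  have hη2 : ∀ a t, |Fil.cv a η t| < NUMF.l / 5 := fun a t => by
    have h1 := hη a t
    rw [hIη] at h1
    linarith
  have hcos := NUGC.PLX.cosl_nonneg
  have key := PBZ.PLX.Z1S6_le_inp (B := B) hBn (I := I) (P := par6) (δ := 1 / 64) hP
    (η := η) (η' := η1) hIη hIη1 hη (O := O) (p := p) (n := q) (cc := cstF T1 g)
    (e := fun a t => BF T1 g (Fil.cv a η) a t + H a t) (cf := fun t => cr t * hfar (CcF n) T1 x t)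
    (c := -(b' / 2))
    (E := Real.log Q + E) (Ψ := Ψ) (Y := Y) ?_ h'
  · rw [hIs] at key
    refine key.trans (le_of_eq ?_)
    rw [eQ]
    congr 3
    ring
  · intro a t
    rw [hIη, hIs, hIA]
    refine (hD a t).trans ?_
    have h1 := dom_fam hF hT pE qE a (hη2 a t)
    have h2 : 0 ≤ 2 * Real.cos NUP1.l *
        Real.exp ((NUSea.PLX.vb (sN m) a (NUAct.zt (NUKer.iD (Fil.cv a η)) t)).re) *
        Real.exp (H a t) * cr t := by
      have := hcr t
      positivity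
    have h3 := mul_le_mul_of_nonneg_left h1 h2
    rw [Real.exp_add _ (H a t), Real.exp_add
      ((NUSea.PLX.vb (sN m) a (NUAct.zt (NUKer.iD (Fil.cv a η)) t)).re)]
    refine le_trans (le_of_eq ?_) (h3.trans (le_of_eq ?_))
    · ring
    · rw [show (NUSea.PLX.vb (sN m) a (NUAct.zt (NUKer.iD (Fil.cv a η)) t)).re +
        (NUSp.DD pE qE (List.ofFn fun i => (gP T1 g i).G) a
          (NUAct.zt (NUKer.iD (Fil.cv a η)) t)).re +
        (BF T1 g (Fil.cv a η) a t + H a t) =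
        (NUSea.PLX.vb (sN m) a (NUAct.zt (NUKer.iD (Fil.cv a η)) t)).re +
        ((NUSp.DD pE qE (List.ofFn fun i => (gP T1 g i).G) a
          (NUAct.zt (NUKer.iD (Fil.cv a η)) t)).re +
        BF T1 g (Fil.cv a η) a t) + H a t by ring, Real.exp_add _ (H a t), Real.exp_add
          ((NUSea.PLX.vb (sN m) a (NUAct.zt (NUKer.iD (Fil.cv a η)) t)).re)]
      ring

/-! ### one configuration -/

/-- the tilt -/
lemma tilt_numH6 {b' ν m N aX aY xe cX cY r : ℝ} (hb' : |b'| ≤ 1) (hν : |ν - m| ≤ 4) (hax : aX ≤ 3)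
    (hay : aY ≤ xe + 3) (hax0 : 0 ≤ aX) (hay0 : xe ≤ aY + 3) (h3 : |cX| ≤ 2 * r)
    (h4 : |cY| ≤ 2 * r) :
    b' * (ν - N) + b' / 2 * ((N + aX - cX) + (N + aY - cY)) - b' / 2 * (m + (m + xe)) ≤
      7 + 2 * r := by
  have h5 : b' * (ν - N) + b' / 2 * ((N + aX - cX) + (N + aY - cY)) -
      b' / 2 * (m + (m + xe)) =
      b' * (ν - m) + b' / 2 * (aX + (aY - xe)) + -(b' / 2) * (cX + cY) := by ring
  have h6 : |b' * (ν - m)| ≤ 1 * 4 := by
    rw [abs_mul]
    exact mul_le_mul hb' hν (abs_nonneg _) zero_le_one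
  have h7 := le_abs_self (b' * (ν - m))
  obtain ⟨h8, h9⟩ := abs_le.1 hb'
  have h10 : b' / 2 * (aX + (aY - xe)) ≤ 1 / 2 * 6 := by
    refine (le_abs_self _).trans ?_
    rw [abs_mul, abs_div, abs_two]
    refine mul_le_mul (by linarith) ?_ (abs_nonneg _) (by norm_num)
    rw [abs_le]
    constructor <;> linarith
  have h11 : -(b' / 2) * (cX + cY) ≤ 1 / 2 * (4 * r) := by
    refine (le_abs_self _).trans ?_
    rw [abs_mul, abs_neg, abs_div, abs_two]
    have h12 : |cX + cY| ≤ 4 * r := (abs_add_le _ _).trans (by linarith)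
    exact mul_le_mul (by linarith) h12 (abs_nonneg _) (by norm_num)
  rw [h5]
  linarith

/-- the numbers of free quanta -/
lemma nA6_cast {r n : ℕ} (O : Fin r → Xo) (s : Bool) (h : chgO6 O s ≤ n) :
    (nA6 n O s : ℝ) = n - chgO6 O s := by
  have e : (nA6 n O s : ℤ) = n - chgO6 O s := Int.toNat_of_nonneg (by omega)
  exact_mod_cast e

/-- **one configuration**: from the bound of the gas to the bound of `lhsH6`; any extra data `I` with the
numbers `sN m`, the curves `Fil.cv a η` and the ends and groups `g`; `α` the power of `m` in the bound of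
the gas, `x'` the excess in the cutoff -/
theorem red_stepH6 {K0 KG kap C1 Cst α S : ℝ} {ep e1 : ℝ} {m : ℕ} {η η1 cr : ℝ → ℝ} {n : ℕ}
    {g : Fin n → Gd} {aX aY : ℕ} {ν : ℝ} {N : ℕ} {b' : ℝ} {r : ℕ} {O : Fin r → Xo}
    {E x x' : ℝ} {B : OB} {H : Bool → ℝ → ℝ} (hm0 : 0 < m) (hBn : B.Nn)
    (hcr : ∀ t, 0 ≤ cr t) (hDom : DomH B m η cr g H) (hb' : |b'| ≤ 1)
    (hR : RgH6 ep e1 m g aX aY ν N O E x)
    (hF : FamOk (T1H ep e1 m O E) x' g) (hT : 0 ≤ T1H ep e1 m O E) {I : Inp} (hIs : I.s = sN m)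
    (hIη : ∀ a, I.η a = Fil.cv a η) (hIη1 : ∀ a, I.η1 a = Fil.cv a η1)
    (hIA : ∀ a z, I.A a z = NUSp.DD pE qE (List.ofFn fun i => (gP (T1H ep e1 m O E) g i).G) a z)
    (hP : PG6 (1 / 64) par6) (hη : ∀ a t, |I.η a t| < 1 / 64 * NUMF.l) (hCst : 0 ≤ Cst)
    (hS0 : 0 ≤ S) (hS : S ≤ (2 + CcF 2) * Real.exp (37 / 20 * x))
    (hEn : (datO6 I par6 O).En ≤
        (∑ i, (mfo6 (sN m) (parts6 par6 (O i)) -
          2 * Real.pi * wind6 (k6 (O i)) * crH η m (ht (O i)))) + enC6 par6 O +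
        (∑ i, ∑ d, ES (obSr6 par6 (O i)) (TG (gP (T1H ep e1 m O E) g) d)) +
        1 / 2 * (∑ d, ∑ d', ES (TG (gP (T1H ep e1 m O E) g) d) (TG (gP (T1H ep e1 m O E) g) d')) +
        (∑ i, seaG (sN m) (g i)) + cstF (T1H ep e1 m O E) g true * (Fil.xe m : ℕ) -
        b' / 2 * (sN m true + sN m false) + linH η η1 m g (T1H ep e1 m O E) H +
        K0 * r + kap / 2 * win univ (fun i => ht (O i)) + C1)
    {Ψ : (Fin (nA6 (N + aX) O true) → ℝ) × (Fin (nA6 (N + aY) O false) → ℝ) → ℝ≥0∞}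
    {Y : ℝ≥0∞}
    (h : ∫⁻ y, ENNReal.ofReal (NUSea.PLX.H0.W0 (datO6 I par6 O)
        (nA6 (N + aX) O true) (nA6 (N + aY) O false)
        (aR (datO6 I par6 O) (raH η (T1H ep e1 m O E) b' g H) true)
        (aR (datO6 I par6 O) (raH η (T1H ep e1 m O E) b' g H) false)
        (fun t => cr t * hfar (CcF n) (T1H ep e1 m O E) x' t) y) * Ψ y ≤
      ENNReal.ofReal (((nA6 (N + aX) O true).factorial : ℝ) *
        (nA6 (N + aY) O false).factorial *
        (Cst * (m : ℝ) ^ α * (1 + S) *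
          Real.exp (confC6 ep e1 m I par6 (nA6 (N + aX) O true) (nA6 (N + aY) O false)
            KG (kap / 2) O (T1H ep e1 m O E)))) * Y) :
    lhsH6 B m η η1 aX aY ν N b' O Ψ ≤
      ENNReal.ofReal (prefH m g E x ((Cst + 1) * (3 + CcF 2) * Real.exp (C1 + 7)) *
        (m : ℝ) ^ α *
        Real.exp (confEH6 m η (TW ep e1 m) (KG + K0 + 2) kap O - 1 / 10 * excS (TW ep e1 m) O +
          linH η η1 m g (T1H ep e1 m O E) H +
          enH6 m g O (T1H ep e1 m O E) (nA6 (N + aX) O true)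
            (nA6 (N + aY) O false))) * Y := by
  obtain ⟨T1, hT1⟩ : ∃ T1, T1 = T1H ep e1 m O E := ⟨_, rfl⟩
  rw [← hT1] at hF hT hEn h hIA ⊢
  have hpR := nA6_cast O true hR.hc1
  have hqR := nA6_cast O false hR.hc2
  push_cast at hpR hqR
  unfold lhsH6
  generalize hp : nA6 (N + aX) O true = p at Ψ h hpR ⊢
  generalize hq : nA6 (N + aY) O false = q at Ψ h hqR ⊢
  have hmp' : (0 : ℝ) < m := by exact_mod_cast hm0
  obtain ⟨E', hE'⟩ : ∃ E', E' = (datO6 I par6 O).En + KG * r +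
      12 / 5 * (T1 - TW ep e1 m) + kap / 2 * win univ (fun i => ht (O i)) := ⟨_, rfl⟩
  have hconf : confC6 ep e1 m I par6 p q KG
      (kap / 2) O T1 = NUSea.PLX.MFs I.s p q + E' := by
    rw [hE']
    unfold confC6
    ring
  rw [hconf] at h
  obtain ⟨Q, hQd⟩ : ∃ Q, Q = (Cst + 1) * (m : ℝ) ^ α * (1 + S) := ⟨_, rfl⟩
  have hma : 0 < (m : ℝ) ^ α := Real.rpow_pos_of_pos hmp' _
  have hQ : 0 < Q := by rw [hQd]; positivity
  have h' : ∫⁻ y, ENNReal.ofReal (NUSea.PLX.H0.W0 (datO6 I par6 O) p q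
        (aR (datO6 I par6 O) (raH η T1 b' g H) true) (aR (datO6 I par6 O) (raH η T1 b' g H) false)
        (fun t => cr t * hfar (CcF n) T1 x' t) y) * Ψ y ≤
      ENNReal.ofReal ((p.factorial : ℝ) * q.factorial *
        (Q * Real.exp (NUSea.PLX.MFs I.s p q + E'))) * Y := by
    refine h.trans (mul_le_mul_left (ENNReal.ofReal_le_ofReal ?_) _)
    rw [hQd]
    have h1 : (0 : ℝ) ≤ (p.factorial : ℝ) * q.factorial := by positivity
    refine mul_le_mul_of_nonneg_left (mul_le_mul_of_nonneg_right ?_ (Real.exp_pos _).le) h1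
    have h2 : 0 ≤ (m : ℝ) ^ α * (1 + S) := by positivity
    clear * - h2
    nlinarith
  have hz := gas_zH6 (x := x') hcr hBn hDom hF hT hIs hIη hIη1 hIA hP hη hQ h'
  -- the tilt
  have e1' : ENNReal.ofReal (Real.exp (b' * (ν - N))) * Z1S6 B par6 η η1 O p q Ψ =
      ENNReal.ofReal (Real.exp (b' * (ν - N) + b' / 2 * ((p : ℝ) + q))) *
        (ENNReal.ofReal (Real.exp (-(b' / 2) * ((p : ℝ) + q))) *
          Z1S6 B par6 η η1 O p q Ψ) := by
    rw [← mul_assoc, ← ENNReal.ofReal_mul (Real.exp_pos _).le, ← Real.exp_add]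
    congr 3
    ring
  rw [e1']
  refine (mul_le_mul_right hz _).trans ?_
  rw [← mul_assoc, ← ENNReal.ofReal_mul (Real.exp_pos _).le]
  refine mul_le_mul_left (ENNReal.ofReal_le_ofReal ?_) _
  -- the real inequality
  obtain ⟨c1, hc1⟩ : ∃ c1 : ℝ, c1 = cstF T1 g true := ⟨_, rfl⟩
  have hc2 : cstF T1 g false = -c1 := by
    have := NUSea.PLX.H0.cstF_cancel g T1
    rw [hc1]
    clear * - this
    linarith
  obtain ⟨X1, hX1⟩ : ∃ X1, X1 = b' * (ν - N) + b' / 2 * ((p : ℝ) + q) +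
      (NUSea.PLX.MF (sN m) + E' + cstF T1 g true * p + cstF T1 g false * q) := ⟨_, rfl⟩
  have hSx : 1 + S ≤ (3 + CcF 2) * Real.exp (37 / 20 * x) := by
    have h2 : 1 ≤ Real.exp (37 / 20 * x) := Real.one_le_exp (by have := hR.x0; positivity)
    clear * - hS h2
    nlinarith
  have hCc0 := CcF_one 2
  have hlhs : Real.exp (b' * (ν - N) + b' / 2 * ((p : ℝ) + q)) *
      (Q * Real.exp (NUSea.PLX.MF (sN m) + E' + cstF T1 g true * p + cstF T1 g false * q)) =
        (Cst + 1) * (m : ℝ) ^ α * (1 + S) * Real.exp X1 := by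
    rw [hX1, hQd, Real.exp_add (b' * (ν - N) + b' / 2 * ((p : ℝ) + q))]
    ring
  rw [hlhs]
  obtain ⟨X2, hX2⟩ : ∃ X2, X2 = NUSea.PLX.MF (sN m) + (∑ i, seaG (sN m) (g i)) + 12 / 5 * E +
      (C1 + 7) +
      (confEH6 m η (TW ep e1 m) (KG + K0 + 2) kap O - 1 / 10 * excS (TW ep e1 m) O +
          linH η η1 m g T1 H + enH6 m g O T1 p q) := ⟨_, rfl⟩
  have hrhs : prefH m g E x ((Cst + 1) * (3 + CcF 2) * Real.exp (C1 + 7)) * (m : ℝ) ^ α *
        Real.exp (confEH6 m η (TW ep e1 m) (KG + K0 + 2) kap O -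
          1 / 10 * excS (TW ep e1 m) O + linH η η1 m g T1 H + enH6 m g O T1 p q) =
      (Cst + 1) * (m : ℝ) ^ α * ((3 + CcF 2) * Real.exp (37 / 20 * x)) * Real.exp X2 := by
    unfold prefH
    rw [hX2, Real.exp_add _ (confEH6 m η (TW ep e1 m) (KG + K0 + 2) kap O -
      1 / 10 * excS (TW ep e1 m) O + linH η η1 m g T1 H + enH6 m g O T1 p q),
      Real.exp_add _ (C1 + 7), Real.exp_add _ (12 / 5 * E), Real.exp_add _ (12 / 5 * E)]
    ring
  rw [hrhs]
  refine mul_le_mul (mul_le_mul_of_nonneg_left hSx (by positivity)) (Real.exp_le_exp.2 ?_)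
    (Real.exp_pos _).le (by positivity)
  -- exponents
  have hexc : T1 - TW ep e1 m ≤ excS (TW ep e1 m) O + E := by
    rw [hT1]
    unfold T1H
    have h2 := NUO.excS_nonneg (TW ep e1 m) O
    have h3 : max (excS (TW ep e1 m) O) E ≤ excS (TW ep e1 m) O + E :=
      max_le (by (clear * - hR; linarith [hR.E0])) (by (clear * - h2; linarith))
    clear * - h3
    linarith
  have hax : (aX : ℝ) ≤ 3 := by exact_mod_cast hR.ax
  have hay : (aY : ℝ) ≤ (Fil.xe m : ℕ) + 3 := by exact_mod_cast hR.ay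
  have hax0 : (0 : ℝ) ≤ aX := Nat.cast_nonneg _
  have hay0 : ((Fil.xe m : ℕ) : ℝ) ≤ aY + 3 := by exact_mod_cast hR.ay'
  have hsT : sN m true = m := sN_true hm0
  have hsF : sN m false = m + (Fil.xe m : ℕ) := by
    have := sN_sub m
    clear * - hsT this
    linarith
  have htilt : b' * (ν - N) + b' / 2 * ((p : ℝ) + q) - b' / 2 * (sN m true + sN m false) ≤
      7 + 2 * r := by
    rw [hpR, hqR, hsT, hsF]
    exact tilt_numH6 hb' hR.nu hax hay hax0 hay0 (abs_chgO6 O true) (abs_chgO6 O false)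
  clear hz h' h hconf e1' hlhs hrhs
  rw [hX1, hX2, hc2, ← hc1, confEH6_split]
  unfold enH6
  rw [← hc1, hE']
  have e5 : (fun i => (g i).pin T1) = gP T1 g := rfl
  rw [e5]
  rw [← hc1] at hEn
  clear * - hEn hexc htilt
  linarith

end PotH.PLX

end
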