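import Pool.Agent.PHK.Pot
import Pool.Agent.PLX.NUS4C.Sharp
import Pool.Agent.PLX.NUS4C.GDSp
import Pool.Agent.NUS4.GDO

/-!
# The data `GD` of the sharp bound, abstract rests, six kinds

Row numbers `s a` and curves `η a` per species.
`gd_confA6`: as `NUS4C.gd_conf`, without cutoff (the logarithm of the cutoff is in the real rest);
`gd_DDA6`: the same with ends and groups.
-/

set_option autoImplicit false
set_option linter.unusedSectionVars false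

open MeasureTheory Set Filter Topology

namespace PotH.PLX

open NUE NUOC NUKer NUR2 NUDi NUGC NUGC.PLX NUSp NUS4C NUS4C.PLX PHK
open NUO (Xo ht Away kb)
open NUS4 (R1f)

noncomputable section

variable [NUSea.Sea]

/-- **the data of the sharp bound for a configuration**: curve `η`, rows `s`, extra analytic potentials
`A`, real rests `Er`; at most `log m` objects at heights at most `(log m)²` -/
theorem gd_confA6 {ep e1 κ : ℝ} (hep : 0 < ep) (hep1 : ep ≤ 1 / 100) (he : 0 < e1) (he1 : e1 ≤ 1 / 4)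
    (hκ : 0 < κ) (k : ℕ) : ∃ m0 : ℕ, ∀ m ≥ m0, ∀ (s : Bool → ℝ) (R : ℝ) (P : Par6) (η η1 : Bool → ℝ → ℝ)
    (A : Bool → ℂ → ℂ) (Er : Bool → ℝ → ℝ) (r : ℕ) (O : Fin r → Xo) (aX aY : ℝ → ℝ),
    (∀ a, (m : ℝ) / 2 ≤ s a) → (∀ a, s a ≤ (m : ℝ) ^ 2) → PG6 (1 / 64) P → Real.log m ≤ R →
    R ≤ 2 * Real.log m ^ 2 → (1 - e1) * NUO.Tb (Real.log m) + 3 ≤ R →
    (∀ a, ∃ (ε Mc : ℝ) (ec : ℝ → ℝ), NUSea.PLX.Cur (s a) ε Mc ((1 - e1) * NUO.Tb (Real.log m)) ec (η a) ∧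
      ε ≤ (m : ℝ) ^ (-κ) ∧ Mc ≤ Real.log m ^ k) →
    (∀ a t, HasDerivAt (η a) (η1 a t) t) →
    (∀ a (z : ℂ), |z.re| ≤ (1 - e1) * NUO.Tb (Real.log m) + 2 → |z.im| < ep / 2 →
      DifferentiableAt ℂ (A a) z ∧ ‖A a z‖ ≤ Real.log m ^ k) →
    (∀ a, NUR2.Ext 4 ((1 - e1) * NUO.Tb (Real.log m)) (Real.log m ^ k) (Er a)) →
    (r : ℝ) ≤ Real.log m → (∀ i, |ht (O i)| ≤ Real.log m ^ 2) →
    (∀ t, 0 ≤ aX t) → (∀ t, 0 ≤ aY t) → Measurable aX → Measurable aY →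
    (∀ t, |t| ≤ (1 - e1) * NUO.Tb (Real.log m) → aX t = Real.exp ((NUSea.PLX.vb s true (NUAct.zt (iD (η true)) t)).re +
      (FO6 P O true (NUAct.zt (iD (η true)) t) + A true (NUAct.zt (iD (η true)) t)).re + Er true t)) →
    (∀ t, |t| ≤ (1 - e1) * NUO.Tb (Real.log m) → aY t = Real.exp ((NUSea.PLX.vb s false (NUAct.zt (iD (η false)) t)).re +
      (FO6 P O false (NUAct.zt (iD (η false)) t) + A false (NUAct.zt (iD (η false)) t)).re + Er false t)) →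
    GD m (k + 5) κ e1 (ep / 2) s R ((1 - e1) * NUO.Tb (Real.log m)) (η true) (η1 true) (η false)
      (η1 false) aX aY := by
  have hl := NUMF.l_pos
  have hlv : (98 : ℝ) / 250 < NUMF.l := by
    unfold NUMF.l
    have := Real.pi_gt_d2
    linarith
  -- the width
  have hw0 : 0 < ep / 2 := by linarith
  have hwl : ep / 2 < 1 / 64 * NUMF.l := by linarith
  obtain ⟨K0, hK0⟩ : ∃ K0 : ℝ, K0 = |KO6 (1 / 64) (ep / 2)| := ⟨_, rfl⟩
  have hK00 : 0 ≤ K0 := by rw [hK0]; exact abs_nonneg _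
  have h4 := (Real.tendsto_log_atTop.comp tendsto_natCast_atTop_atTop).eventually_ge_atTop
    (max 8 (K0 + 4))
  obtain ⟨m2, hm2⟩ := Filter.eventually_atTop.1 h4
  refine ⟨m2, fun m hm s R P η η1 A Er r O aX aY hs1 hs2 hP hR1 hR2 hbR hcur hd hA hEr
    hr hht ha0 hb0 ham hbm hX hY => ?_⟩
  have g2 := hm2 m hm
  obtain ⟨L, hL⟩ : ∃ L, L = Real.log m := ⟨_, rfl⟩
  have g2' : max 8 (K0 + 4) ≤ Real.log m := g2
  rw [← hL] at g2'
  have hL8 : 8 ≤ L := (le_max_left _ _).trans g2'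
  have hLK : K0 + 4 ≤ L := (le_max_right _ _).trans g2'
  have hbd : (1 - e1) * NUO.Tb (Real.log m) = R1f e1 m + 1 := by
    unfold R1f NUO.Tb
    ring
  have hb2 : (1 - e1) * NUO.Tb (Real.log m) ≤ L := by
    rw [← hL]
    unfold NUO.Tb
    nlinarith
  have hb00 : 0 ≤ (1 - e1) * NUO.Tb (Real.log m) := by
    rw [← hL]
    unfold NUO.Tb
    have : 0 ≤ 1 - e1 := by linarith
    positivity
  -- the potential
  have hF : ∀ (a : Bool) (z : ℂ), |z.re| ≤ (1 - e1) * NUO.Tb (Real.log m) + 2 → |z.im| < ep / 2 →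
      DifferentiableAt ℂ (fun z => FO6 P O a z + A a z) z ∧ ‖FO6 P O a z + A a z‖ ≤ L ^ (k + 5) := by
    intro a z hz1 hz2
    obtain ⟨d1, n1⟩ := hA a z hz1 hz2
    have d3 := (hasDerivAt_FO6 O hw0 hwl hP a hz2).differentiableAt
    have n3 := norm_FO6 O hw0 hwl hP a hz2
    refine ⟨d3.fun_add d1, ?_⟩
    rw [← hL] at n1 hr
    have hLk : 1 ≤ L ^ k := one_le_pow₀ (by linarith)
    have n4 : ‖FO6 P O a z‖ ≤ K0 * (L * (4 * L ^ 2)) := by
      refine n3.trans ?_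
      have s1 : ∑ i, (1 + |z.re - ht (O i)|) ≤ r * (4 * L ^ 2) := by
        have : ∀ i : Fin r, 1 + |z.re - ht (O i)| ≤ 4 * L ^ 2 := by
          intro i
          have t1 := abs_sub z.re (ht (O i))
          have t2 := hht i
          rw [← hL] at t2
          have t3 : |z.re| ≤ L + 2 := hz1.trans (by linarith)
          nlinarith
        refine (Finset.sum_le_sum fun i _ => this i).trans (le_of_eq ?_)
        rw [Finset.sum_const, Finset.card_univ, Fintype.card_fin, nsmul_eq_mul]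
      have s0 : 0 ≤ ∑ i, (1 + |z.re - ht (O i)|) := Finset.sum_nonneg fun i _ => by positivity
      calc KO6 (1 / 64) (ep / 2) * ∑ i, (1 + |z.re - ht (O i)|) ≤
            K0 * ∑ i, (1 + |z.re - ht (O i)|) := by
            rw [hK0]
            exact mul_le_mul_of_nonneg_right (le_abs_self _) s0
        _ ≤ K0 * (r * (4 * L ^ 2)) := mul_le_mul_of_nonneg_left s1 hK00
        _ ≤ K0 * (L * (4 * L ^ 2)) := by gcongr
    calc ‖FO6 P O a z + A a z‖ ≤ ‖FO6 P O a z‖ + ‖A a z‖ := norm_add_le _ _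
      _ ≤ K0 * (L * (4 * L ^ 2)) + L ^ k := by gcongr
      _ ≤ K0 * (L * (4 * L ^ 2)) * L ^ k + L ^ k := by
          have : K0 * (L * (4 * L ^ 2)) * 1 ≤ K0 * (L * (4 * L ^ 2)) * L ^ k :=
            mul_le_mul_of_nonneg_left hLk (by positivity)
          linarith
      _ = (K0 * 4 * L ^ 3 + 1) * L ^ k := by ring
      _ ≤ L ^ 5 * L ^ k := by
          refine mul_le_mul_of_nonneg_right ?_ (by positivity)
          have t1 : K0 * 4 * L ^ 3 ≤ (L - 4) * 4 * L ^ 3 := by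
            have : K0 ≤ L - 4 := by linarith
            gcongr
          have t2 : 1 ≤ L ^ 3 := one_le_pow₀ (by linarith)
          nlinarith [mul_nonneg (mul_nonneg (by linarith : 0 ≤ L) (by linarith : 0 ≤ L - 8))
            (by positivity : 0 ≤ L ^ 3)]
      _ = L ^ (k + 5) := by ring
  refine ⟨hs1, hs2, hR1, hR2, hbd.ge, hbR, ?_, ?_, hd true, hd false, ha0, hb0, ham, hbm, ?_, ?_⟩
  · obtain ⟨ε, Mc, ec, hc, hc1, hc2⟩ := hcur true
    refine ⟨ε, Mc, ec, hc, hc1, hc2.trans ?_⟩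
    rw [← hL]
    exact pow_le_pow_right₀ (by linarith) (by omega)
  · obtain ⟨ε, Mc, ec, hc, hc1, hc2⟩ := hcur false
    refine ⟨ε, Mc, ec, hc, hc1, hc2.trans ?_⟩
    rw [← hL]
    exact pow_le_pow_right₀ (by linarith) (by omega)
  · refine ⟨L ^ (k + 5), L ^ k, fun z => FO6 P O true z + A true z, Er true,
      by positivity, by rw [hL], ?_, hF true, by rw [hL]; exact hEr true, hX⟩
    rw [← hL]
    exact pow_le_pow_right₀ (by linarith) (by omega)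
  · refine ⟨L ^ (k + 5), L ^ k, fun z => FO6 P O false z + A false z, Er false,
      by positivity, by rw [hL], ?_, hF false, by rw [hL]; exact hEr false, hY⟩
    rw [← hL]
    exact pow_le_pow_right₀ (by linarith) (by omega)

/-- **the data of the sharp bound with spectators**: `gd_confA6` with `A a = DD p q L a`, ends at
height `0`, at most `N` groups at heights at most `(log m)²`, real rests `Er` -/
theorem gd_DDA6 {ep e1 κ δ : ℝ} (hep : 0 < ep) (hep1 : ep ≤ 1 / 100) (he : 0 < e1) (he1 : e1 ≤ 1 / 4)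
    (hκ : 0 < κ) (hδ : ep / 2 < δ * NUMF.l) (N k : ℕ) (hk : 3 ≤ k) : ∃ m0 : ℕ, ∀ m ≥ m0,
    ∀ (s : Bool → ℝ) (R : ℝ) (P : Par6) (η η1 : Bool → ℝ → ℝ) (p q : ℂ) (L : List Grp) (Er : Bool → ℝ → ℝ)
    (r : ℕ) (O : Fin r → Xo) (aX aY : ℝ → ℝ),
    (∀ a, (m : ℝ) / 2 ≤ s a) → (∀ a, s a ≤ (m : ℝ) ^ 2) → PG6 (1 / 64) P → Real.log m ≤ R →
    R ≤ 2 * Real.log m ^ 2 → (1 - e1) * NUO.Tb (Real.log m) + 3 ≤ R →
    (∀ a, ∃ (ε Mc : ℝ) (ec : ℝ → ℝ), NUSea.PLX.Cur (s a) ε Mc ((1 - e1) * NUO.Tb (Real.log m)) ec (η a) ∧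
      ε ≤ (m : ℝ) ^ (-κ) ∧ Mc ≤ Real.log m ^ k) →
    (∀ a t, HasDerivAt (η a) (η1 a t) t) →
    Away δ p → Away δ q → p.im = 0 → q.im = 0 → L.length ≤ N →
    (∀ G ∈ L, gn G ≤ 15 ∧ ∃ τ, |τ| ≤ Real.log m ^ 2 ∧ G.Ok δ τ) →
    (∀ a, NUR2.Ext 4 ((1 - e1) * NUO.Tb (Real.log m)) (Real.log m ^ k) (Er a)) →
    (r : ℝ) ≤ Real.log m → (∀ i, |ht (O i)| ≤ Real.log m ^ 2) →
    (∀ t, 0 ≤ aX t) → (∀ t, 0 ≤ aY t) → Measurable aX → Measurable aY →
    (∀ t, |t| ≤ (1 - e1) * NUO.Tb (Real.log m) → aX t = Real.exp ((NUSea.PLX.vb s true (NUAct.zt (iD (η true)) t)).re +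
      (FO6 P O true (NUAct.zt (iD (η true)) t) + DD p q L true (NUAct.zt (iD (η true)) t)).re + Er true t)) →
    (∀ t, |t| ≤ (1 - e1) * NUO.Tb (Real.log m) → aY t = Real.exp ((NUSea.PLX.vb s false (NUAct.zt (iD (η false)) t)).re +
      (FO6 P O false (NUAct.zt (iD (η false)) t) + DD p q L false (NUAct.zt (iD (η false)) t)).re + Er false t)) →
    GD m (k + 5) κ e1 (ep / 2) s R ((1 - e1) * NUO.Tb (Real.log m)) (η true) (η1 true) (η false)
      (η1 false) aX aY := by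
  obtain ⟨m1, H⟩ := gd_confA6 hep hep1 he he1 hκ k
  obtain ⟨K, hK⟩ : ∃ K : ℝ, K = |kb δ (ep / 2)| * (2 + 15 * N) := ⟨_, rfl⟩
  have hK0 : 0 ≤ K := by rw [hK]; positivity
  have h4 := (Real.tendsto_log_atTop.comp tendsto_natCast_atTop_atTop).eventually_ge_atTop
    (max 3 (3 * K))
  obtain ⟨m2, hm2⟩ := Filter.eventually_atTop.1 h4
  refine ⟨max m1 m2, fun m hm s R P η η1 p q L Er r O aX aY hs1 hs2 hP hR1 hR2 hbR hcur hd hp hq
    hp0 hq0 hLN hL hEr hr hht ha0 hb0 ham hbm hX hY => ?_⟩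
  have g : max 3 (3 * K) ≤ Real.log m := hm2 m ((le_max_right _ _).trans hm)
  have g1 : 3 ≤ Real.log m := (le_max_left _ _).trans g
  have g2 : 3 * K ≤ Real.log m := (le_max_right _ _).trans g
  obtain ⟨l, hl⟩ : ∃ l, l = Real.log m := ⟨_, rfl⟩
  refine H m ((le_max_left _ _).trans hm) s R P η η1 (fun a => DD p q L a) Er r O aX aY hs1 hs2
    hP hR1 hR2 hbR hcur hd ?_ hEr hr hht ha0 hb0 ham hbm hX hY
  intro a z hz1 hz2
  have hw0 : 0 < ep / 2 := by linarith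
  refine ⟨(hasDerivAt_DD hw0 hδ hp hq (by rw [hp0, hq0]) (fun G hG => ?_) a hz2).differentiableAt, ?_⟩
  · obtain ⟨-, τ, -, h⟩ := hL G hG
    exact ⟨τ, h⟩
  · have h1 := norm_DD hw0 hδ hp hq hp0 hq0 hL (by positivity) a hz2
    refine h1.trans ?_
    rw [← hl] at hz1 g1 g2 ⊢
    have hb2 : (1 - e1) * NUO.Tb l ≤ l := by
      unfold NUO.Tb
      nlinarith
    have h2 : 1 + |z.re| + l ^ 2 ≤ 3 * l ^ 2 := by nlinarith
    have h3 : |kb δ (ep / 2)| * (2 + 15 * (L.length : ℝ)) ≤ K := by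
      rw [hK]
      have : (L.length : ℝ) ≤ N := by exact_mod_cast hLN
      gcongr
    calc |kb δ (ep / 2)| * (2 + 15 * (L.length : ℝ)) * (1 + |z.re| + l ^ 2) ≤ K * (3 * l ^ 2) := by
          gcongr
      _ = 3 * K * l ^ 2 := by ring
      _ ≤ l * l ^ 2 := by gcongr
      _ = l ^ 3 := by ring
      _ ≤ l ^ k := pow_le_pow_right₀ (by linarith) hk

end

end PotH.PLX
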