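import Pool.Agent.PHK.PotH.InH
import Pool.Agent.PHK.PotH.GdA

/-!
# TARGET-C with a real potential, six kinds: the one body factors in the bulk

`exists_gdH6`: for groups and objects at heights at most `(log m)²` the one body factors of `inH`
satisfy `NUS4C.GD`.
-/

set_option autoImplicit false
set_option linter.unusedSectionVars false

open MeasureTheory Set Filter Topology
open PLX (Fil Ends)

namespace PotH.PLX

open NUO (Xo ht Tb TW excS)
open PHK
open NUSea.H0 NUSea.PLX.H0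
open NUGC (muS tauS)
open NUGC.PLX (pE qE CcF SC chG gP FamOk)

noncomputable section

variable [NUSea.Sea]

/-- the far constants are small compared with `(log m)³` -/
lemma cstF_le {G : ℕ} (g : Fin G → Gd) {T1 X : ℝ} (hT : 0 ≤ T1) (hg : ∀ i, |(g i).τ| ≤ X) (a : Bool) :
    |cstF T1 g a| ≤ 3 * G * X := by
  unfold cstF
  refine (Finset.abs_sum_le_sum_abs _ _).trans ?_
  have h1 : ∀ i ∈ (Finset.univ : Finset (Fin G)),
      |NUSp.gq a (g i).G * NUSp.exc T1 (g i).τ| ≤ 3 * X := by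
    intro i _
    rw [abs_mul]
    have h2 : |NUSp.gq a (g i).G| ≤ 3 := NUSp.abs_gq_le _ _ _ _
    have h3 : |NUSp.exc T1 (g i).τ| ≤ X := by
      rw [abs_of_nonneg (NUSp.exc_nonneg _ _)]
      unfold NUSp.exc
      refine max_le ?_ ?_
      · linarith [hg i]
      · exact (abs_nonneg _).trans (hg i)
    exact mul_le_mul h2 h3 (abs_nonneg _) (by norm_num)
  refine (Finset.sum_le_sum h1).trans (le_of_eq ?_)
  rw [Finset.sum_const, Finset.card_univ, Fintype.card_fin, nsmul_eq_mul]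
  ring

variable [Fil] [Ends]

/-- **the one body factors in the bulk** -/
theorem exists_gdH6 {ep e1 κ : ℝ} (hep : 0 < ep) (hep1 : ep ≤ 1 / 100) (he : 0 < e1)
    (he1 : e1 ≤ 1 / 100) (hκ : 0 < κ) (G k : ℕ) (hk : 4 ≤ k) : ∃ m0 : ℕ, ∀ m : ℕ,
    m0 ≤ m → ∀ η η1 : ℝ → ℝ, ∀ (b' : ℝ), |b'| ≤ 1 → ∀ (T1 x : ℝ) (g : Fin G → Gd) (B1 : ℝ → ℝ)
      (H : Bool → ℝ → ℝ), (∀ a, Continuous (H a)) →
      (∀ a, NUR2.Ext 4 ((1 - e1) * Tb (Real.log m)) (Real.log m ^ 3) (H a)) →
      ∀ (cr : ℝ → ℝ), (∃ Ec : ℝ → ℝ, NUR2.Ext 4 ((1 - e1) * Tb (Real.log m)) 1 Ec ∧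
        ∀ t, |t| ≤ (1 - e1) * Tb (Real.log m) → cr t = Real.exp (Ec t)) → ∀ (r : ℕ)
      (O : Fin r → Xo), TW ep e1 m ≤ T1 → (∀ i, |(g i).τ| ≤ Real.log m ^ 2) →
      Measurable (cfH cr G T1 x) → (∀ t, 0 ≤ cfH cr G T1 x t) →
      (∃ (dl ε Mc : ℝ) (e : ℝ → ℝ), IOk6 dl ε Mc ((1 - e1) * Tb (Real.log m)) e
        (inH η η1 m T1 b' g B1 H) par6 ∧ ε ≤ (m : ℝ) ^ (-κ) ∧ Mc ≤ Real.log m ^ k) →
      (r : ℝ) ≤ Real.log m → (∀ i, |ht (O i)| ≤ Real.log m ^ 2) →
      NUS4C.PLX.GD m (k + 5) κ e1 (ep / 2) (sN m) (2 * Real.log m ^ 2) ((1 - e1) * Tb (Real.log m))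
        (Fil.cv true η) (Fil.cv true η1) (Fil.cv false η) (Fil.cv false η1)
        (fun t => aCH6 η η1 m T1 b' g B1 H O true t * cfH cr G T1 x t)
        (fun t => aCH6 η η1 m T1 b' g B1 H O false t * cfH cr G T1 x t) := by
  have hl3 : (3 : ℝ) / 8 < NUMF.l := by
    unfold NUMF.l
    have := Real.pi_gt_three
    linarith
  obtain ⟨m1, HH⟩ := gd_DDA6 (κ := κ) (δ := 1 / 4) hep hep1 he (by linarith) hκ
    (by linarith) G k (by omega)
  obtain ⟨K, hK, HG⟩ := exists_geo6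
  have h5 := (tendsto_rpow_neg_atTop hκ).comp (tendsto_natCast_atTop_atTop (R := ℝ))
  have h6 := h5.eventually_le_const (show (0 : ℝ) < 1 / K by positivity)
  obtain ⟨m2, hm2⟩ := Filter.eventually_atTop.1 h6
  have h4 := (Real.tendsto_log_atTop.comp tendsto_natCast_atTop_atTop).eventually_ge_atTop
    (3 * (G : ℝ) + 5 + (Fil.qo : ℕ))
  obtain ⟨m3, hm3⟩ := Filter.eventually_atTop.1 h4
  refine ⟨max (max m1 m2) m3, fun m hm η η1 b' hb' T1 x g B1 H hHc hHe cr hcr r O hT1 hg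
    hcm hc0 hI hr hht => ?_⟩
  have k1 : m1 ≤ m := (le_max_left _ _).trans ((le_max_left _ _).trans hm)
  have k2 : m2 ≤ m := (le_max_right _ _).trans ((le_max_left _ _).trans hm)
  have k3 : m3 ≤ m := (le_max_right _ _).trans hm
  obtain ⟨dl, ε, Mc, e, hI1, hε, hMc⟩ := hI
  have hKe : K * ε ≤ 1 := by
    have h7 := hm2 m k2
    simp only [Function.comp] at h7
    have h8 : ε ≤ 1 / K := hε.trans h7
    have hK0 : (0 : ℝ) < K := by linarith
    rw [le_div_iff₀ hK0] at h8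
    linarith
  have hG := HG (O := O) hI1 hKe
  have hG0 : (0 : ℝ) ≤ G := Nat.cast_nonneg G
  have hqo : (1 : ℝ) ≤ (Fil.qo : ℕ) := Fil.one_le_qor
  have hLG' : 3 * (G : ℝ) + 5 + (Fil.qo : ℕ) ≤ Real.log m := hm3 m k3
  have hLG : 3 * (G : ℝ) + 5 ≤ Real.log m := by linarith
  have hL : 5 ≤ Real.log m := by linarith
  have hmp : (0 : ℝ) ≤ m := Nat.cast_nonneg m
  have hm1 : 1 ≤ m := by
    rcases Nat.eq_zero_or_pos m with h | h
    · rw [h, Nat.cast_zero, Real.log_zero] at hL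
      linarith
    · exact h
  have hlm : Real.log m ≤ m := by
    have h1 : (0 : ℝ) < m := by exact_mod_cast hm1
    linarith [Real.log_le_sub_one_of_pos h1]
  have hsN2 : ∀ a, sN m a ≤ (m : ℝ) ^ 2 := by
    intro a
    refine (sN_le hm1 a).trans ?_
    rw [pow_two]
    exact mul_le_mul_of_nonneg_right (by linarith) hmp
  have hTb : Tb (Real.log m) = 3 / 8 * Real.log m := rfl
  have hTW : TW ep e1 m = (1 + 2 * e1 + 2 * ep) * (3 / 8 * Real.log m) := rfl
  have hbT : (1 - e1) * Tb (Real.log m) ≤ T1 := by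
    refine le_trans ?_ hT1
    rw [hTW, hTb]
    refine mul_le_mul_of_nonneg_right (by linarith) (by linarith)
  have hT10 : 0 ≤ T1 := by
    refine le_trans ?_ hbT
    rw [hTb]
    have : 0 ≤ 1 - e1 := by linarith
    have : 0 ≤ Real.log m := by linarith
    positivity
  obtain ⟨Ec, hEc, hcE⟩ := hcr
  have hη5 : ∀ a t, |Fil.cv a η t| < NUMF.l / 5 := fun a t => by
    have h2 := hI1.ε1
    have h3 : |Fil.cv a η t| ≤ ε := hI1.eta a t
    unfold NUMF.l
    linarith [Real.pi_gt_d2]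
  have hram : ∀ a, Measurable (raH η T1 b' g H a) := by
    intro a
    have hd : Continuous (BF T1 g (Fil.cv a η) a) := continuous_iff_continuousAt.2 fun t =>
      (hasDerivAt_BF g T1 a (hη5 a t) (hI1.der a t)).continuousAt
    exact ((hd.add (hHc a)).sub continuous_const).measurable
  have key : ∀ a t, |t| ≤ (1 - e1) * Tb (Real.log m) →
      aCH6 η η1 m T1 b' g B1 H O a t * cfH cr G T1 x t =
      Real.exp ((NUSea.PLX.vb (sN m) a (NUAct.zt (NUKer.iD (Fil.cv a η)) t)).re +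
        (FO6 par6 O a (NUAct.zt (NUKer.iD (Fil.cv a η)) t) +
          NUSp.DD pE qE (List.ofFn fun i => (g i).G) a (NUAct.zt (NUKer.iD (Fil.cv a η)) t)).re +
        ((H a t + Ec t) + (-(cstF T1 g a) + -(b' / 2)))) := by
    intro a t ht
    have hz : NUAct.zt (NUKer.iD (Fil.cv a η)) t = (t : ℂ) + (Fil.cv a η t : ℂ) * Complex.I := rfl
    have h1 := fam_in g (T := T1) (η := Fil.cv a η) pE qE a (ht.trans hbT)
    have h2 : aCH6 η η1 m T1 b' g B1 H O a t =
        Real.exp ((NUSea.PLX.vb (sN m) a (NUAct.zt (NUKer.iD (Fil.cv a η)) t)).re +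
        (FO6 par6 O a (NUAct.zt (NUKer.iD (Fil.cv a η)) t) +
          NUSp.DD pE qE (List.ofFn fun i => (gP T1 g i).G) a (NUAct.zt (NUKer.iD (Fil.cv a η)) t)).re +
          raH η T1 b' g H a t) := rfl
    have h3 : cfH cr G T1 x t = Real.exp (Ec t) := by
      unfold cfH
      rw [hfar_in (ht.trans hbT), mul_one, hcE t ht]
    have h4 : raH η T1 b' g H a t = BF T1 g (Fil.cv a η) a t + H a t - b' / 2 := rfl
    have h5 : (fun i => (gP T1 g i).G) = fun i => ((g i).pin T1).G := rfl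
    rw [h2, h3, ← Real.exp_add, h4]
    congr 1
    rw [Complex.add_re, Complex.add_re, hz, h1, h5]
    ring
  have hTb0 : (1 - e1) * Tb (Real.log m) + 3 ≤ 2 * Real.log m ^ 2 := by
    rw [hTb]
    nlinarith
  refine HH m k1 (sN m) (2 * Real.log m ^ 2) par6 (fun a => Fil.cv a η)
    (fun a => Fil.cv a η1) pE qE (List.ofFn fun i => (g i).G)
    (fun a t => (H a t + Ec t) + (-(cstF T1 g a) + -(b' / 2))) r O _ _
    (fun a => (by linarith : (m : ℝ) / 2 ≤ m).trans (le_sN m a)) hsN2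
    hI1.pg (by nlinarith) le_rfl hTb0 (fun a => ⟨ε, Mc, e, hI1.cur a, hε, hMc⟩) hI1.der
    (away_p (Complex.ofReal_re _)) (away_q (Complex.ofReal_re _)) (Complex.ofReal_im _)
    (Complex.ofReal_im _) (by rw [List.length_ofFn]) ?_ ?_ hr hht
    (fun t => mul_nonneg (Real.exp_pos _).le (hc0 t)) (fun t => mul_nonneg (Real.exp_pos _).le (hc0 t))
    ((aR_meas hG (hram true)).mul hcm) ((aR_meas hG (hram false)).mul hcm) (key true) (key false)
  · intro G' hG'
    rw [List.mem_ofFn] at hG'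
    obtain ⟨i, rfl⟩ := hG'
    exact ⟨NUSp.gn_grp _ _ _, (g i).τ, hg i, (g i).ok⟩
  · intro a
    have h1 : NUR2.Ext 4 ((1 - e1) * Tb (Real.log m)) (3 * G * Real.log m ^ 2 + 1)
        (fun _ => -(cstF T1 g a) + -(b' / 2)) := by
      refine NUR2.Ext.of_O (NUOC.O.const 4 ?_)
      refine (abs_add_le _ _).trans (add_le_add ?_ ?_)
      · rw [abs_neg]
        exact cstF_le g hT10 hg a
      · rw [abs_neg, abs_div, abs_two]
        linarith
    refine (((hHe a).add hEc).add h1).mono ?_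
    have h3 : Real.log m ^ 4 ≤ Real.log m ^ k := pow_le_pow_right₀ (by linarith) hk
    have h5 : Real.log m ^ 4 = Real.log m ^ 3 * Real.log m := by ring
    have h6 : Real.log m ^ 3 = Real.log m ^ 2 * Real.log m := by ring
    have h7 : (25 : ℝ) ≤ Real.log m ^ 2 := by nlinarith
    have h8 : 3 * G * Real.log m ^ 2 ≤ Real.log m ^ 3 := by
      rw [h6, mul_comm (Real.log m ^ 2)]
      exact mul_le_mul_of_nonneg_right (by linarith) (by positivity)
    have h9 : 1 ≤ Real.log m ^ 3 := one_le_pow₀ (by linarith)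
    nlinarith

end

end PotH.PLX
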