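import Pool.Agent.PHK.PotH.Red6
import Pool.Agent.PHK.H0.CrS6
import Pool.Agent.PHK.PotH.Gd

/-!
# The data of every configuration and the reduction of its gas, six kinds, potentials with a source

* `IOk6.addB`: one more real potential; `DatC6.mono_k`;
* **`ConfOk6`**: one configuration: data `I`, one body factors in the bulk, reduction;
* **`exists_confH6`**: every configuration has data `DatC6` (and the one body factors in the bulk when
  the groups are near), and every bound of the gas integral of these data with a statistic `Ψ` gives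
  the bound of `lhsH6`.  The potential `H` has a source (`EnvH.hok : HSk`): the data are
  `addS (inH .. (H - srcP ν τ)) ν τ 0`.
-/

set_option autoImplicit false
set_option linter.unusedSectionVars false

noncomputable section

open MeasureTheory Finset Filter Topology
open scoped ENNReal
open PLX (Fil Ends)

namespace NUSea.PLX.H0

open NUMF NUKer NUAct PHK

variable [Sea]

/-- one more real potential -/
def addB (I : Inp) (Δ : Bool → ℝ → ℝ) : Inp := { I with B := fun a t => I.B a t + Δ a t }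

/-- **one more real potential** -/
theorem IOk6.addB {I : Inp} {P : Par6} {dl ε M b : ℝ} {e : ℝ → ℝ} (h : IOk6 dl ε M b e I P)
    {Δ : Bool → ℝ → ℝ} {s : ℝ} (hc : ∀ a, ContDiff ℝ 1 (Δ a)) (hb : ∀ a t, |Δ a t| ≤ s) :
    IOk6 dl ε M b e (H0.addB I Δ) P := by
  have hw : ∀ a, wO (H0.addB I Δ) a = fun t => wO I a t + Δ a t := by
    intro a
    funext t
    show (I.A a (NUAct.zt (iD (I.η a)) t)).re + (I.B a t + Δ a t) -
      Dat.sg a * NUC43.lgp I.τD t - Vn I a t =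
      (I.A a (NUAct.zt (iD (I.η a)) t)).re + I.B a t - Dat.sg a * NUC43.lgp I.τD t - Vn I a t + Δ a t
    ring
  exact
    { s0 := h.s0
      b0 := h.b0
      cur := h.cur
      der := h.der
      com := h.com
      ε1 := h.ε1
      ok := h.ok
      pg := h.pg
      d1 := h.d1
      d2 := h.d2
      Ae := h.Ae
      Bc := fun a => (h.Bc a).add (hc a).continuous
      Bb := fun a => by
        obtain ⟨C, hC⟩ := h.Bb a
        refine ⟨C + s, fun t => (abs_add_le _ _).trans (add_le_add (hC t) (hb a t))⟩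
      νc := h.νc
      νi := h.νi
      νb := h.νb
      τi := h.τi
      τ1 := h.τ1
      wc := fun a => by
        rw [hw]
        exact (h.wc a).add (hc a)
      wb := fun a => by
        obtain ⟨C, hC⟩ := h.wb a
        refine ⟨C + s, fun t => ?_⟩
        rw [hw]
        exact (abs_add_le _ _).trans (add_le_add (hC t) (hb a t)) }

theorem DatC6.mono_k {ep e1 κ CB ϑ kb : ℝ} {k k' m : ℕ} {I : Inp} {P : Par6} {r : ℕ}
    {O : Fin r → NUO.Xo} {G : ℕ} {g : Fin G → ℝ} {p n : ℕ} {aX aY cf B1 : ℝ → ℝ} {T1 D q S : ℝ}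
    (h : DatC6 ep e1 κ CB ϑ kb k m I P O g p n aX aY cf B1 T1 D q S) (hk : k ≤ k')
    (hm : 1 ≤ Real.log m) : DatC6 ep e1 κ CB ϑ kb k' m I P O g p n aX aY cf B1 T1 D q S := by
  obtain ⟨dl, ε, M, e, h0, h1, h2, h3⟩ := h.ok
  exact { h with ok := ⟨dl, ε, M, e, h0, h1, h2.trans (pow_le_pow_right₀ hm hk), h3⟩ }

end NUSea.PLX.H0

namespace PotH.PLX

open PHK
open NUGC (ES muS tauS)
open NUGC.PLX (OB seaG gP pE qE CcF CcF_one SC chG FamOk dom_fam)
open NUO (Xo ht Tb TW excS exc)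
open NUSea.PLX.H0 (Inp Gd TG BF cstF aR datO6 DatC6 hfar confC6 addS ψ0 srcP SrcOk crS srcEn IOk6)
open NUDispW (win)
open PBZ.PLX (Z1S6)

variable [NUSea.Sea] [Fil] [Ends]

omit [NUSea.Sea] [Fil] [Ends] in
lemma TW_nonneg {ep e1 : ℝ} (h0 : 0 < ep) (h1 : 0 < e1) {m : ℕ} (hm : 1 ≤ m) : 0 ≤ TW ep e1 m := by
  have h2 : 0 ≤ Real.log (m : ℝ) := Real.log_nonneg (by exact_mod_cast hm)
  unfold TW Tb
  positivity

omit [NUSea.Sea] [Fil] [Ends] in
/-- the end of the window -/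
lemma TW_le (ep e1 : ℝ) (m : ℕ) {r : ℕ} (O : Fin r → Xo) {E : ℝ} (hE : 0 ≤ E) :
    TW ep e1 m ≤ T1H ep e1 m O E ∧ TW ep e1 m + excS (TW ep e1 m) O ≤ T1H ep e1 m O E ∧
      TW ep e1 m + E ≤ T1H ep e1 m O E := by
  unfold T1H
  have h1 := le_max_left (excS (TW ep e1 m) O) E
  have h2 := le_max_right (excS (TW ep e1 m) O) E
  have h3 := NUO.excS_nonneg (TW ep e1 m) O
  exact ⟨by linarith, by linarith, by linarith⟩

/-- the families of the range are admissible -/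
lemma famOk_ofH {ep e1 : ℝ} {m : ℕ} {n : ℕ} {g : Fin n → Gd} {aX aY : ℕ} {ν : ℝ} {N : ℕ} {r : ℕ}
    {O : Fin r → Xo} {E x : ℝ} (hR : RgH6 ep e1 m g aX aY ν N O E x) :
    FamOk (T1H ep e1 m O E) x g where
  cl i := by
    rcases hR.hE i with h | h | h
    · exact Or.inl h
    · exact Or.inr (Or.inl h)
    · exact Or.inr (Or.inr (h.trans (TW_le ep e1 m O hR.E0).2.2))
  sp := hR.sp
  x0 := hR.x0
  ex := hR.hx

/-- **one configuration: data and reduction.**  `dat`: the data; `dD`: the cutoff at the end of the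
window; `gd`: the one body factors in the bulk; `red`: every bound of the gas of the data with a
statistic gives the bound of `lhsH6` -/
structure ConfOk6 (ep e1 κ CB ϑ w kap KR CR : ℝ) (k m : ℕ) (η η1 cr : ℝ → ℝ) (B : OB)
    (H : Bool → ℝ → ℝ) {n : ℕ} (g : Fin n → Gd) (aX aY : ℕ) (ν : ℝ) (N : ℕ) (b' : ℝ) {r : ℕ}
    (O : Fin r → Xo) (E x : ℝ) (I : Inp) (B1 : ℝ → ℝ) (D : ℝ) : Prop where
  dat : DatC6 ep e1 κ CB ϑ (64 * (Fil.qo : ℕ)) k m I par6 O
    (fun i => (gP (T1H ep e1 m O E) g i).τ) (nA6 (N + aX) O true) (nA6 (N + aY) O false)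
    (aCH6 η η1 m (T1H ep e1 m O E) b' g B1 H O true)
    (aCH6 η η1 m (T1H ep e1 m O E) b' g B1 H O false)
    (cfH cr n (T1H ep e1 m O E) x) B1 (T1H ep e1 m O E) D (49 / 20) (SC n x)
  sI : I.s = sN m
  dD : D * Real.exp (-(49 / 20 * TW ep e1 m)) ≤ SC n x
  gd : (∀ i, |(g i).τ| ≤ Real.log m ^ 2) → (r : ℝ) + n ≤ Real.log m →
    (∀ i, |ht (O i)| ≤ Real.log m ^ 2) →
    NUS4C.PLX.GD m k κ e1 w I.s (2 * Real.log m ^ 2) ((1 - e1) * Tb (Real.log m))
      (I.η true) (I.η1 true) (I.η false) (I.η1 false)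
      (fun t => aCH6 η η1 m (T1H ep e1 m O E) b' g B1 H O true t * cfH cr n (T1H ep e1 m O E) x t)
      (fun t => aCH6 η η1 m (T1H ep e1 m O E) b' g B1 H O false t * cfH cr n (T1H ep e1 m O E) x t)
  red : ∀ KG Cst α : ℝ, 0 ≤ Cst →
    ∀ (Ψ : (Fin (nA6 (N + aX) O true) → ℝ) × (Fin (nA6 (N + aY) O false) → ℝ) → ℝ≥0∞)
      (Y : ℝ≥0∞),
    ∫⁻ y, ENNReal.ofReal (NUSea.PLX.H0.W0 (datO6 I par6 O)
        (nA6 (N + aX) O true) (nA6 (N + aY) O false)
        (aCH6 η η1 m (T1H ep e1 m O E) b' g B1 H O true)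
        (aCH6 η η1 m (T1H ep e1 m O E) b' g B1 H O false)
        (cfH cr n (T1H ep e1 m O E) x) y) * Ψ y ≤
      ENNReal.ofReal (((nA6 (N + aX) O true).factorial : ℝ) *
        (nA6 (N + aY) O false).factorial *
        (Cst * (m : ℝ) ^ α * (1 + SC n x) *
          Real.exp (confC6 ep e1 m I par6 (nA6 (N + aX) O true)
            (nA6 (N + aY) O false) KG (kap / 2) O (T1H ep e1 m O E)))) * Y →
    lhsH6 B m η η1 aX aY ν N b' O Ψ ≤
      ENNReal.ofReal (prefH m g E x ((Cst + 1) * CR) * (m : ℝ) ^ α *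
        Real.exp (confEH6 m η (TW ep e1 m) (KG + KR) kap O - 1 / 10 * excS (TW ep e1 m) O +
          linH η η1 m g (T1H ep e1 m O E) H +
          enH6 m g O (T1H ep e1 m O E) (nA6 (N + aX) O true)
            (nA6 (N + aY) O false))) * Y

/-! ### the source -/

/-- the species factor does not see the majorant and the source -/
lemma aCH6_addS {η η1 : ℝ → ℝ} {m : ℕ} {T1 b' : ℝ} {n : ℕ} {g : Fin n → Gd} {B1 : ℝ → ℝ}
    {H : Bool → ℝ → ℝ} {ν : Bool → ℝ → ℝ} {τ : ℝ → ℝ} {r : ℕ} (O : Fin r → Xo) (a : Bool) :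
    (fun t => aCH6 η η1 m T1 b' g B1 (fun a t => H a t - srcP ν τ a t) O a t *
      Real.exp (srcP ν τ a t)) = aCH6 η η1 m T1 b' g B1 H O a := by
  funext t
  unfold aCH6 aR raH
  rw [← Real.exp_add]
  congr 1
  have h1 : ∀ X Y : ℝ, X + Y + (BF T1 g (Fil.cv a η) a t + (H a t - srcP ν τ a t) - b' / 2) +
      srcP ν τ a t = X + Y + (BF T1 g (Fil.cv a η) a t + H a t - b' / 2) := fun X Y => by ring
  exact h1 _ _

/-- the linear term of the potential with a source -/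
lemma linH_addS {η η1 : ℝ → ℝ} {m : ℕ} {T1 : ℝ} {n : ℕ} {g : Fin n → Gd} {H : Bool → ℝ → ℝ}
    {ν : Bool → ℝ → ℝ} {τ : ℝ → ℝ} {s B : ℝ} (hs : SrcOk s ν τ)
    (hc : ∀ a, Continuous fun t => H a t - srcP ν τ a t) (hb : ∀ a t, |H a t - srcP ν τ a t| ≤ B) :
    linH η η1 m g T1 H = linH η η1 m g T1 (fun a t => H a t - srcP ν τ a t) +
      ∑ a, ∫ t, sN m a * NUSea.P t * (srcP ν τ a t + ψ0 a t) := by
  have h1 : ∀ a, ∫ t, sN m a * NUSea.P t * H a t =
      (∫ t, sN m a * NUSea.P t * (H a t - srcP ν τ a t)) +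
        ∫ t, sN m a * NUSea.P t * (srcP ν τ a t + ψ0 a t) := by
    intro a
    have i1 : Integrable fun t => sN m a * NUSea.P t * (H a t - srcP ν τ a t) := by
      refine ((NUSea.PLX.H0.P_B_int (hc a) (hb a)).const_mul (sN m a)).congr
        (Eventually.of_forall fun t => ?_)
      simp only
      ring
    have i2 : Integrable fun t => sN m a * NUSea.P t * (srcP ν τ a t + ψ0 a t) := by
      refine ((NUSea.PLX.H0.P_B_int (hs.cont a) (hs.le a)).const_mul (sN m a)).congr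
        (Eventually.of_forall fun t => ?_)
      show sN m a * (NUSea.P t * srcP ν τ a t) = sN m a * NUSea.P t * (srcP ν τ a t + 0)
      ring
    rw [← integral_add i1 i2]
    refine integral_congr_ae (Eventually.of_forall fun t => ?_)
    show sN m a * NUSea.P t * H a t = sN m a * NUSea.P t * (H a t - srcP ν τ a t) +
      sN m a * NUSea.P t * (srcP ν τ a t + 0)
    ring
  unfold linH
  rw [Fintype.sum_bool, Fintype.sum_bool, Fintype.sum_bool, h1 true, h1 false]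
  ring

/-- the data with the whole potential -/
lemma inH_addB {η η1 : ℝ → ℝ} {m : ℕ} {T1 b' : ℝ} {n : ℕ} {g : Fin n → Gd} {B1 : ℝ → ℝ}
    {H : Bool → ℝ → ℝ} {ν : Bool → ℝ → ℝ} {τ : ℝ → ℝ} :
    NUSea.PLX.H0.addB (inH η η1 m T1 b' g B1 (fun a t => H a t - srcP ν τ a t)) (srcP ν τ) =
      inH η η1 m T1 b' g B1 H := by
  have h1 : (fun (a : Bool) (t : ℝ) => B1 t + BF T1 g (Fil.cv a η) a t +
      (H a t - srcP ν τ a t) - b' / 2 + srcP ν τ a t) =
      fun a t => B1 t + BF T1 g (Fil.cv a η) a t + H a t - b' / 2 := by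
    funext a t
    ring
  have h2 : ∀ f f' : Bool → ℝ → ℝ, f = f' →
      { inH η η1 m T1 b' g B1 H with B := f } = { inH η η1 m T1 b' g B1 H with B := f' } := by
    intro f f' h
    rw [h]
  exact h2 _ _ h1

/-- **the data of every configuration and the reduction of its gas**, six kinds, potentials with a source -/
theorem exists_confH6 (hD : DatGH6) {B0 N0 : ℝ} (hB0 : 0 ≤ B0) (hN0 : 0 ≤ N0) :
    ∃ KR : ℝ, 0 ≤ KR ∧ ∀ G : ℕ, G ≤ 2 → ∀ kap : ℝ, 0 < kap → ∀ ep : ℝ, 0 < ep → ep ≤ 1 / 100 →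
    ∀ e1 : ℝ, 0 < e1 → e1 ≤ 1 / 100 → ∀ Cc C0 : ℝ, 1 ≤ Cc → 1 ≤ C0 →
    ∃ (k : ℕ) (κ CB w : ℝ), 0 < κ ∧ 0 ≤ CB ∧ 0 < w ∧ w ≤ 1 / 10 ∧
    ∀ ϑ : ℝ, 0 < ϑ → ∃ d CR : ℝ, 0 < d ∧ d ≤ 1 ∧ 0 ≤ CR ∧ ∃ m0 : ℕ, ∀ m : ℕ, m0 ≤ m →
    ∀ (η η1 cr Bc Bc' : ℝ → ℝ) (H H' : Bool → ℝ → ℝ) (B : OB) (g : Fin G → Gd),
    EnvH ep e1 Cc C0 B0 N0 d m η η1 cr Bc Bc' H H' B g →
    ∀ (aX aY : ℕ) (ν : ℝ) (N : ℕ) (b' : ℝ) (r : ℕ) (O : Fin r → Xo) (E x : ℝ), |b'| ≤ d →
      RgH6 ep e1 m g aX aY ν N O E x →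
      ∃ (I : Inp) (B1 : ℝ → ℝ) (D : ℝ), ConfOk6 ep e1 κ CB ϑ w kap KR CR k m η η1 cr B H g aX aY ν N
        b' O E x I B1 D := by
  choose W hW hD using hD
  have hW0 := hW 0
  have hW1 := hW 1
  have hW2 := hW 2
  obtain ⟨K0, hK0, hEn⟩ := exists_enH6 (W := W 0 + W 1 + W 2) (B0 := B0) (by positivity) hB0
  obtain ⟨Ks, hKs, HKs⟩ := NUSea.PLX.H0.srcEn_le
  obtain ⟨Kc, hKc, HKc⟩ := NUSea.PLX.H0.crS_le6 par6_good.ok
  obtain ⟨M, hM, HM⟩ := NUSea.PLX.H0.exists_nuG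
  refine ⟨K0 + Kc * B0 + 2, by positivity, ?_⟩
  intro G hG2 kap hkap ep hep hep1 e1 he he1 Cc C0 hCc hC0
  obtain ⟨k0, κ, CB, w, C, hκ, hCB, hw, hw1, hC, hD⟩ := hD G ep hep hep1 e1 he he1 Cc C0 hCc hC0 B0 N0
    hB0 hN0
  refine ⟨max k0 4 + 5, κ, CB + B0, ep / 2, hκ, by positivity, by positivity, by linarith, ?_⟩
  intro ϑ hϑ
  obtain ⟨d, hd, m2, hD⟩ := hD ϑ hϑ
  obtain ⟨C1, m3, hEn⟩ := hEn (kap / 2) (by positivity) ep hep hep1 e1 he he1 Cc (by linarith) k0 κ C hκ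
  obtain ⟨m4, hgd⟩ := exists_gdH6 hep hep1 he he1 hκ G (max k0 4) (le_max_right _ _)
  obtain ⟨m5, hlog⟩ := NUGC.PLX.polylogC 1 k0 hκ one_pos
  have hCF := CcF_one 2
  obtain ⟨C2, hC2⟩ : ∃ C2, C2 = C1 + Ks * B0 ^ 2 + Kc * B0 * (1 + 4 * M + CB) := ⟨_, rfl⟩
  refine ⟨min d 1, (3 + CcF 2) * Real.exp (C2 + 7), lt_min hd one_pos, min_le_right _ _,
    by positivity, max m2 (max m3 (max m4 (max m5 3))), ?_⟩
  intro m hm η η1 cr Bc Bc' H H' B g hEnv aX aY ν N b' r O E x hb' hR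
  obtain ⟨hc, hcut, hH, hBn, hDom⟩ := hEnv
  simp only [max_le_iff] at hm
  obtain ⟨hm2, hm3, hm4, hm5, hm6⟩ := hm
  have hm1 : 1 ≤ m := by omega
  have hmp : (0 : ℝ) < m := by exact_mod_cast hm1
  have hL1 : 1 ≤ Real.log m := by
    rw [Real.le_log_iff_exp_le hmp]
    have h3 : (3 : ℝ) ≤ m := by exact_mod_cast hm6
    have := Real.exp_one_lt_d9
    clear * - hep hep1 h3 this
    linarith
  obtain ⟨t1, t2, t3⟩ := TW_le ep e1 m O hR.E0
  have hF := famOk_ofH hR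
  have hTW0 := TW_nonneg hep he hm1
  have hT0 : 0 ≤ T1H ep e1 m O E := hTW0.trans t1
  have hN := hR.hN
  have hax := hR.ax
  have hay := hR.ay
  have hrr := hR.hr
  have hb1 : |b'| ≤ d := hb'.trans (min_le_left _ _)
  have hb2 : |b'| ≤ 1 := hb'.trans (min_le_right _ _)
  -- the numbers
  have hqo : 1 ≤ (Fil.qo : ℕ) := by exact_mod_cast Fil.one_le_qor
  have hxe : Fil.xe m ≤ Fil.qo * m := by
    have h1 := sN_sub m
    have h2 := sN_le hm1 false
    have h3 := sN_nonneg m true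
    have h4 : ((Fil.xe m : ℕ) : ℝ) ≤ (Fil.qo : ℕ) * m := by (clear * - h1 h2 h3; linarith)
    exact_mod_cast h4
  have hqm : m ≤ Fil.qo * m := Nat.le_mul_of_pos_left m hqo
  have hb8 : 8 * Fil.qo * m = 8 * (Fil.qo * m) := mul_assoc _ _ _
  have hb32 : 32 * Fil.qo * m = 32 * (Fil.qo * m) := mul_assoc _ _ _
  obtain ⟨Qm, hQm⟩ : ∃ Qm, Qm = Fil.qo * m := ⟨_, rfl⟩
  rw [← hQm] at hxe hqm hb8 hb32
  obtain ⟨B1, hB, hB0', hB1, hBi, hBC, hD⟩ := hD m hm2 η η1 hc cr Bc Bc' hcut b' hb1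
    (T1H ep e1 m O E) x g t1 hF
  -- the source
  obtain ⟨νs, τs, H0', hs, hH0⟩ := (hH.mono_th (min_le_left d 1)).src
  obtain ⟨D, hdat, hD0, -⟩ := hD _ H0' hH0 (N + aX) (N + aY)
    (by rw [hb8]; omega) (by rw [hb8]; omega)
    (by
      have h1 := hR.q
      unfold chG
      push_cast
      clear * - h1
      linarith) r (by rw [hb32]; omega) O hR.hc1 hR.hc2 t2
  obtain ⟨dl, ε, Mc, e, hI, i1, i2, i3⟩ := hdat.ok
  have hdS := hdat.addS hTW0 hs
  rw [aCH6_addS O true, aCH6_addS O false] at hdS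
  have hI2 : IOk6 dl ε Mc ((1 - e1) * Tb (Real.log m)) e (inH η η1 m (T1H ep e1 m O E) b' g B1 H) par6 := by
    rw [← inH_addB (ν := νs) (τ := τs)]
    refine hI.addB (fun a => ?_) (hs.le)
    have h1 : ContDiff ℝ 1 (H a) := contDiff_one_iff_deriv.2
      ⟨fun t => (hH.d a t).differentiableAt, (hH.c a).congr fun t => ((hH.d a t).deriv).symm⟩
    have h2 : ContDiff ℝ 1 (fun t => H a t - srcP νs τs a t) := contDiff_one_iff_deriv.2
      ⟨fun t => (hH0.d a t).differentiableAt, (hH0.c a).congr fun t => ((hH0.d a t).deriv).symm⟩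
    have h3 : (fun t => H a t - (H a t - srcP νs τs a t)) = srcP νs τs a := by
      funext t
      ring
    have h4 := h1.sub h2
    rw [h3] at h4
    exact h4
  refine ⟨addS (inH η η1 m (T1H ep e1 m O E) b' g B1 (fun a t => H a t - srcP νs τs a t)) νs τs ψ0,
    B1, D, (hdS.mono_k (le_trans (le_max_left k0 4) (by omega)) hL1), rfl, hD0, ?_, ?_⟩
  · intro hg hr hht
    refine hgd m hm4 η η1 b' hb2 (T1H ep e1 m O E) x g B1 H
      (fun a => continuous_iff_continuousAt.2 fun t => (hH.d a t).continuousAt) hH.ext cr hcut.ext r O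
      t1 hg hdat.shl.mc hdat.shl.c0 ⟨dl, ε, Mc, e, hI2, i1,
        i2.trans (pow_le_pow_right₀ hL1 (le_max_left _ _))⟩ ?_ hht
    have : (0 : ℝ) ≤ G := Nat.cast_nonneg G
    clear * - hr
    linarith
  intro KG Cst α hCst Ψ Y h
  -- the energy
  have hMe : Mc * ε ≤ 1 := by
    have h1 := hlog m hm5
    rw [one_mul] at h1
    refine le_trans ?_ h1
    have h2 : 0 ≤ ε := hI.eps0
    have h3 : 0 ≤ Real.log (m : ℝ) ^ k0 := by positivity
    exact mul_le_mul i2 i1 h2 h3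
  have hmu : ∀ a, ∫ t, |NUGC.muS (TG (gP (T1H ep e1 m O E) g)) a t| ≤ 2 * M := by
    intro a
    have h1 := (HM G (gP (T1H ep e1 m O E) g)).2.2 a
    have h2 : (G : ℝ) ≤ 2 := by exact_mod_cast hG2
    clear * - h1 hM h2
    nlinarith
  have hmi : ∀ a, Integrable (NUGC.muS (TG (gP (T1H ep e1 m O E) g)) a) := hI.νi
  have hta : ∫ t, |NUGC.tauS (TG (gP (T1H ep e1 m O E) g)) t| ≤ 4 * M := by
    have h1 : ∀ t, NUGC.tauS (TG (gP (T1H ep e1 m O E) g)) t =
        NUGC.muS (TG (gP (T1H ep e1 m O E) g)) true t -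
          NUGC.muS (TG (gP (T1H ep e1 m O E) g)) false t := fun t =>
      (NUGC.muS_sub (NUSea.PLX.H0.TG_ok _) t).symm
    calc ∫ t, |NUGC.tauS (TG (gP (T1H ep e1 m O E) g)) t| ≤
        ∫ t, (|NUGC.muS (TG (gP (T1H ep e1 m O E) g)) true t| +
          |NUGC.muS (TG (gP (T1H ep e1 m O E) g)) false t|) := by
          refine integral_mono hI.τi.abs ((hmi true).abs.add (hmi false).abs) fun t => ?_
          simp only
          rw [h1]
          exact abs_sub _ _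
      _ = (∫ t, |NUGC.muS (TG (gP (T1H ep e1 m O E) g)) true t|) +
          ∫ t, |NUGC.muS (TG (gP (T1H ep e1 m O E) g)) false t| :=
          integral_add (hmi true).abs (hmi false).abs
      _ ≤ 4 * M := by (clear * - hmu; linarith [hmu true, hmu false])
  have hcr := HKc (O := O) hI hMe (A := 4 * M) (W := CB) (fun a => (hmu a).trans (by (clear * - hM; linarith))) hta
    hdat.w0 hs
  have hse := HKs hs
  have h2 := hEn m hm3 η η1 hc hc.lip b' hb2 G hG2 g (T1H ep e1 m O E) t1 B1 hB hB0'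
    (fun t => (hB1 t).trans (by interval_cases G <;> (clear * - hW1 hW2 hW0; linarith))) hBi hBC _ H0' hH0.d hH0.c hH0.le r O
    hdat.ok
  have h3 := NUSea.PLX.H0.En_addS6 hI hdat.fld hs (NUSea.PLX.H0.remOk_zero hs.s0)
  have h4 := linH_addS (η := η) (η1 := η1) (m := m) (T1 := T1H ep e1 m O E) (g := g) (H := H) hs
    (fun a => continuous_iff_continuousAt.2 fun t => (hH0.d a t).continuousAt) hH0.le
  have h5 : (∑ a, ∫ t, (datO6 (inH η η1 m (T1H ep e1 m O E) b' g B1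
      (fun a t => H a t - srcP νs τs a t)) par6 O).ρ a t * (srcP νs τs a t + ψ0 a t)) =
      ∑ a, ∫ t, sN m a * NUSea.P t * (srcP νs τs a t + ψ0 a t) := rfl
  have hEnS : (datO6 (addS (inH η η1 m (T1H ep e1 m O E) b' g B1
      (fun a t => H a t - srcP νs τs a t)) νs τs ψ0) par6 O).En ≤
        (∑ i, (mfo6 (sN m) (parts6 par6 (O i)) -
          2 * Real.pi * wind6 (k6 (O i)) * crH η m (ht (O i)))) + enC6 par6 O +
        (∑ i, ∑ d, ES (obSr6 par6 (O i)) (TG (gP (T1H ep e1 m O E) g) d)) +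
        1 / 2 * (∑ d, ∑ d', ES (TG (gP (T1H ep e1 m O E) g) d) (TG (gP (T1H ep e1 m O E) g) d')) +
        (∑ i, seaG (sN m) (g i)) + cstF (T1H ep e1 m O E) g true * (Fil.xe m : ℕ) -
        b' / 2 * (sN m true + sN m false) + linH η η1 m g (T1H ep e1 m O E) H +
        (K0 + Kc * B0) * r + kap / 2 * win univ (fun i => ht (O i)) + C2 := by
    rw [h3, h5, h4, hC2]
    have h6 := (abs_le.1 hcr).2
    have h7 := (abs_le.1 hse).2
    have h8 : (∑ i, NUGC.PLX.oneH6 (inH η η1 m (T1H ep e1 m O E) b' g B1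
        (fun a t => H a t - srcP νs τs a t)) par6 O (crH η m) i) =
        ∑ i, (mfo6 (sN m) (parts6 par6 (O i)) -
          2 * Real.pi * wind6 (k6 (O i)) * crH η m (ht (O i))) := rfl
    rw [h8] at h2
    clear * - h2 h6 h7
    linarith
  have hS : SC G x ≤ (2 + CcF 2) * Real.exp (37 / 20 * x) := by
    have h1 : CcF G ≤ CcF 2 := by
      have h1 : (G : ℝ) ≤ (2 : ℕ) := by exact_mod_cast hG2
      unfold CcF
      exact Real.exp_le_exp.2 (mul_le_mul_of_nonneg_right h1 (NUSp.kfar_nonneg _ _))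
    unfold SC
    clear * - h1
    gcongr
  have hS0 : 0 ≤ SC G x := by
    unfold SC
    have := CcF_one G
    positivity
  have h9 := red_stepH6 (kap := kap) (KG := KG) (α := α) (x' := x) (Ψ := Ψ) (Y := Y)
    (by omega : 0 < m) hBn hcut.nn hDom hb2 hR hF hT0
    (I := addS (inH η η1 m (T1H ep e1 m O E) b' g B1 (fun a t => H a t - srcP νs τs a t)) νs τs ψ0)
    rfl (fun _ => rfl) (fun _ => rfl) (fun _ _ => rfl) pg6_par6 (fun a t => hI.eta_lt a t) hCst hS0 hS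
    hEnS h
  refine h9.trans (le_of_eq ?_)
  rw [show (Cst + 1) * (3 + CcF 2) * Real.exp (C2 + 7) =
    (Cst + 1) * ((3 + CcF 2) * Real.exp (C2 + 7)) by ring,
    show KG + (K0 + Kc * B0) + 2 = KG + (K0 + Kc * B0 + 2) by ring]

end PotH.PLX

end
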