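import Pool.Agent.PHK.PotH.InH

/-!
# TARGET-C with a real potential, six kinds: the field `shl`

* `exists_cfA`: the majorant of the cutoff of the rows with the far factor;
* `exists_shlH6`: the majorant `B1` of the cutoff, its sizes, and for every admissible curve, every
  family, every tilt, every potential, every configuration: `Shl`, with the size of the cutoff at the
  end of the window.
-/

set_option autoImplicit false
set_option linter.unusedSectionVars false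

open MeasureTheory Set Filter Topology
open PLX (Fil Ends)

namespace PotH.PLX

open NUMF
open NUO (Xo ht Tb TW excS)
open PHK
open NUSea.PLX.H0 (Inp Gd TG BF hfar aR datO6 DatC6 cstF Geo Shl)
open NUSp (DD kfar)
open NUGC (muS tauS)
open NUGC.PLX (pE qE CcF CcF_one SC chG gP FamOk)

noncomputable section

/-- the far factor decreases in the end of the window -/
theorem hfar_anti' {Cc T T1 x : ℝ} (hCc : 1 ≤ Cc) (hx : 0 ≤ x) (h : T ≤ T1) (t : ℝ) :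
    hfar Cc T1 x t ≤ hfar Cc T x t := by
  unfold hfar
  split_ifs with h1 h2 h2
  · exact le_rfl
  · have h3 : 0 ≤ min (|t| - T) x := le_min (by linarith) hx
    have h4 : 1 ≤ Real.exp (2 * min (|t| - T) x) := Real.one_le_exp (by linarith)
    nlinarith
  · exact absurd (h2.trans h) h1
  · have h3 : min (|t| - T1) x ≤ min (|t| - T) x := min_le_min (by linarith) le_rfl
    have h4 : 0 ≤ Cc := by linarith
    gcongr

variable [NUSea.Sea]

variable {G : ℕ}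

/-- decay constant of the cutoff with the far factor -/
def DH (ep e1 : ℝ) (m G : ℕ) (x : ℝ) : ℝ :=
  (2 + CcF G) * Real.exp (37 / 20 * x) * Real.exp (49 / 20 * TW ep e1 m)

theorem DH_nonneg (ep e1 : ℝ) (m G : ℕ) (x : ℝ) : 0 ≤ DH ep e1 m G x := by
  have := CcF_one G
  unfold DH
  positivity

theorem DH_eq (ep e1 : ℝ) (m G : ℕ) (x : ℝ) :
    DH ep e1 m G x * Real.exp (-(49 / 20 * TW ep e1 m)) = SC G x := by
  unfold DH SC
  rw [mul_assoc, ← Real.exp_add, add_neg_cancel, Real.exp_zero, mul_one]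

theorem DH_le (ep e1 : ℝ) (m G : ℕ) {T1 : ℝ} (x : ℝ) (h : TW ep e1 m ≤ T1) :
    DH ep e1 m G x * Real.exp (-(49 / 20 * T1)) ≤ SC G x := by
  rw [← DH_eq ep e1 m G x]
  exact mul_le_mul_of_nonneg_left (Real.exp_le_exp.2 (by linarith)) (DH_nonneg _ _ _ _ _)

/-- **the cutoff of the rows with the far factor** -/
theorem exists_cfA {Cc : ℝ} (hCc : 1 ≤ Cc) : ∃ W : ℝ, 1 ≤ W ∧ ∀ ep : ℝ, 0 < ep → ep ≤ 1 / 100 →
    ∀ C0 : ℝ, 1 ≤ C0 → ∃ C : ℝ, 1 ≤ C ∧ ∃ m0 : ℕ, 1 ≤ m0 ∧ ∀ (m : ℕ) (T1 : ℝ), m0 ≤ m →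
    (1 + 2 * ep) * (3 / 8 * Real.log m) ≤ T1 → ∀ (b : ℝ) (cr Bc Bc' : ℝ → ℝ),
    CutR ep C0 b m cr Bc Bc' →
    ∃ B B' : ℝ → ℝ, ContDiff ℝ 1 B ∧ (∀ t, HasDerivAt B (B' t) t) ∧ Continuous B' ∧ (∀ t, 0 ≤ B t) ∧
      (∀ t, B t ≤ W) ∧
      Integrable (fun t => (m : ℝ) * NUSea.P t * B t) ∧ (∫ t, (m : ℝ) * NUSea.P t * B t) ≤ C ∧
      Integrable (fun t => B t ^ 2 + B' t ^ 2) ∧ (∫ t, B t ^ 2 + B' t ^ 2) ≤ C ∧
      ∀ x : ℝ, 0 ≤ x → ∀ t,
        0 ≤ cr t * hfar Cc T1 x t ∧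
        cr t * hfar Cc T1 x t ≤ Real.exp (B t) ∧
        cr t * hfar Cc T1 x t ≤
          (2 + Cc) * Real.exp (37 / 20 * x) * Real.exp (49 / 20 * T1) *
            Real.exp (-(49 / 20) * |t|) := by
  obtain ⟨C2, hC2, hF⟩ := NUSea.PLX.H0.exists_far hCc
  refine ⟨1 + C2, by linarith, fun ep h0 h1 C0 hC0 => ?_⟩
  obtain ⟨m0, hm0, hnum⟩ := NUSea.PLX.H0.far_num (ep := ep) (C := C0) h0 h1
  refine ⟨2 * C0 + 2 * C2 + 1, by linarith, max ⌈max m0 (Real.exp 3)⌉₊ 1, le_max_right _ _, ?_⟩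
  intro m T1 hm hT1 bw cr B B' hcut
  have hmr : max m0 (Real.exp 3) ≤ m :=
    (Nat.le_ceil _).trans (by exact_mod_cast (le_max_left _ _).trans hm)
  have hmm : m0 ≤ (m : ℝ) := (le_max_left _ _).trans hmr
  have hL : 3 ≤ Real.log m := by
    have h2 := (le_max_right m0 (Real.exp 3)).trans hmr
    rw [Real.le_log_iff_exp_le (by linarith [Real.exp_pos 3])]
    exact h2
  have hT : 1 ≤ T1 := by nlinarith
  obtain ⟨n1, n2⟩ := hnum m m T1 hmm (Nat.cast_nonneg _) le_rfl hT1 (by linarith)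
  obtain ⟨b, b', k1, k2, k3, k4, k5, k6, k7, k8, k9, k10⟩ := hF T1 hT
  obtain ⟨k91, k92⟩ := k9 m (Nat.cast_nonneg _) n2
  have hb' : b' = deriv b := funext fun t => (k2 t).deriv.symm
  have hbc' : Continuous b' := by
    rw [hb']
    exact k1.continuous_deriv (by norm_num)
  have hBc : Continuous B := continuous_iff_continuousAt.2 fun t => (hcut.Bd t).continuousAt
  have hBC : ContDiff ℝ 1 B := by
    rw [contDiff_one_iff_deriv]
    refine ⟨fun t => (hcut.Bd t).differentiableAt, ?_⟩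
    have : deriv B = B' := funext fun t => (hcut.Bd t).deriv
    rw [this]
    exact hcut.Bcc
  have hsq : ∀ t, (B t + b t) ^ 2 + (B' t + b' t) ^ 2 ≤
      2 * (B t ^ 2 + B' t ^ 2) + 2 * (b t ^ 2 + b' t ^ 2) := fun t => by
    nlinarith [sq_nonneg (B t - b t), sq_nonneg (B' t - b' t)]
  have hI : Integrable fun t => 2 * (B t ^ 2 + B' t ^ 2) + 2 * (b t ^ 2 + b' t ^ 2) :=
    (hcut.EI.const_mul 2).add (k7.const_mul 2)
  have hcont : Continuous fun t => (B t + b t) ^ 2 + (B' t + b' t) ^ 2 :=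
    ((hBc.add k1.continuous).pow 2).add ((hcut.Bcc.add hbc').pow 2)
  have hI2 : Integrable fun t => (B t + b t) ^ 2 + (B' t + b' t) ^ 2 := by
    refine hI.mono' hcont.aestronglyMeasurable (ae_of_all _ fun t => ?_)
    rw [Real.norm_eq_abs, abs_of_nonneg (by positivity)]
    exact hsq t
  have hMP : (fun t => (m : ℝ) * NUSea.P t * (B t + b t)) =
      fun t => (m : ℝ) * NUSea.P t * B t + m * NUSea.P t * b t := funext fun t => by ring
  refine ⟨fun t => B t + b t, fun t => B' t + b' t, hBC.add (k1.of_le (by norm_num)),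
    fun t => (hcut.Bd t).add (k2 t),
    hcut.Bcc.add hbc', fun t => add_nonneg (hcut.B0 t) (k3 t), ?_, ?_, ?_, hI2, ?_, ?_⟩
  · intro t
    have e1 := hcut.B1 t
    have e2 := k4 t
    show B t + b t ≤ _
    linarith
  · rw [hMP]
    exact hcut.PI.add k91
  · rw [hMP, integral_add hcut.PI k91]
    have := hcut.PC
    linarith
  · calc ∫ t, (B t + b t) ^ 2 + (B' t + b' t) ^ 2 ≤
          ∫ t, (2 * (B t ^ 2 + B' t ^ 2) + 2 * (b t ^ 2 + b' t ^ 2)) := integral_mono hI2 hI hsq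
      _ = 2 * (∫ t, B t ^ 2 + B' t ^ 2) + 2 * ∫ t, b t ^ 2 + b' t ^ 2 := by
          rw [integral_add (hcut.EI.const_mul 2) (k7.const_mul 2), integral_const_mul,
            integral_const_mul]
      _ ≤ _ := by
          have := hcut.EC
          linarith
  · intro x hx t
    obtain ⟨e1, e2⟩ := k10 (cf := cr) (B := B) (a := 8 / 3 * (1 - ep))
      (D := C0 * m) (x := x) (by linarith) hx hcut.nn hcut.B0 hcut.le hcut.le2 hcut.dec n1 t
    exact ⟨mul_nonneg (hcut.nn t) (NUSea.PLX.H0.hfar_nonneg (by linarith) t), e1, e2⟩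

variable [Fil] [Ends]

/-- **the field `shl` of `DatGH6`** -/
theorem exists_shlH6 (G : ℕ) : ∃ W : ℝ, 1 ≤ W ∧ ∀ ep : ℝ, 0 < ep → ep ≤ 1 / 100 →
    ∀ e1 : ℝ, 0 < e1 → e1 ≤ 1 / 100 → ∀ C0 : ℝ, 1 ≤ C0 →
    ∃ C : ℝ, 1 ≤ C ∧ ∃ m0 : ℕ, 1 ≤ m0 ∧ ∀ m : ℕ, m0 ≤ m →
    0 ≤ TW ep e1 m ∧
    ∀ T1 : ℝ, TW ep e1 m ≤ T1 → ∀ (bw : ℝ) (cr Bc Bc' : ℝ → ℝ), CutR ep C0 bw m cr Bc Bc' →
    ∃ B B' : ℝ → ℝ, ContDiff ℝ 1 B ∧ (∀ t, HasDerivAt B (B' t) t) ∧ Continuous B' ∧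
      (∀ t, 0 ≤ B t) ∧ (∀ t, B t ≤ W) ∧
      Integrable (fun t => (m : ℝ) * NUSea.P t * B t) ∧ (∫ t, (m : ℝ) * NUSea.P t * B t) ≤ C ∧
      Integrable (fun t => B t ^ 2 + B' t ^ 2) ∧ (∫ t, B t ^ 2 + B' t ^ 2) ≤ C ∧
      ∀ (η η1 : ℝ → ℝ), (∀ t, HasDerivAt η (η1 t) t) → (∀ t, |η t| ≤ 1 / 40) →
        ∀ (x : ℝ) (g : Fin G → Gd), FamOk T1 x g → ∀ (b' : ℝ) (H H' : Bool → ℝ → ℝ),
        (∀ a t, HasDerivAt (H a) (H' a t) t) → ∀ (P : Par6) (r : ℕ) (O : Fin r → Xo)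
        (Cκ : ℝ), Geo (datO6 (inH η η1 m T1 b' g B H) P O) Cκ →
        Shl (datO6 (inH η η1 m T1 b' g B H) P O)
          (aR (datO6 (inH η η1 m T1 b' g B H) P O) (raH η T1 b' g H) true)
          (aR (datO6 (inH η η1 m T1 b' g B H) P O) (raH η T1 b' g H) false)
          (cfH cr G T1 x) B (DH ep e1 m G x) (49 / 20) := by
  obtain ⟨W, hW, HW⟩ := exists_cfA (CcF_one G)
  refine ⟨W, hW, fun ep h0 h1 e1 he he1 C0 hC0 => ?_⟩
  obtain ⟨C, hC, m0, hm0, HH⟩ := HW ep h0 h1 C0 hC0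
  refine ⟨C, hC, m0, hm0, fun m hm => ?_⟩
  have hm1 : (1 : ℝ) ≤ m := by exact_mod_cast hm0.trans hm
  have hlog : 0 ≤ Real.log m := Real.log_nonneg hm1
  have hTW0 : (1 + 2 * ep) * (3 / 8 * Real.log m) ≤ TW ep e1 m := by
    unfold TW Tb
    nlinarith
  have hTWn : 0 ≤ TW ep e1 m := by
    refine le_trans ?_ hTW0
    positivity
  have hl40 : (1 : ℝ) / 40 < NUMF.l / 5 := by
    unfold NUMF.l
    linarith [Real.pi_gt_d2]
  refine ⟨hTWn, fun T1 hT1 bw cr Bc Bc' hcut => ?_⟩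
  obtain ⟨B, B', g1, g2, g3, g4, g5, g8, g9, g10, g11, g12⟩ :=
    HH m T1 hm (hTW0.trans hT1) bw cr Bc Bc' hcut
  obtain ⟨_, _, _, _, _, _, _, _, _, _, _, g13⟩ := HH m (TW ep e1 m) hm hTW0 bw cr Bc Bc' hcut
  refine ⟨B, B', g1, g2, g3, g4, g5, g8, g9, g10, g11,
    fun η η1 hd hηε x g hF b' H H' hH P r O Cκ hG => ?_⟩
  have hmeas : Measurable (cfH cr G T1 x) := hcut.meas.mul (NUSea.PLX.H0.hfar_meas _ _ _)
  refine NUSea.PLX.H0.shl_gen hG (DH_nonneg _ _ _ _ _) (by norm_num) hmeas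
    g1.continuous.measurable (fun t => (g12 x hF.x0 t).1) g4 (fun t => (g12 x hF.x0 t).2.1)
    (fun t => ?_) (fun a => ?_) fun a t => ?_
  · exact (mul_le_mul_of_nonneg_left (hfar_anti' (CcF_one G) hF.x0 hT1 t) (hcut.nn t)).trans
      (g13 x hF.x0 t).2.2
  · have hdd : Continuous (BF T1 g (Fil.cv a η) a) :=
      continuous_iff_continuousAt.2 fun t => (NUSea.PLX.H0.hasDerivAt_BF g T1 a
        ((Fil.abs_cv_le_of (hηε t)).trans_lt hl40) (Fil.hasDerivAt_cv a (hd t))).continuousAt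
    have hHc : Continuous (H a) := continuous_iff_continuousAt.2 fun t => (hH a t).continuousAt
    exact ((hdd.add hHc).sub continuous_const).measurable
  · have h2 : (datO6 (inH η η1 m T1 b' g B H) P O).E a t =
        B t + BF T1 g (Fil.cv a η) a t + H a t - b' / 2 := rfl
    have h3 : raH η T1 b' g H a t = BF T1 g (Fil.cv a η) a t + H a t - b' / 2 := rfl
    rw [h2, h3]
    linarith

end

end PotH.PLX
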