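import Pool.Agent.PHK.PotH.Fx
import Pool.Agent.PHK.PotH.ShlH
import Pool.Agent.PHK.PotH.Gd

/-!
# TARGET-C with a real potential, six kinds: the data

* `neg_chgO6_le`, `nA6_le_add`: a hole is one quantum, `nA6 n O s ≤ n + r`;
* **`datGH6 : DatGH6`**: the data `inH` of every configuration satisfy the hypotheses of the gas bounds.
-/

set_option autoImplicit false
set_option linter.unusedSectionVars false

open MeasureTheory Set Filter Topology
open PLX (Fil Ends)

namespace PotH.PLX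

open NUO (Xo ht Tb TW excS)
open PHK
open NUSea.H0 NUSea.PLX.H0
open NUGC (muS tauS)
open NUGC.PLX (pE qE CcF SC chG gP FamOk)

noncomputable section

lemma neg_chg6_le (s : Bool) (x : Xo) : -chg6 s x ≤ 1 := by
  unfold chg6
  split <;> (try split_ifs) <;> norm_num

lemma neg_chgO6_le {r : ℕ} (O : Fin r → Xo) (s : Bool) : -chgO6 O s ≤ r := by
  unfold chgO6
  rw [← Finset.sum_neg_distrib]
  refine (Finset.sum_le_sum fun i _ => neg_chg6_le s (O i)).trans (le_of_eq ?_)
  rw [Finset.sum_const, Finset.card_univ, Fintype.card_fin, nsmul_eq_mul, mul_one]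

/-- a hole is one quantum -/
lemma nA6_le_add {r : ℕ} (n : ℕ) (O : Fin r → Xo) (s : Bool) : nA6 n O s ≤ n + r := by
  have h := neg_chgO6_le O s
  unfold nA6
  omega

variable [NUSea.Sea] [Fil] [Ends]

/-- **the data of every configuration, with a potential** -/
theorem datGH6 : DatGH6 := by
  intro G
  obtain ⟨W, hW, HS⟩ := exists_shlH6 G
  refine ⟨W, by linarith, fun ep hep hep1 e1 he he1 Cc C0 hCc hC0 B0 N0 hB0 hN0 => ?_⟩
  obtain ⟨C, hC, mS, -, HS⟩ := HS ep hep hep1 e1 he he1 C0 hC0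
  obtain ⟨k, κ, CB, hκ, hCB, HD⟩ := exists_datFxH6 G (W := W) (C := C) (by linarith) (by linarith)
    he he1 hCc hB0 hN0
  obtain ⟨K, hK, HG⟩ := exists_geo6
  have h5 := (tendsto_rpow_neg_atTop hκ).comp (tendsto_natCast_atTop_atTop (R := ℝ))
  have h6 := h5.eventually_le_const (show (0 : ℝ) < 1 / K by positivity)
  obtain ⟨mG, hmG⟩ := Filter.eventually_atTop.1 h6
  obtain ⟨mD, HGD⟩ := exists_gdH6 hep hep1 he he1 hκ G (k + 4) (by omega)
  refine ⟨k + 9, κ, CB, ep / 2, C, hκ, hCB, by linarith, by linarith, by linarith, fun ϑ hϑ => ?_⟩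
  obtain ⟨d, hd, mF, HD⟩ := HD ϑ hϑ
  have h4 := (Real.tendsto_log_atTop.comp tendsto_natCast_atTop_atTop).eventually_ge_atTop (1 : ℝ)
  obtain ⟨m3, hm3⟩ := Filter.eventually_atTop.1 h4
  refine ⟨min d 1, lt_min hd one_pos, max (max mS mG) (max mD (max mF m3)),
    fun m hm η η1 hcv cr Bc Bc' hcut b' hb T1 x g hT1 hF => ?_⟩
  have k1 : mS ≤ m := (le_max_left _ _).trans ((le_max_left _ _).trans hm)
  have k2 : mG ≤ m := (le_max_right _ _).trans ((le_max_left _ _).trans hm)
  have k3 : mD ≤ m := (le_max_left _ _).trans ((le_max_right _ _).trans hm)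
  have k4 : mF ≤ m := (le_max_left _ _).trans ((le_max_right _ _).trans
    ((le_max_right _ _).trans hm))
  have k5 : m3 ≤ m := (le_max_right _ _).trans ((le_max_right _ _).trans
    ((le_max_right _ _).trans hm))
  have hL : 1 ≤ Real.log m := hm3 m k5
  have hm1 : 1 ≤ m := by
    rcases Nat.eq_zero_or_pos m with h | h
    · rw [h, Nat.cast_zero, Real.log_zero] at hL
      linarith
    · exact h
  have hqo : (1 : ℝ) ≤ (Fil.qo : ℕ) := Fil.one_le_qor
  have hpow : ∀ i j : ℕ, i ≤ j → Real.log m ^ i ≤ Real.log m ^ j := fun i j hij =>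
    pow_le_pow_right₀ hL hij
  obtain ⟨hTW, HS⟩ := HS m k1
  obtain ⟨B, B', b1, b2, b3, b4, b5, b7, b8, b9, b10, HS⟩ := HS T1 hT1 _ cr Bc Bc' hcut
  refine ⟨B, b1, b4, b5, b7, b8,
    fun H H' hH nX nY hnX hnY hn r hr O hX hY hO => ?_⟩
  have hH' : HOk B0 N0 d ((1 - e1) * Tb (Real.log m)) (Real.log m ^ 3) H H' :=
    { d := hH.d
      c := hH.c
      le := hH.le
      en := fun a T hT => (hH.en a T hT).trans
        (by have := mul_le_mul_of_nonneg_right (min_le_left d 1) hT; (clear * - this; linarith))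
      ext := hH.ext }
  obtain ⟨f1, f2, f3, f4, f5, f6⟩ := HD m k4 η η1 hcv b' (hb.trans (min_le_left _ _)) T1 g
    (hTW.trans hT1) B B' b2 b3 b4 b5 b9 b10 H H' _ _ hH'
  obtain ⟨dl, ε, Mc, e, hI, hε, hMc, hdl⟩ := f1
  have hKe : K * ε ≤ 1 := by
    have h7 := hmG m k2
    simp only [Function.comp] at h7
    have h8 : ε ≤ 1 / K := hε.trans h7
    have hK0 : (0 : ℝ) < K := by (clear * - hep hep1 hK; linarith)
    rw [le_div_iff₀ hK0] at h8
    clear * - h8
    linarith
  have hG := HG (O := O) hI hKe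
  have hS := HS η η1 hcv.d (fun t => (hcv.le t).trans (by norm_num)) x g hF b' H H' hH.d
    par6 r O _ hG
  have hHc : ∀ a, Continuous (H a) := fun a =>
    continuous_iff_continuousAt.2 fun t => (hH.d a t).continuousAt
  have hm0 : (0 : ℝ) ≤ m := Nat.cast_nonneg m
  have hqm : (m : ℝ) ≤ (Fil.qo : ℕ) * m := by (clear * - hqo; nlinarith)
  have hnum : ∀ (n : ℕ) (s : Bool), n ≤ 8 * Fil.qo * m → ((nA6 n O s : ℕ) : ℝ) ≤
      64 * (Fil.qo : ℕ) * m := by
    intro n s hn'
    have h1 := nA6_le_add n O s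
    have h2 : (nA6 n O s : ℝ) ≤ n + r := by exact_mod_cast h1
    have h3 : (n : ℝ) ≤ 8 * (Fil.qo : ℕ) * m := by exact_mod_cast hn'
    have h4 : (r : ℝ) ≤ 32 * (Fil.qo : ℕ) * m := by exact_mod_cast hr
    clear * - hqm h2 h3 h4
    nlinarith
  refine ⟨DH ep e1 m G x, ?_, (DH_eq _ _ _ _ _).le, fun hg hr' hht => ?_⟩
  · exact
      { s1 := fun a => (by (clear * -; linarith) : (m : ℝ) / 2 ≤ m).trans (le_sN m a)
        s2 := fun a => (sN_le hm1 a).trans (mul_le_mul_of_nonneg_right (by (clear * - hep hep1 hqo; linarith)) hm0)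
        pk := hnum nX true hnX
        nk := hnum nY false hnY
        rk := by
          have h4 : (r : ℝ) ≤ 32 * (Fil.qo : ℕ) * m := by exact_mod_cast hr
          clear * - hqm h4
          nlinarith
        ok := ⟨dl, ε, Mc, e, hI, hε, hMc.trans (hpow _ _ (by omega)), hdl⟩
        fld := f2 nX nY hn r O hX hY
        shl := hS
        q1 := le_rfl
        tw := hO
        DS := DH_le _ _ _ _ x hT1
        gs := f3
        ν0 := fun a t => (f4 a t).trans (mul_le_mul_of_nonneg_left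
          (le_add_of_nonneg_right (NUH0.plt_nonneg _ _)) hCB)
        w0 := f5
        w1 := f6 }
  · exact HGD m k3 η η1 b' (hb.trans (min_le_right _ _)) T1 x g B H hHc (fun a => hH.ext a) cr
      hcut.ext r O hT1 hg hS.mc hS.c0 ⟨dl, ε, Mc, e, hI, hε, hMc.trans (hpow _ _ (by omega))⟩
      (by have : (0 : ℝ) ≤ G := Nat.cast_nonneg G; (clear * - hr'; linarith)) hht

end

end PotH.PLX
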