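import Pool.Agent.PLX.Ns
import Pool.Agent.PHK.PotH.ConfH6
import Pool.Agent.PHK.PotH.Gc
import Pool.Agent.PHK.H0.InstC
import Pool.Agent.PotH.MergeS

/-!
# The gas in the presence of objects, of at most two groups and of a real potential, six kinds

* `CrudeH6`, `SharpH6`: the crude and the sharp bound; `crudeH6`, `sharpH6`;
* **`s4H6 : S4H6`**: the two bounds together, exact linear term, full current on the objects.
-/

set_option autoImplicit false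
set_option linter.unusedSectionVars false

noncomputable section

open MeasureTheory Finset Filter Topology
open scoped ENNReal
open PLX (Fil Ends)

namespace PotH.PLX

open PHK
open NUGC.PLX (OB gP)
open NUO (Xo ht Tb TW excS)
open NUSea.PLX.H0 (Inp Gd)
open PBZ.PLX (Z1S6)

variable [NUSea.Sea] [Fil] [Ends]

/-! ### the crude and the sharp bound -/

lemma abs_pin_le_abs {T : ℝ} (hT : 0 ≤ T) (τ : ℝ) : |NUSp.pin T τ| ≤ |τ| := by
  rcases le_total |τ| T with h | h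
  · rw [NUSp.pin_of_le h]
  · exact (NUSp.abs_pin_le hT τ).trans h

/-- the right side is monotone in the constant and in the power -/
lemma rhsH_mono {m n : ℕ} (hm : 1 ≤ m) {g : Fin n → Gd} {E x C C' a a' z z' : ℝ} (hC : 0 ≤ C)
    (hCC : C ≤ C') (ha : a ≤ a') (hz : z ≤ z') :
    ENNReal.ofReal (prefH m g E x C * (m : ℝ) ^ a * Real.exp z) ≤
      ENNReal.ofReal (prefH m g E x C' * (m : ℝ) ^ a' * Real.exp z') := by
  have h1 : (1 : ℝ) ≤ (m : ℝ) := by exact_mod_cast hm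
  refine ENNReal.ofReal_le_ofReal ?_
  refine mul_le_mul (mul_le_mul (prefH_mono hCC) (Real.rpow_le_rpow_of_exponent_le h1 ha)
    (Real.rpow_nonneg (by linarith) _) (prefH_nonneg (hC.trans hCC))) (Real.exp_le_exp.2 hz)
    (Real.exp_pos _).le (mul_nonneg (prefH_nonneg (hC.trans hCC)) (Real.rpow_nonneg (by linarith) _))

/-- **the crude bound**: every number of objects, every height of objects and groups, every tilt -/
def CrudeH6 : Prop :=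
  ∀ B0 N0 : ℝ, 0 ≤ B0 → 0 ≤ N0 → ∃ K Ca : ℝ, 0 ≤ K ∧ 0 ≤ Ca ∧ ∀ kap : ℝ, 0 < kap →
    ∀ ep : ℝ, 0 < ep → ep ≤ 1 / 100 → ∀ e1 : ℝ, 0 < e1 → e1 ≤ 1 / 100 →
    ∀ Cc C0 : ℝ, 1 ≤ Cc → 1 ≤ C0 → ∀ δ : ℝ, 0 < δ →
    ∃ d Cst : ℝ, 0 < d ∧ 0 ≤ Cst ∧ ∃ m0 : ℕ, ∀ m : ℕ, m0 ≤ m →
    ∀ (n : ℕ) (η η1 cr Bc Bc' : ℝ → ℝ) (H H' : Bool → ℝ → ℝ) (B : OB) (g : Fin n → Gd),
    EnvH ep e1 Cc C0 B0 N0 d m η η1 cr Bc Bc' H H' B g →
    ∀ (aX aY : ℕ) (ν : ℝ) (N : ℕ) (b' : ℝ) (r : ℕ) (O : Fin r → Xo) (E x : ℝ), |b'| ≤ d →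
      RgH6 ep e1 m g aX aY ν N O E x →
      lhsH6 B m η η1 aX aY ν N b' O (fun _ => 1) ≤
        ENNReal.ofReal (prefH m g E x Cst * (m : ℝ) ^ (7 / 8 + Ca * (ep + e1) + δ) *
          Real.exp (confEH6 m η (TW ep e1 m) K kap O - 1 / 10 * excS (TW ep e1 m) O +
            linH η η1 m g (T1H ep e1 m O E) H +
            enH6 m g O (T1H ep e1 m O E) (nA6 (N + aX) O true) (nA6 (N + aY) O false)))

/-- **the sharp bound**: groups and objects at heights at most `(log m)^2`, at most `log m - 2`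
objects, `N` near `ν` -/
def SharpH6 : Prop :=
  ∀ B0 N0 : ℝ, 0 ≤ B0 → 0 ≤ N0 → ∃ K Ca : ℝ, 0 ≤ K ∧ 0 ≤ Ca ∧ ∀ kap : ℝ, 0 < kap →
    ∀ ep : ℝ, 0 < ep → ep ≤ 1 / 100 → ∀ e1 : ℝ, 0 < e1 → e1 ≤ 1 / 100 →
    ∀ Cc C0 : ℝ, 1 ≤ Cc → 1 ≤ C0 → ∀ δ : ℝ, 0 < δ →
    ∃ d Cst : ℝ, 0 < d ∧ 0 ≤ Cst ∧ ∃ m0 : ℕ, ∀ m : ℕ, m0 ≤ m →
    ∀ (n : ℕ) (η η1 cr Bc Bc' : ℝ → ℝ) (H H' : Bool → ℝ → ℝ) (B : OB) (g : Fin n → Gd),
    EnvH ep e1 Cc C0 B0 N0 d m η η1 cr Bc Bc' H H' B g →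
    ∀ (aX aY : ℕ) (ν : ℝ) (N : ℕ) (b' : ℝ) (r : ℕ) (O : Fin r → Xo) (E x : ℝ), |b'| ≤ d →
      RgH6 ep e1 m g aX aY ν N O E x →
      (∀ i, |(g i).τ| ≤ Real.log m ^ 2) → |ν - N| ≤ Real.log m ^ 3 → (r : ℝ) + 2 ≤ Real.log m →
      (∀ i, |ht (O i)| ≤ Real.log m ^ 2) →
      lhsH6 B m η η1 aX aY ν N b' O (fun _ => 1) ≤
        ENNReal.ofReal (prefH m g E x Cst * (m : ℝ) ^ (3 / 8 + Ca * (ep + e1) + δ) *
          Real.exp (confEH6 m η (TW ep e1 m) K kap O + linH η η1 m g (T1H ep e1 m O E) H +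
            enH6 m g O (T1H ep e1 m O E) (nA6 (N + aX) O true) (nA6 (N + aY) O false)))

/-- the constant of the numbers is at least one -/
lemma one_le_64qo : (1 : ℝ) ≤ 64 * ((Fil.qo : ℕ) : ℝ) := by
  have h : (1 : ℕ) ≤ Fil.qo := by
    have := Fil.one_le_q
    unfold Fil.qo
    omega
  have : (1 : ℝ) ≤ (Fil.qo : ℝ) := by exact_mod_cast h
  linarith

/-- three values of the number of groups, with a slope -/
lemma max3H {F : ℕ → ℝ → ℝ → ℕ → Prop}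
    (hF : ∀ G d d' C C' m m', F G d C m → d' ≤ d → C ≤ C' → m ≤ m' → F G d' C' m')
    (h : ∀ G ≤ 2, ∃ d C : ℝ, 0 < d ∧ 0 ≤ C ∧ ∃ m, F G d C m) :
    ∃ d C : ℝ, 0 < d ∧ 0 ≤ C ∧ ∃ m, ∀ G ≤ 2, F G d C m := by
  obtain ⟨d0, C0, a0, b0, m0, h0⟩ := h 0 (by norm_num)
  obtain ⟨d1, C1, a1, b1, m1, h1⟩ := h 1 (by norm_num)
  obtain ⟨d2, C2, a2, b2, m2, h2⟩ := h 2 (by norm_num)
  refine ⟨min d0 (min d1 d2), C0 + C1 + C2, lt_min a0 (lt_min a1 a2), by positivity,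
    max m0 (max m1 m2), ?_⟩
  intro G hG
  interval_cases G
  · exact hF _ _ _ _ _ _ _ h0 (min_le_left _ _) (by linarith) (le_max_left _ _)
  · exact hF _ _ _ _ _ _ _ h1 ((min_le_right _ _).trans (min_le_left _ _)) (by linarith)
      ((le_max_left _ _).trans (le_max_right _ _))
  · exact hF _ _ _ _ _ _ _ h2 ((min_le_right _ _).trans (min_le_right _ _)) (by linarith)
      ((le_max_right _ _).trans (le_max_right _ _))

/-- **the crude bound from the data** -/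
theorem crudeH_of6 (hD : DatGH6) : CrudeH6 := by
  intro B0 N0 hB0 hN0
  obtain ⟨KG, Ca, hKG, hCa, hG⟩ := NUSea.PLX.H0.crudeC6 par6_good.ok
  obtain ⟨KR, hKR, hC⟩ := exists_confH6 hD hB0 hN0
  refine ⟨KG + KR, Ca, by positivity, hCa, ?_⟩
  intro kap hkap ep hep hep1 e1 he he1 Cc C0 hCc hC0 δ hδ
  have key := max3H (F := fun G d C M0 => 0 ≤ C ∧ 1 ≤ M0 ∧ ∀ m : ℕ, M0 ≤ m →
    ∀ (η η1 cr Bc Bc' : ℝ → ℝ) (H H' : Bool → ℝ → ℝ) (B : OB) (g : Fin G → Gd),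
    EnvH ep e1 Cc C0 B0 N0 d m η η1 cr Bc Bc' H H' B g →
    ∀ (aX aY : ℕ) (ν : ℝ) (N : ℕ) (b' : ℝ) (r : ℕ) (O : Fin r → Xo) (E x : ℝ), |b'| ≤ d →
      RgH6 ep e1 m g aX aY ν N O E x →
      lhsH6 B m η η1 aX aY ν N b' O (fun _ => 1) ≤
        ENNReal.ofReal (prefH m g E x C * (m : ℝ) ^ (7 / 8 + Ca * (ep + e1) + δ) *
          Real.exp (confEH6 m η (TW ep e1 m) (KG + KR) kap O - 1 / 10 * excS (TW ep e1 m) O +
            linH η η1 m g (T1H ep e1 m O E) H +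
            enH6 m g O (T1H ep e1 m O E) (nA6 (N + aX) O true) (nA6 (N + aY) O false)))) ?_ ?_
  · obtain ⟨d, C, hd, hC, M0, H⟩ := key
    exact ⟨d, C, hd, hC, M0, fun m hm n η η1 cr Bc Bc' Hp Hp' B g hE aX aY ν N b' r O E x hb' hR =>
      (H n hR.n2).2.2 m hm η η1 cr Bc Bc' Hp Hp' B g hE aX aY ν N b' r O E x hb' hR⟩
  · rintro G d d' C C' m m' ⟨hC0', h1m, h⟩ hd hC hm
    refine ⟨hC0'.trans hC, h1m.trans hm, ?_⟩
    intro M hM η η1 cr Bc Bc' Hp Hp' B g hE aX aY ν N b' r O E x hb' hR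
    exact (h M (hm.trans hM) η η1 cr Bc Bc' Hp Hp' B g (hE.mono hd) aX aY ν N b' r O E x
      (hb'.trans hd) hR).trans (rhsH_mono (h1m.trans (hm.trans hM)) hC0' hC le_rfl le_rfl)
  · intro G hG2
    obtain ⟨k, κ, CB, w, hκ, hCB, hw, hw1, hC⟩ := hC G hG2 kap hkap ep hep hep1 e1 he he1 Cc C0 hCc hC0
    obtain ⟨ϑ, Cst, hϑ, hCst, m1, hG⟩ := hG (64 * (Fil.qo : ℕ)) one_le_64qo G (kap / 2) (by positivity)
      ep hep hep1 e1 he he1 δ hδ k κ CB hκ hCB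
    obtain ⟨d, CR, hd, hd1, hCR, m2, hC⟩ := hC ϑ hϑ
    refine ⟨d, (Cst + 1) * CR, hd, by positivity, max (max m1 m2) 1, by positivity,
      le_max_right _ _, ?_⟩
    intro m hm η η1 cr Bc Bc' Hp Hp' B g hE aX aY ν N b' r O E x hb' hR
    have hm1 : m1 ≤ m := ((le_max_left _ _).trans (le_max_left _ _)).trans hm
    have hm2 : m2 ≤ m := ((le_max_right _ _).trans (le_max_left _ _)).trans hm
    obtain ⟨I, B1, D, hc⟩ := hC m hm2 η η1 cr Bc Bc' Hp Hp' B g hE aX aY ν N b' r O E x hb' hR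
    have h1 := hG m hm1 _ r O _ _ _ _ _ _ _ _ _ _ _ hc.dat
    have h2 := hc.red KG Cst _ hCst (fun _ => 1) 1 (by
      simp only [mul_one]
      exact h1)
    rw [mul_one] at h2
    exact h2

/-- **the sharp bound from the data** -/
theorem sharpH_of6 (hD : DatGH6) : SharpH6 := by
  intro B0 N0 hB0 hN0
  obtain ⟨KG, Ca, hKG, hCa, hG⟩ := NUSea.PLX.H0.sharpC6 par6_good.ok
  obtain ⟨KR, hKR, hC⟩ := exists_confH6 hD hB0 hN0
  refine ⟨KG + KR, Ca, by positivity, hCa, ?_⟩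
  intro kap hkap ep hep hep1 e1 he he1 Cc C0 hCc hC0 δ hδ
  have key := max3H (F := fun G d C M0 => 0 ≤ C ∧ 1 ≤ M0 ∧ ∀ m : ℕ, M0 ≤ m →
    ∀ (η η1 cr Bc Bc' : ℝ → ℝ) (H H' : Bool → ℝ → ℝ) (B : OB) (g : Fin G → Gd),
    EnvH ep e1 Cc C0 B0 N0 d m η η1 cr Bc Bc' H H' B g →
    ∀ (aX aY : ℕ) (ν : ℝ) (N : ℕ) (b' : ℝ) (r : ℕ) (O : Fin r → Xo) (E x : ℝ), |b'| ≤ d →
      RgH6 ep e1 m g aX aY ν N O E x →
      (∀ i, |(g i).τ| ≤ Real.log m ^ 2) → (r : ℝ) + 2 ≤ Real.log m →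
      (∀ i, |ht (O i)| ≤ Real.log m ^ 2) →
      lhsH6 B m η η1 aX aY ν N b' O (fun _ => 1) ≤
        ENNReal.ofReal (prefH m g E x C * (m : ℝ) ^ (3 / 8 + Ca * (ep + e1) + δ) *
          Real.exp (confEH6 m η (TW ep e1 m) (KG + KR) kap O + linH η η1 m g (T1H ep e1 m O E) H +
            enH6 m g O (T1H ep e1 m O E) (nA6 (N + aX) O true) (nA6 (N + aY) O false)))) ?_ ?_
  · obtain ⟨d, C, hd, hC, M0, H⟩ := key
    exact ⟨d, C, hd, hC, M0, fun m hm n η η1 cr Bc Bc' Hp Hp' B g hE aX aY ν N b' r O E x hb' hR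
      hn _ hrL hht =>
      (H n hR.n2).2.2 m hm η η1 cr Bc Bc' Hp Hp' B g hE aX aY ν N b' r O E x hb' hR hn hrL hht⟩
  · rintro G d d' C C' m m' ⟨hC0', h1m, h⟩ hd hC hm
    refine ⟨hC0'.trans hC, h1m.trans hm, ?_⟩
    intro M hM η η1 cr Bc Bc' Hp Hp' B g hE aX aY ν N b' r O E x hb' hR hn hrL hht
    exact (h M (hm.trans hM) η η1 cr Bc Bc' Hp Hp' B g (hE.mono hd) aX aY ν N b' r O E x
      (hb'.trans hd) hR hn hrL hht).trans
        (rhsH_mono (h1m.trans (hm.trans hM)) hC0' hC le_rfl le_rfl)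
  · intro G hG2
    obtain ⟨k, κ, CB, w, hκ, hCB, hw, hw1, hC⟩ := hC G hG2 kap hkap ep hep hep1 e1 he he1 Cc C0 hCc hC0
    obtain ⟨ϑ, Cst, hϑ, hCst, m1, hG⟩ := hG (64 * (Fil.qo : ℕ)) one_le_64qo G (kap / 2) (by positivity)
      ep hep hep1 e1 he he1 δ hδ k κ CB w hκ hCB hw hw1
    obtain ⟨d, CR, hd, hd1, hCR, m2, hC⟩ := hC ϑ hϑ
    obtain ⟨m5, hm5⟩ := NUO.log_large 1
    refine ⟨d, (Cst + 1) * CR, hd, by positivity, max (max m1 m2) (max m5 1), by positivity,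
      (le_max_right _ _).trans (le_max_right _ _), ?_⟩
    intro m hm η η1 cr Bc Bc' Hp Hp' B g hE aX aY ν N b' r O E x hb' hR hn hrL hht
    have hm1 : m1 ≤ m := ((le_max_left _ _).trans (le_max_left _ _)).trans hm
    have hm2 : m2 ≤ m := ((le_max_right _ _).trans (le_max_left _ _)).trans hm
    have hm3 : m5 ≤ m := ((le_max_left _ _).trans (le_max_right _ _)).trans hm
    have hL1 : 1 ≤ Real.log m := hm5 m hm3
    obtain ⟨I, B1, D, hc⟩ := hC m hm2 η η1 cr Bc Bc' Hp Hp' B g hE aX aY ν N b' r O E x hb' hR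
    have hG2' : (G : ℝ) ≤ 2 := by exact_mod_cast hG2
    have hrG : (r : ℝ) + G ≤ Real.log m := by linarith
    have hgp : ∀ j, |(gP (T1H ep e1 m O E) g j).τ| ≤ Real.log m ^ 2 := by
      intro j
      show |NUSp.pin (T1H ep e1 m O E) (g j).τ| ≤ _
      exact (abs_pin_le_abs ((TW_nonneg hep he (by
        have := ((le_max_right m5 1).trans (le_max_right (max m1 m2) _)).trans hm
        omega)).trans (TW_le ep e1 m O hR.E0).1) _).trans (hn j)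
    have h1 := hG m hm1 _ r O _ _ _ _ _ _ _ _ _ _ _ hc.dat (hc.gd hn hrG hht) hrG hht hgp hc.dD
    have h2 := hc.red KG Cst _ hCst (fun _ => 1) 1 (by
      simp only [mul_one]
      exact h1)
    rw [mul_one] at h2
    have hexc := NUO.excS_nonneg (TW ep e1 m) O
    have h1m : 1 ≤ m := ((le_max_right m5 1).trans (le_max_right (max m1 m2) _)).trans hm
    exact h2.trans (rhsH_mono h1m (by positivity) le_rfl le_rfl (by linarith))

/-! ### the two bounds together -/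

/-- **the gas in the presence of the objects, of at most two groups and of a real potential** -/
def S4H6 : Prop :=
  ∀ B0 N0 : ℝ, 0 ≤ B0 → 0 ≤ N0 → ∃ K Ca : ℝ, 0 ≤ K ∧ 0 ≤ Ca ∧ ∀ kap : ℝ, 0 < kap →
    ∀ ep : ℝ, 0 < ep → ep ≤ 1 / 100 → ∀ e1 : ℝ, 0 < e1 → e1 ≤ 1 / 100 →
    ∀ Cc C0 : ℝ, 1 ≤ Cc → 1 ≤ C0 → ∀ δ : ℝ, 0 < δ →
    ∃ d Cst : ℝ, 0 < d ∧ 0 ≤ Cst ∧ ∃ m0 : ℕ, ∀ m : ℕ, m0 ≤ m →
    ∀ (n : ℕ) (η η1 cr Bc Bc' : ℝ → ℝ) (H H' : Bool → ℝ → ℝ) (B : OB) (g : Fin n → Gd),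
    EnvH ep e1 Cc C0 B0 N0 d m η η1 cr Bc Bc' H H' B g →
    ∀ (aX aY : ℕ) (ν : ℝ) (N : ℕ) (b' : ℝ) (r : ℕ) (O : Fin r → Xo) (E x : ℝ), |b'| ≤ d →
      RgH6 ep e1 m g aX aY ν N O E x →
      lhsH6 B m η η1 aX aY ν N b' O (fun _ => 1) ≤
        ENNReal.ofReal (prefH m g E x Cst * (m : ℝ) ^ (3 / 8 + Ca * (ep + e1) + δ) *
          (if ∀ i, |(g i).τ| ≤ Real.log m ^ 2 then 1 else Real.exp (Real.log m / 2)) *
          Real.exp (confEH6 m η (TW ep e1 m) K kap O + linH η η1 m g (T1H ep e1 m O E) H +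
            enH6 m g O (T1H ep e1 m O E) (nA6 (N + aX) O true) (nA6 (N + aY) O false)))

/-- **`S4H6` from the crude and the sharp bound** -/
theorem s4H_of6 (hC : CrudeH6) (hS : SharpH6) : S4H6 := by
  intro B0 N0 hB0 hN0
  obtain ⟨K1, Ca1, hK1, hCa1, hC⟩ := hC B0 N0 hB0 hN0
  obtain ⟨K2, Ca2, hK2, hCa2, hS⟩ := hS B0 N0 hB0 hN0
  refine ⟨max K1 K2 + 1 / 2, max Ca1 Ca2, by have := hK1.trans (le_max_left K1 K2); linarith,
    hCa1.trans (le_max_left _ _), ?_⟩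
  intro kap hkap ep hep hep' e1 he1 he1' Cc C0 hCc hC0 δ hδ
  obtain ⟨d1, Cst1, hd1, hCst1, m1, hC⟩ := hC kap hkap ep hep hep' e1 he1 he1' Cc C0 hCc hC0 δ hδ
  obtain ⟨d2, Cst2, hd2, hCst2, m2, hS⟩ := hS kap hkap ep hep hep' e1 he1 he1' Cc C0 hCc hC0 δ hδ
  set d : ℝ := min (d1 / 2) d2 with hd
  have hd0 : 0 < d := lt_min (by positivity) hd2
  have hdd1 : d ≤ d1 / 2 := min_le_left _ _
  have hdd2 : d ≤ d2 := min_le_right _ _
  obtain ⟨m3, hm3⟩ := NUO.log_large (max 30 (1 / d))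
  have hCm0 : 0 ≤ max Cst1 Cst2 := hCst1.trans (le_max_left _ _)
  refine ⟨d, max Cst1 Cst2 * Real.exp 1, hd0, by positivity, max (max m1 m2) (max m3 3), ?_⟩
  intro m hm n η η1 cr Bc Bc' Hp Hp' B g hEnv aX aY ν N b' r O E x hb' hR
  have hm1 : m1 ≤ m := ((le_max_left _ _).trans (le_max_left _ _)).trans hm
  have hm2 : m2 ≤ m := ((le_max_right _ _).trans (le_max_left _ _)).trans hm
  have hm3' : m3 ≤ m := ((le_max_left _ _).trans (le_max_right _ _)).trans hm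
  have hm4 : 3 ≤ m := ((le_max_right _ _).trans (le_max_right _ _)).trans hm
  obtain ⟨L, hL⟩ : ∃ L, L = Real.log m := ⟨_, rfl⟩
  have hL30 : 30 ≤ L := by rw [hL]; exact (le_max_left _ _).trans (hm3 m hm3')
  have hLd : 1 ≤ d * L := by
    have h := (le_max_right _ _).trans (hm3 m hm3')
    rw [div_le_iff₀ hd0, ← hL] at h
    linarith
  have hmR : (1 : ℝ) ≤ m := by
    have : 1 ≤ m := by omega
    exact_mod_cast this
  have hmpos : (0 : ℝ) < m := by linarith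
  obtain ⟨Xc, hXc⟩ : ∃ X, X = confEH6 m η (TW ep e1 m) (max K1 K2) kap O := ⟨_, rfl⟩
  obtain ⟨G, hG⟩ : ∃ G, G = linH η η1 m g (T1H ep e1 m O E) Hp +
    enH6 m g O (T1H ep e1 m O E) (nA6 (N + aX) O true) (nA6 (N + aY) O false) := ⟨_, rfl⟩
  obtain ⟨p, hp⟩ : ∃ p, p = 3 / 8 + max Ca1 Ca2 * (ep + e1) + δ := ⟨_, rfl⟩
  have hmp : (0 : ℝ) ≤ (m : ℝ) ^ p := Real.rpow_nonneg hmpos.le _
  have hpre0 : 0 ≤ prefH m g E x (max Cst1 Cst2) := prefH_nonneg hCm0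
  obtain ⟨F, hF⟩ : ∃ F : ℝ, F = if ∀ i, |(g i).τ| ≤ Real.log m ^ 2 then 1 else
    Real.exp (Real.log m / 2) := ⟨_, rfl⟩
  have hF1 : 1 ≤ F := by
    rw [hF]
    split_ifs
    · exact le_rfl
    · rw [Real.one_le_exp_iff, ← hL]
      linarith
  have hTWL : TW ep e1 m ≤ L := by
    unfold TW Tb
    rw [← hL]
    have : (1 + 2 * e1 + 2 * ep) ≤ 2 := by linarith
    nlinarith
  have hsh2 : (m : ℝ) ^ (3 / 8 + Ca2 * (ep + e1) + δ) ≤ (m : ℝ) ^ p := by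
    refine Real.rpow_le_rpow_of_exponent_le hmR ?_
    have : Ca2 * (ep + e1) ≤ max Ca1 Ca2 * (ep + e1) :=
      mul_le_mul_of_nonneg_right (le_max_right _ _) (by linarith)
    rw [hp]
    linarith
  have hcr2 : (m : ℝ) ^ (7 / 8 + Ca1 * (ep + e1) + δ) ≤ (m : ℝ) ^ p * Real.exp (1 / 2 * L) := by
    have h2 : Real.exp (1 / 2 * L) = (m : ℝ) ^ (1 / 2 : ℝ) := by
      rw [Real.rpow_def_of_pos hmpos, ← hL, mul_comm]
    rw [h2, ← Real.rpow_add hmpos]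
    refine Real.rpow_le_rpow_of_exponent_le hmR ?_
    have : Ca1 * (ep + e1) ≤ max Ca1 Ca2 * (ep + e1) :=
      mul_le_mul_of_nonneg_right (le_max_left _ _) (by linarith)
    rw [hp]
    linarith
  have hmerge := PBZ.merge_stat (L := L) (d := d) (A := 0) (D := 1)
    (B := prefH m g E x (max Cst1 Cst2) * (m : ℝ) ^ p) (X := Xc + G) (exc := excS (TW ep e1 m) O)
    (y := ν - N) (b' := b') (r := r) (near := ∀ i, |(g i).τ| ≤ Real.log m ^ 2)
    (hts := ∀ i, |ht (O i)| ≤ Real.log m ^ 2)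
    (Z := Z1S6 B par6 η η1 O (nA6 (N + aX) O true) (nA6 (N + aY) O false) fun _ => 1)
    (Zs := Z1S6 B par6 η η1 O (nA6 (N + aX) O true) (nA6 (N + aY) O false) fun _ => 1)
    (F := F) le_rfl (by linarith) hd0 (by linarith) le_rfl (mul_nonneg hpre0 hmp)
    (NUO.excS_nonneg _ _) hb' hF1 (fun hn => by
      rw [hF, if_neg hn, ← hL]
      exact Real.exp_le_exp.2 (by linarith))
    (by
      rw [zero_mul, Real.exp_zero, ENNReal.ofReal_one, one_mul])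
    (fun b'' hb'' => by
      have h := hC m hm1 n η η1 cr Bc Bc' Hp Hp' B g (hEnv.mono (by linarith)) aX aY ν N b'' r O E x
        (by linarith) hR
      refine h.trans (ENNReal.ofReal_le_ofReal ?_)
      have h3 : confEH6 m η (TW ep e1 m) K1 kap O ≤ Xc := by
        rw [hXc]
        exact confEH6_mono (le_max_left _ _) O
      calc prefH m g E x Cst1 * (m : ℝ) ^ (7 / 8 + Ca1 * (ep + e1) + δ) *
            Real.exp (confEH6 m η (TW ep e1 m) K1 kap O - 1 / 10 * excS (TW ep e1 m) O +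
              linH η η1 m g (T1H ep e1 m O E) Hp +
              enH6 m g O (T1H ep e1 m O E) (nA6 (N + aX) O true) (nA6 (N + aY) O false))
          ≤ prefH m g E x (max Cst1 Cst2) * ((m : ℝ) ^ p * Real.exp (1 / 2 * L)) *
            Real.exp (Xc + G - 1 / 10 * excS (TW ep e1 m) O) := by
            refine mul_le_mul (mul_le_mul (prefH_mono (le_max_left _ _)) hcr2
              (Real.rpow_nonneg hmpos.le _) hpre0)
              (Real.exp_le_exp.2 (by rw [hG]; linarith)) (Real.exp_pos _).le ?_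
            exact mul_nonneg hpre0 (mul_nonneg hmp (Real.exp_pos _).le)
        _ = prefH m g E x (max Cst1 Cst2) * (m : ℝ) ^ p *
            Real.exp (1 / 2 * L + (Xc + G) - 1 / 10 * excS (TW ep e1 m) O) := by
            rw [show 1 / 2 * L + (Xc + G) - 1 / 10 * excS (TW ep e1 m) O = 1 / 2 * L +
              (Xc + G - 1 / 10 * excS (TW ep e1 m) O) by ring, Real.exp_add (1 / 2 * L)]
            ring)
    (fun hn hrL hy hh => by
      have h := hS m hm2 n η η1 cr Bc Bc' Hp Hp' B g (hEnv.mono hdd2) aX aY ν N b' r O E x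
        (by linarith) hR hn (by rw [← hL]; exact hy) (by rw [← hL]; exact hrL) hh
      refine h.trans (ENNReal.ofReal_le_ofReal ?_)
      have h3 : confEH6 m η (TW ep e1 m) K2 kap O ≤ Xc := by
        rw [hXc]
        exact confEH6_mono (le_max_right _ _) O
      rw [one_mul]
      refine mul_le_mul (mul_le_mul (prefH_mono (le_max_right _ _)) hsh2
        (Real.rpow_nonneg hmpos.le _) hpre0)
        (Real.exp_le_exp.2 (by rw [hG]; linarith)) (Real.exp_pos _).le (mul_nonneg hpre0 hmp))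
    (fun hh => by
      push Not at hh
      obtain ⟨i, hi⟩ := hh
      have h1 := NUO.excS_ge (TW ep e1 m) O i
      rw [← hL] at hi
      linarith)
  unfold lhsH6
  refine hmerge.trans (ENNReal.ofReal_le_ofReal (le_of_eq ?_))
  rw [confEH6_add, ← hXc, ← hF, ← hp, prefH_mul]
  rw [show Xc + 1 / 2 * (r : ℝ) + linH η η1 m g (T1H ep e1 m O E) Hp +
    enH6 m g O (T1H ep e1 m O E) (nA6 (N + aX) O true) (nA6 (N + aY) O false) =
    Xc + G + (0 + 1 / 2) * (r : ℝ) by rw [hG]; ring,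
    show (2 : ℝ) * 0 + 1 = 1 by norm_num]
  ring

/-- **the crude bound** -/
theorem crudeH6 : CrudeH6 := crudeH_of6 datGH6

/-- **the sharp bound** -/
theorem sharpH6 : SharpH6 := sharpH_of6 datGH6

/-- **the gas in the presence of the objects, of at most two groups and of a real potential** -/
theorem s4H6 : S4H6 := s4H_of6 crudeH6 sharpH6

end PotH.PLX

end
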