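import Pool.Agent.PLX.PotH.Crv
import Pool.Agent.PHK.H0.GasC
import Pool.Agent.PLX.NUSea.H0.ShlC
import Pool.Agent.PLX.NUSea.H0.PinF
import Pool.Agent.PLX.NUGC.InC

/-!
# TARGET-C with a real potential: the data (definitions), two numbers of rows, six kinds

An additional bounded real potential `H a t` (species `a`, height `t`) in the one body factors, for an
abstract curve `η` (species `a`: `Fil.cv a η`), an abstract cutoff of the rows `cr` (an upper bound for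
both species), every effective number of rows `m` (species `a`: `sN m a`).

* `HOk`: admissible potentials; `CrvP`: admissible curves; `CutR`: admissible cutoffs of the rows;
* `inH`, `raH`, `cfH`: extra data, real rest, cutoff (no kinds); `aCH6`: species factor;
* `DatGH6`: the data of every configuration, parameters `par6`.
-/

set_option autoImplicit false
set_option linter.unusedSectionVars false

noncomputable section

open MeasureTheory Finset Filter Topology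
open PLX (Fil Ends)

namespace PotH.PLX

open NUO (Xo ht Tb TW excS)
open PHK (par6 chgO6 nA6)
open NUSea.PLX.H0 (Inp Gd TG BF hfar aR datO6 DatC6)
open NUGC (muS tauS)
open NUGC.PLX (pE qE CcF SC chG gP FamOk)

variable [NUSea.Sea] [Fil] [Ends]

/-- **the extra data**: row numbers `sN m a`, curves `Fil.cv a η`, groups at the pinned heights, `B1`
the majorant of the cutoff, `H` the potential, `b'` the tilt -/
def inH (η η1 : ℝ → ℝ) (m : ℕ) (T1 b' : ℝ) {G : ℕ} (g : Fin G → Gd) (B1 : ℝ → ℝ)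
    (H : Bool → ℝ → ℝ) : Inp where
  s := sN m
  η a := Fil.cv a η
  η1 a := Fil.cv a η1
  A a z := NUSp.DD pE qE (List.ofFn fun i => (gP T1 g i).G) a z
  B a t := B1 t + BF T1 g (Fil.cv a η) a t + H a t - b' / 2
  ν := muS (TG (gP T1 g))
  τD := tauS (TG (gP T1 g))

/-- the real rest of the one body factor -/
def raH (η : ℝ → ℝ) (T1 b' : ℝ) {G : ℕ} (g : Fin G → Gd) (H : Bool → ℝ → ℝ) (a : Bool) (t : ℝ) : ℝ :=
  BF T1 g (Fil.cv a η) a t + H a t - b' / 2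

/-- the cutoff factor: cutoff of the rows `cr`, far factor of the groups -/
def cfH (cr : ℝ → ℝ) (G : ℕ) (T1 x : ℝ) (t : ℝ) : ℝ := cr t * hfar (CcF G) T1 x t

/-- the species factor of the one body factors of a configuration -/
def aCH6 (η η1 : ℝ → ℝ) (m : ℕ) (T1 b' : ℝ) {G : ℕ} (g : Fin G → Gd) (B1 : ℝ → ℝ)
    (H : Bool → ℝ → ℝ) {r : ℕ} (O : Fin r → Xo) (a : Bool) (t : ℝ) : ℝ :=
  aR (datO6 (inH η η1 m T1 b' g B1 H) par6 O) (raH η T1 b' g H) a t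

/-- **the data of every configuration, with a potential.**  `W` is absolute; the cutoff is bounded at
the end of the window `TW` for every excess `x`; groups and objects at heights at most `(log m)²`: the
one body factors in the bulk. -/
def DatGH6 : Prop :=
  ∀ G : ℕ, ∃ W : ℝ, 0 ≤ W ∧ ∀ ep : ℝ, 0 < ep → ep ≤ 1 / 100 → ∀ e1 : ℝ, 0 < e1 → e1 ≤ 1 / 100 →
    ∀ Cc C0 : ℝ, 1 ≤ Cc → 1 ≤ C0 → ∀ B0 N0 : ℝ, 0 ≤ B0 → 0 ≤ N0 →
    ∃ (k : ℕ) (κ CB w C : ℝ), 0 < κ ∧ 0 ≤ CB ∧ 0 < w ∧ w ≤ 1 / 10 ∧ 0 ≤ C ∧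
    ∀ ϑ : ℝ, 0 < ϑ → ∃ d : ℝ, 0 < d ∧ ∃ m0 : ℕ, ∀ m : ℕ, m0 ≤ m →
    ∀ η η1 : ℝ → ℝ, CrvP e1 Cc m η η1 →
    ∀ cr Bc Bc' : ℝ → ℝ, CutR ep C0 ((1 - e1) * Tb (Real.log m)) m cr Bc Bc' →
    ∀ b' : ℝ, |b'| ≤ d → ∀ (T1 x : ℝ) (g : Fin G → Gd), TW ep e1 m ≤ T1 → FamOk T1 x g →
    ∃ B1 : ℝ → ℝ, ContDiff ℝ 1 B1 ∧ (∀ t, 0 ≤ B1 t) ∧ (∀ t, B1 t ≤ W) ∧
      Integrable (fun t => (m : ℝ) * NUSea.P t * B1 t) ∧ (∫ t, (m : ℝ) * NUSea.P t * B1 t) ≤ C ∧
    ∀ H H' : Bool → ℝ → ℝ, HOk B0 N0 d ((1 - e1) * Tb (Real.log m)) (Real.log m ^ 3) H H' →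
    ∀ nX nY : ℕ, nX ≤ 8 * Fil.qo * m → nY ≤ 8 * Fil.qo * m →
      (nX : ℝ) + (Fil.xe m : ℕ) - nY = -chG g →
    ∀ r : ℕ, r ≤ 32 * Fil.qo * m → ∀ O : Fin r → Xo, chgO6 O true ≤ nX → chgO6 O false ≤ nY →
      TW ep e1 m + excS (TW ep e1 m) O ≤ T1 →
    ∃ D : ℝ, DatC6 ep e1 κ CB ϑ (64 * (Fil.qo : ℕ)) k m (inH η η1 m T1 b' g B1 H) par6 O
        (fun i => (gP T1 g i).τ) (nA6 nX O true) (nA6 nY O false)
        (aCH6 η η1 m T1 b' g B1 H O true) (aCH6 η η1 m T1 b' g B1 H O false)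
        (cfH cr G T1 x) B1 T1 D (49 / 20) (SC G x) ∧
      D * Real.exp (-(49 / 20 * TW ep e1 m)) ≤ SC G x ∧
      ((∀ i, |(g i).τ| ≤ Real.log m ^ 2) → (r : ℝ) + G ≤ Real.log m →
        (∀ i, |ht (O i)| ≤ Real.log m ^ 2) →
        NUS4C.PLX.GD m k κ e1 w (sN m) (2 * Real.log m ^ 2) ((1 - e1) * Tb (Real.log m))
          (Fil.cv true η) (Fil.cv true η1) (Fil.cv false η) (Fil.cv false η1)
          (fun t => aCH6 η η1 m T1 b' g B1 H O true t * cfH cr G T1 x t)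
          (fun t => aCH6 η η1 m T1 b' g B1 H O false t * cfH cr G T1 x t))

end PotH.PLX

end
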