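import Pool.Agent.PHK.ExpC
import Pool.Agent.PLX.NUGC.ExpS
import Pool.Agent.PLX.NUGC.LinT
import Pool.Agent.PHK.H0.SpG
import Pool.Agent.PHK.PotH.InH

/-!
# The exponent of a configuration of the six kinds with groups and a real potential

The linear term of the ends and of the groups, the energy of the current and the full current on the
objects are kept exactly.  The current is that of the first species.

* `exists_enD6`: the exact linear term, ends at any height;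
* `exists_enSX6`: families `g : Fin n → Gd`, `n ≤ 2`;
* `crH`, `phG`, `linH`: current, phase of a group, exact linear term;
* `seaLin_abs`: sea terms of the pinned groups, remainders and constants against the true heights;
* **`exists_enH6`**: the exponent of the data `inH`.
-/

set_option autoImplicit false
set_option linter.unusedSectionVars false

noncomputable section

open MeasureTheory Finset Filter Topology
open PLX (Fil Ends)

namespace PotH.PLX

open NUGC NUGC.PLX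
open NUO (Xo ht sp Tb TW)
open PHK
open NUDispW (win)
open NUMF (l l_pos)
open NUSea (P)
open NUSea.PLX (Cur hd)
open NUSea.PLX.H0 (Inp IOk6 datO6 wO Gd TG SpI BF BF1)

variable [NUSea.Sea]

/-- **the exponent of a configuration with ends and groups**, exact linear term and energy of the
current -/
theorem exists_enD6 {Q : Par6} (hP : Ok6 Q) (hPG : PG6 (1 / 64) Q) {W : ℝ} (hW : 0 ≤ W) : ∃ K0 : ℝ, 0 ≤ K0 ∧ ∀ kap : ℝ, 0 < kap → ∀ κ CB : ℝ, 0 < κ →
    0 ≤ CB → ∀ k : ℕ, ∀ δ0 N : ℝ, 1 / 10 < δ0 → δ0 ≤ 1 → 2 ≤ N → ∀ n : ℕ,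
    ∃ (Cc : ℝ) (m0 : ℕ), ∀ m ≥ m0, ∀ e1 : ℝ, 0 < e1 → e1 ≤ 1 / 100 →
    ∀ (I : Inp) (r : ℕ) (O : Fin r → Xo) (ι : Type) [Fintype ι] (T : ι → Sr),
    EnOk6 e1 κ W CB k m I Q O T → (∀ t t', |curI I t - curI I t'| ≤ |t - t'|) →
    ∀ (p q : ℂ) (G : Fin n → NUSp.Grp) (τ : Fin n → ℝ),
      NUO.Away δ0 p → NUO.Away δ0 q → q.im = p.im → |p.re| < l → |q.re| < l →
      (∀ i, (G i).Ok δ0 (τ i)) → (∀ i, NUSp.gn (G i) ≤ N) →
      (∀ a z, |z.im| < l / 10 → I.A a z = ∑ i, NUSea.PLX.H0.fD p q G i a z) →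
      (datO6 I Q O).En ≤ (∑ i, oneH6 I Q O (curI I) i) + enC6 Q O +
        (∑ i, ∑ d, ES (obSr6 Q (O i)) (T d)) + 1 / 2 * (∑ d, ∑ d', ES (T d) (T d')) +
        (∫ t : ℝ, P t * (I.s true * (I.A true t).re + I.s false * (I.A false t).re)) +
        (∑ a, ∫ t, I.s a * P t * I.B a t) -
        2 * (12 * l * curI I p.im + ∑ i, (NUSp.gph true (G i) + NUSp.gph false (G i)) *
          curI I (τ i)) + NUCR.bil (hd (I.s true) (I.η true) (I.η1 true))
            (hd (I.s true) (I.η true) (I.η1 true)) +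
        K0 * r + kap * win univ (fun i => ht (O i)) + Cc := by
  obtain ⟨K0, hK0, H⟩ := exists_enG6 hP hPG hW
  refine ⟨K0, hK0, ?_⟩
  intro kap hkap κ CB hκ hCB k δ0 N hδ hδ1 hN n
  have hsz := szD_nonneg hδ hδ1 (by linarith : 0 ≤ N) n
  obtain ⟨Cc, m0, H⟩ := H kap hkap κ (max CB (szD δ0 N n)) hκ (hCB.trans (le_max_left _ _)) k
  refine ⟨Cc, m0, ?_⟩
  intro m hm e1 he1 he1' I r O ι _ T hE hL p q G τ hp hq him hpl hql hG hn hA
  have hE' : EnOk6 e1 κ W (max CB (szD δ0 N n)) k m I Q O T :=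
    { hE with mass := fun a => (hE.mass a).trans (le_max_left _ _) }
  have hgr := grOk_D hδ hδ1 hp hq him hG hN hn hA
  have hgr' : GrOk (max CB (szD δ0 N n)) I (kD δ0 (l / 10) G) (fun _ => 0) (φD p q G)
      (NUSea.PLX.H0.hD p τ) (ΨD p q G) :=
    { hgr with
      size := hgr.size.trans (le_max_right _ _)
      lip := fun c z w hz hw => (hgr.lip c z w hz hw).trans
        (mul_le_mul_of_nonneg_right (le_max_right _ _) (by positivity)) }
  have h1 := H m hm e1 he1 he1' I r O ι T hE' hL _ _ _ _ _ _ hgr'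
  have e1' : (∑ d, φD p q G d * curI I (NUSea.PLX.H0.hD p τ d)) =
      12 * l * curI I p.im + ∑ i, (NUSp.gph true (G i) + NUSp.gph false (G i)) * curI I (τ i) := by
    rw [Fintype.sum_option, φD_none hpl hql]
    rfl
  rw [e1'] at h1
  exact h1

/-- symmetric energies with the objects of the six kinds -/
theorem TG_sym6 {Q : Par6} (hP : Ok6 Q) {n : ℕ} (g : Fin n → Gd) {r : ℕ} (O : Fin r → Xo) (i : Fin r)
    (x : NUSea.PLX.H0.IG g) : Sym (obSr6 Q (O i)) (TG g x) := by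
  obtain ⟨α, hα⟩ := (((NUSp.kG (g x.1).c (g x.1).rt).get x.2).2).chg
  exact NUSea.PLX.H0.sym_ob6 hP hα (O i) _ _

/-- **the exponent of a configuration with at most two groups of spectators**, exact linear term -/
theorem exists_enSX6 {Q : Par6} (hP : Ok6 Q) (hPG : PG6 (1 / 64) Q) {WB : ℝ} (hWB : 0 ≤ WB) : ∃ K0 : ℝ, 0 ≤ K0 ∧ ∀ kap : ℝ, 0 < kap →
    ∀ κ : ℝ, 0 < κ → ∀ k : ℕ, ∃ (Cc : ℝ) (m0 : ℕ), ∀ m ≥ m0, ∀ e1 : ℝ, 0 < e1 → e1 ≤ 1 / 100 →
    ∀ n : ℕ, n ≤ 2 → ∀ (g : Fin n → Gd) (p q : ℂ) (I : Inp) (B' : Bool → ℝ → ℝ),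
    SpI p q g I B' → (∀ a t, |I.B a t| ≤ WB) → (∀ t t', |curI I t - curI I t'| ≤ |t - t'|) →
    ∀ (r : ℕ) (O : Fin r → Xo),
    (∃ (dl ε M : ℝ) (e : ℝ → ℝ), IOk6 dl ε M ((1 - e1) * Tb (Real.log m)) e I Q ∧
      ε ≤ (m : ℝ) ^ (-κ) ∧ M ≤ Real.log m ^ k ∧ dl ≤ 3 * (m : ℝ) ^ (-κ)) →
      (datO6 I Q O).En ≤ (∑ i, oneH6 I Q O (curI I) i) + enC6 Q O +
        (∑ i, ∑ d, ES (obSr6 Q (O i)) (TG g d)) +
        1 / 2 * (∑ d, ∑ d', ES (TG g d) (TG g d')) +
        (∑ i, seaG I.s (g i)) + (∑ a, ∫ t, I.s a * P t * I.B a t) -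
        2 * (12 * l * curI I p.im + ∑ i, (NUSp.gph true (g i).G + NUSp.gph false (g i).G) *
          curI I (g i).τ) + NUCR.bil (hd (I.s true) (I.η true) (I.η1 true))
            (hd (I.s true) (I.η true) (I.η1 true)) +
        K0 * r + kap * win univ (fun i => ht (O i)) + Cc := by
  obtain ⟨K0, hK0, H⟩ := exists_enD6 hP hPG (W := WB + 1) (by linarith)
  obtain ⟨K, hK, HS⟩ := NUSea.PLX.H0.exists_spG6
  refine ⟨K0, hK0, ?_⟩
  intro kap hkap κ hκ k
  have H := fun n => H kap hkap κ (2 * K) hκ (by linarith) k (1 / 4) 15 (by norm_num) (by norm_num)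
    (by norm_num) n
  choose Cc m0 H using H
  obtain ⟨m1, hm1⟩ := polylogC (3 * K) 0 hκ one_pos
  refine ⟨|Cc 0| + |Cc 1| + |Cc 2|, max m1 (max (m0 0) (max (m0 1) (m0 2))), ?_⟩
  intro m hm e1 he1 he1' n hn g p q I B' hS hB hL r O hok
  simp only [ge_iff_le, max_le_iff] at hm
  obtain ⟨g1, g2, g3, g4⟩ := hm
  have hmn : m0 n ≤ m := by interval_cases n <;> assumption
  have hCn : Cc n ≤ |Cc 0| + |Cc 1| + |Cc 2| := by
    have a0 := abs_nonneg (Cc 0)
    have a1 := abs_nonneg (Cc 1)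
    have a2 := abs_nonneg (Cc 2)
    have b0 := le_abs_self (Cc 0)
    have b1 := le_abs_self (Cc 1)
    have b2 := le_abs_self (Cc 2)
    interval_cases n <;> linarith
  have hmk := hm1 m g1
  rw [pow_zero, mul_one] at hmk
  obtain ⟨dl, ε, M, e, hI, hε, hM, hdl⟩ := hok
  obtain ⟨w0, -, -, -, w4, -⟩ := HS n g p q I B' hS ε M ((1 - e1) * Tb (Real.log m)) e hI.cur
    hI.der hI.ε1
  have hn2 : (n : ℝ) ≤ 2 := by exact_mod_cast hn
  have hn0 : (0 : ℝ) ≤ n := Nat.cast_nonneg n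
  have hε0 : 0 ≤ ε := hI.eps0
  have hwO : ∀ a t, |wO I a t| ≤ WB + 1 := by
    intro a t
    refine (w0 a t).trans (add_le_add (hB a t) ?_)
    calc K * (n + 1) * ε ≤ K * (2 + 1) * (m : ℝ) ^ (-κ) := by
          have hK0' : 0 ≤ K := by linarith
          gcongr
      _ = 3 * K * (m : ℝ) ^ (-κ) := by ring
      _ ≤ 1 := hmk
  have hE : EnOk6 e1 κ (WB + 1) (2 * K) k m I Q O (TG g) :=
    { ok := ⟨dl, ε, M, e, hI, hε, hM, hdl⟩
      Tok := NUSea.PLX.H0.TG_ok g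
      sy := fun i d => TG_sym6 hP g O i d
      nu := fun a => by rw [hS.ν]
      tau := hS.τ
      mass := fun a => (w4 a).trans (by nlinarith)
      w0 := hwO }
  have hl := l_pos
  have h1 := H n m hmn e1 he1 he1' I r O _ (TG g) hE hL p q (fun i => (g i).G)
    (fun i => (g i).τ) (NUSea.PLX.H0.away_p hS.hp) (NUSea.PLX.H0.away_q hS.hq) hS.him
    (by rw [hS.hp, abs_neg, abs_of_pos (by positivity)]; linarith)
    (by rw [hS.hq, abs_of_pos (by positivity)]; linarith)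
    (fun i => (g i).ok) (fun i => NUSp.gn_grp _ _ _)
    (fun a z _ => by rw [hS.A, NUSea.PLX.H0.sum_fD])
  rw [sea_fam hS] at h1
  linarith

/-! ### the exact linear term -/

/-- the current of a curve -/
def crH (η : ℝ → ℝ) (m : ℕ) (t : ℝ) : ℝ := (m : ℝ) * P t * η t

/-- the phase of a group, both species -/
def phG (g : Gd) : ℝ := NUSp.gph true g.G + NUSp.gph false g.G

/-- the phase does not depend on the height -/
theorem phG_pin (T : ℝ) (g : Gd) : phG (g.pin T) = phG g := by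
  have hre : (g.pin T).w.re = g.w.re := by
    show (NUSp.wG g.c g.rt (NUSp.pin T g.τ)).re = (NUSp.wG g.c g.rt g.τ).re
    unfold NUSp.wG NUP1.vl
    simp
  have hyw : ∀ (k : ℤ) (w w' : ℂ), w.re = w'.re → NUO.yw w k = NUO.yw w' k := by
    intro k w w' h
    unfold NUO.yw
    rw [h]
  have hwph : ∀ (L : List (ℤ × ℝ)) (w w' : ℂ), w.re = w'.re → NUSp.wph L w = NUSp.wph L w' := by
    intro L w w' h
    unfold NUSp.wph
    congr 1
    refine List.map_congr_left fun x _ => ?_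
    rw [hyw x.1 w w' h]
  have h : ∀ s : Bool, NUSp.gph s (g.pin T).G = NUSp.gph s g.G := by
    intro s
    show NUSp.gph s (NUSp.grp g.c g.σ (g.pin T).w) = NUSp.gph s (NUSp.grp g.c g.σ g.w)
    unfold NUSp.gph NUSp.grp
    cases g.c <;> simp [hwph _ _ _ hre, hwph _ ((g.pin T).w + 3 * (l : ℂ)) (g.w + 3 * (l : ℂ))
      (by simp [hre]), hwph _ ((g.pin T).w - 2 * (l : ℂ)) (g.w - 2 * (l : ℂ)) (by simp [hre])]
  unfold phG
  rw [h, h]

section
variable [Fil] [Ends]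

/-- **the exact linear term**: energy of the current, ends at height `0`, groups pinned at `T1`,
potentials against the sea -/
def linH (η η1 : ℝ → ℝ) (m : ℕ) {n : ℕ} (g : Fin n → Gd) (T1 : ℝ) (H : Bool → ℝ → ℝ) : ℝ :=
  NUCR.bil (hd m η η1) (hd m η η1) - 24 * l * crH η m 0 -
    2 * (∑ i, phG (g i) * crH η m (NUSp.pin T1 (g i).τ)) +
    ∑ a, ∫ t, sN m a * P t * H a t

/-! ### the sea terms of the groups -/

/-- the sea term of a family, species by species -/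
theorem sum_seaG (s : Bool → ℝ) {n : ℕ} (g : Fin n → Gd) :
    ∑ a, ∫ t : ℝ, s a * P t * ∑ i, (NUSp.gp a (g i).G t).re = ∑ i, seaG s (g i) := by
  have e1 : ∀ a, (∫ t : ℝ, s a * P t * ∑ i, (NUSp.gp a (g i).G t).re) =
      ∑ i, ∫ t : ℝ, s a * (P t * (NUSp.gp a (g i).G t).re) := by
    intro a
    rw [← integral_finsetSum _ fun i _ => (sea_int a (g i)).const_mul (s a)]
    refine integral_congr_ae (ae_of_all _ fun t => ?_)
    simp only
    rw [Finset.mul_sum]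
    exact Finset.sum_congr rfl fun i _ => by ring
  rw [Fintype.sum_bool, e1, e1, ← Finset.sum_add_distrib]
  refine Finset.sum_congr rfl fun i _ => ?_
  rw [← integral_add ((sea_int true (g i)).const_mul _) ((sea_int false (g i)).const_mul _)]
  unfold seaG
  refine integral_congr_ae (ae_of_all _ fun t => ?_)
  simp only
  ring

/-- **pinned heights with the remainders and the constants against the true heights**, general curve -/
theorem seaLin_abs {ep : ℝ} (h0 : 0 < ep) {e1 : ℝ} (he : 0 < e1) (he' : e1 ≤ 1 / 100) {Cc : ℝ}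
    (hCc : 0 ≤ Cc) :
    ∃ (C : ℝ) (m0 : ℕ), 0 ≤ C ∧ ∀ m : ℕ, m0 ≤ m → ∀ η η1 : ℝ → ℝ, CrvP e1 Cc m η η1 →
      ∀ n : ℕ, n ≤ 2 → ∀ (g : Fin n → Gd) (T1 : ℝ), TW ep e1 m ≤ T1 →
      |(∑ i, seaG (sN m) (gP T1 g i)) + (∑ a, ∫ t, sN m a * P t * BF T1 g (Fil.cv a η) a t) -
        NUSea.PLX.H0.cstF T1 g true * Fil.xe m - ∑ i, seaG (sN m) (g i)| ≤ C := by
  obtain ⟨K, hK, H⟩ := NUSea.PLX.H0.exists_linT
  have hl := l_pos
  have hq1 := Fil.one_le_qor
  have hq0 : (0 : ℝ) < (Fil.qo : ℕ) := by linarith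
  refine ⟨2 * (K * 2 * ((Fil.qo : ℕ) * (Cc * (1 / e1)) + (Fil.qo : ℕ))), 3, by positivity,
    fun m hm η η1 hc n hn g T1 hT1 => ?_⟩
  have hm1 : 1 ≤ m := by omega
  have hmp : (0 : ℝ) < m := by exact_mod_cast hm1
  obtain ⟨ε, e, hcur, hε0, -, hεx⟩ := hc.cur
  obtain ⟨L, hL⟩ : ∃ L, L = Real.log m := ⟨_, rfl⟩
  have hL1 : 1 ≤ L := by
    rw [hL, Real.le_log_iff_exp_le hmp]
    have h3 : (3 : ℝ) ≤ m := by exact_mod_cast hm
    have := Real.exp_one_lt_d9
    linarith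
  obtain ⟨T, hTd⟩ : ∃ T, T = Tb (Real.log m) := ⟨_, rfl⟩
  have hTL : T = 3 / 8 * L := by rw [hTd, hL]; rfl
  have hTW : TW ep e1 m = (1 + 2 * e1 + 2 * ep) * T := by
    rw [hTd]
    rfl
  rw [← hTd, ← hL] at hcur
  rw [hTW] at hT1
  have hT0 : 0 < T := by rw [hTL]; linarith
  have hb : (1 - e1) * T ≤ T1 := by nlinarith
  have hT10 : 0 ≤ T1 := by nlinarith
  have hgap : 3 * e1 * T ≤ T1 - (1 - e1) * T := by nlinarith
  have hηle : ∀ t, |η t| ≤ e t := fun t => by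
    have h1 := hcur.oc.le t
    have h2 : ‖NUKer.iD η t‖ = |η t| := by
      unfold NUKer.iD
      simp
    rwa [h2] at h1
  have hη : ∀ a t, |Fil.cv a η t| < l / 5 := by
    intro a t
    have h5 := (Fil.abs_cv_le a η t).trans ((hηle t).trans ((hcur.le t).trans hεx))
    have : (1 : ℝ) / 100 < l / 5 := by
      have := Real.pi_gt_three
      show (1 : ℝ) / 100 < Real.pi / 8 / 5
      linarith
    linarith
  have hHm0 : 0 ≤ (Fil.qo : ℕ) * (Cc * L) := by positivity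
  have hH : ∀ a t, sN m a * P t * |Fil.cv a η t| ≤ (Fil.qo : ℕ) * (Cc * L) := by
    intro a t
    have h5 : 0 ≤ (m : ℝ) * P t := mul_nonneg hmp.le (NUSea.P_pos t).le
    have h6 : (m : ℝ) * P t * |η t| ≤ Cc * L :=
      (mul_le_mul_of_nonneg_left (hηle t) h5).trans (hcur.mass t)
    have h7 := sN_le hm1 a
    have h8 := Fil.abs_cv_le a η t
    have h9 := (NUSea.P_pos t).le
    calc sN m a * P t * |Fil.cv a η t| ≤ ((Fil.qo : ℕ) * m) * P t * |η t| := by
          have := sN_nonneg m a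
          gcongr
      _ = (Fil.qo : ℕ) * (m * P t * |η t|) := by ring
      _ ≤ (Fil.qo : ℕ) * (Cc * L) := mul_le_mul_of_nonneg_left h6 hq0.le
  have hz : ∀ a t, (1 - e1) * T < |t| → Fil.cv a η t = 0 := by
    intro a t ht
    have h5 := hηle t
    rw [hcur.supp t ht] at h5
    rw [Fil.cv_apply, abs_nonpos_iff.1 h5, zero_div]
  have k1 : (Fil.qo : ℕ) * (Cc * L) * Real.exp (-(T1 - (1 - e1) * T)) ≤ (Fil.qo : ℕ) * (Cc * (1 / e1)) := by
    have a1 : Real.exp (-(T1 - (1 - e1) * T)) ≤ Real.exp (-(3 * e1 * T)) :=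
      Real.exp_le_exp.2 (by linarith)
    have b1 := Real.add_one_le_exp (3 * e1 * T)
    have b2 : Real.exp (-(3 * e1 * T)) * Real.exp (3 * e1 * T) = 1 := by
      rw [← Real.exp_add]
      simp
    have b3 := Real.exp_pos (-(3 * e1 * T))
    have b4 : 3 * e1 * T * Real.exp (-(3 * e1 * T)) ≤ 1 := by
      have : 3 * e1 * T * Real.exp (-(3 * e1 * T)) ≤
          Real.exp (3 * e1 * T) * Real.exp (-(3 * e1 * T)) :=
        mul_le_mul_of_nonneg_right (by linarith) b3.le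
      linarith
    have b5 : L * Real.exp (-(3 * e1 * T)) ≤ 1 / e1 := by
      rw [le_div_iff₀ he]
      have h9 : 3 * e1 * T = 9 / 8 * (e1 * L) := by rw [hTL]; ring
      rw [h9] at b4 ⊢
      nlinarith [Real.exp_pos (-(9 / 8 * (e1 * L))), mul_pos he (by linarith : 0 < L)]
    calc (Fil.qo : ℕ) * (Cc * L) * Real.exp (-(T1 - (1 - e1) * T)) ≤
          (Fil.qo : ℕ) * (Cc * L) * Real.exp (-(3 * e1 * T)) := mul_le_mul_of_nonneg_left a1 hHm0
      _ = (Fil.qo : ℕ) * (Cc * (L * Real.exp (-(3 * e1 * T)))) := by ring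
      _ ≤ (Fil.qo : ℕ) * (Cc * (1 / e1)) :=
        mul_le_mul_of_nonneg_left (mul_le_mul_of_nonneg_left b5 hCc) hq0.le
  have k2 : ∀ a, sN m a * Real.exp (-(8 / 3 * T1)) ≤ (Fil.qo : ℕ) := by
    intro a
    have a1 : Real.log m ≤ 8 / 3 * T1 := by
      have b1 : 8 / 3 * T = Real.log m := by
        rw [hTd]
        unfold NUO.Tb
        ring
      nlinarith
    have a2 : Real.exp (-(8 / 3 * T1)) ≤ Real.exp (-Real.log m) := Real.exp_le_exp.2 (by linarith)
    rw [Real.exp_neg (Real.log m), Real.exp_log hmp] at a2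
    calc sN m a * Real.exp (-(8 / 3 * T1)) ≤ ((Fil.qo : ℕ) * m) * (m : ℝ)⁻¹ :=
          mul_le_mul (sN_le hm1 a) a2 (Real.exp_pos _).le (by positivity)
      _ = (Fil.qo : ℕ) := by field_simp
  have hn2 : (n : ℝ) ≤ 2 := by exact_mod_cast hn
  -- one species
  have key : ∀ a, |(∫ t, sN m a * P t * ∑ i, (NUSp.gp a ((g i).pin T1).G t).re) +
      (∫ t, sN m a * P t * BF T1 g (Fil.cv a η) a t) + sN m a * NUSea.PLX.H0.cstF T1 g a -
      ∫ t, sN m a * P t * ∑ i, (NUSp.gp a (g i).G t).re| ≤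
      K * 2 * ((Fil.qo : ℕ) * (Cc * (1 / e1)) + (Fil.qo : ℕ)) := by
    intro a
    refine (H a n g T1 ((1 - e1) * T) (sN m a) ((Fil.qo : ℕ) * (Cc * L)) (Fil.cv a η) (Fil.cv a η1) hT10 hb
      (sN_nonneg m a) hHm0 (hη a) (fun t => Fil.hasDerivAt_cv a (hc.d t)) (hz a) (hH a)).trans ?_
    have k3 : 0 ≤ (Fil.qo : ℕ) * (Cc * L) * Real.exp (-(T1 - (1 - e1) * T)) +
        sN m a * Real.exp (-(8 / 3 * T1)) := by
      have := sN_nonneg m a
      positivity
    calc K * n * ((Fil.qo : ℕ) * (Cc * L) * Real.exp (-(T1 - (1 - e1) * T)) +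
          sN m a * Real.exp (-(8 / 3 * T1))) ≤ K * 2 * ((Fil.qo : ℕ) * (Cc * L) *
          Real.exp (-(T1 - (1 - e1) * T)) + sN m a * Real.exp (-(8 / 3 * T1))) :=
          mul_le_mul_of_nonneg_right (mul_le_mul_of_nonneg_left hn2 hK) k3
      _ ≤ K * 2 * ((Fil.qo : ℕ) * (Cc * (1 / e1)) + (Fil.qo : ℕ)) := by
          refine mul_le_mul_of_nonneg_left ?_ (by positivity)
          linarith [k2 a]
  have s1 := sum_seaG (sN m) (fun i => (g i).pin T1)
  have s2 := sum_seaG (sN m) g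
  rw [Fintype.sum_bool] at s1 s2
  have s3 : ∑ i, seaG (sN m) (gP T1 g i) = ∑ i, seaG (sN m) ((g i).pin T1) := rfl
  rw [Fintype.sum_bool, s3, ← s1, ← s2]
  have c1 := NUSea.PLX.H0.cstF_cancel g T1
  have c2 := sN_sub m
  have c3 : sN m true * NUSea.PLX.H0.cstF T1 g true + sN m false * NUSea.PLX.H0.cstF T1 g false =
      -(NUSea.PLX.H0.cstF T1 g true * Fil.xe m) := by
    rw [← c2]
    have : NUSea.PLX.H0.cstF T1 g false = -NUSea.PLX.H0.cstF T1 g true := by linarith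
    rw [this]
    ring
  obtain ⟨a1, a2⟩ := abs_le.1 (key true)
  obtain ⟨b1, b2⟩ := abs_le.1 (key false)
  rw [abs_le]
  constructor <;> linarith

end

/-! ### the data `inH` -/

/-- size of an admissible curve -/
theorem CrvP.small {e1 Cc : ℝ} {m : ℕ} {η η1 : ℝ → ℝ} (hc : CrvP e1 Cc m η η1) :
    (∀ t, |η t| ≤ 1 / 100) ∧ (∀ t, |η1 t| ≤ 1 / 100) := by
  obtain ⟨ε, e, hcur, hε0, -, hεx⟩ := hc.cur
  constructor
  · intro t
    have h1 := hcur.oc.le t
    have h2 : ‖NUKer.iD η t‖ = |η t| := by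
      unfold NUKer.iD
      simp
    rw [h2] at h1
    exact h1.trans ((hcur.le t).trans hεx)
  · intro t
    have h1 := (hcur.oc1 hc.d).le t
    have h2 : ‖NUKer.iD η1 t‖ = |η1 t| := by
      unfold NUKer.iD
      simp
    rw [h2] at h1
    exact h1.trans ((hcur.le t).trans hεx)

/-- a twentieth of the width of the strip -/
lemma small_l : (1 : ℝ) / 100 < l / 5 := by
  have := Real.pi_gt_three
  show (1 : ℝ) / 100 < Real.pi / 8 / 5
  linarith

variable [Fil] [Ends]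

/-- the data with the groups and the potential -/
theorem spI_inH {η η1 : ℝ → ℝ} {m : ℕ} {T1 b' : ℝ} {n : ℕ} (g : Fin n → Gd) {B1 : ℝ → ℝ}
    {H H' : Bool → ℝ → ℝ} (hB : ContDiff ℝ 1 B1) (hη : ∀ t, |η t| < l / 5)
    (hd : ∀ t, HasDerivAt η (η1 t) t) (hc : Continuous η1) (hH : ∀ a t, HasDerivAt (H a) (H' a t) t)
    (hH' : ∀ a, Continuous (H' a)) :
    SpI pE qE (gP T1 g) (inH η η1 m T1 b' g B1 H) fun a t =>
      deriv B1 t + BF1 T1 g (Fil.cv a η) (Fil.cv a η1) a t + H' a t where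
  hp := by simp [pE]
  hq := by simp [qE]
  him := by simp [pE, qE]
  A _ _ := rfl
  ν := rfl
  τ := rfl
  dB a t := by
    have h1 := (hB.differentiable one_ne_zero t).hasDerivAt
    have h2 := NUSea.PLX.H0.hasDerivAt_BF g T1 a ((Fil.abs_cv_le a η t).trans_lt (hη t))
      (Fil.hasDerivAt_cv a (hd t))
    exact ((h1.add h2).add (hH a t)).sub_const (b' / 2)
  cB a := ((hB.continuous_deriv le_rfl).add (NUSea.PLX.H0.cont_BF1 g T1 a
    (fun t => (Fil.abs_cv_le a η t).trans_lt (hη t))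
    (Fil.continuous_cv a (continuous_iff_continuousAt.2 fun t => (hd t).continuousAt))
    (Fil.continuous_cv a hc))).add (hH' a)

/-- the real potentials against the sea -/
theorem int_B_inH {η η1 : ℝ → ℝ} {m : ℕ} {T1 b' : ℝ} {n : ℕ} (g : Fin n → Gd) {B1 : ℝ → ℝ}
    {H : Bool → ℝ → ℝ} {KB B0 : ℝ} (hη : ∀ t, |η t| < l / 5) (hd : ∀ t, HasDerivAt η (η1 t) t)
    (hm : 1 ≤ m) (hBi : Integrable fun t => (m : ℝ) * P t * B1 t)
    (hK : ∀ (a : Bool) (t : ℝ), |BF T1 g (Fil.cv a η) a t| ≤ KB) (hHc : ∀ a, Continuous (H a))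
    (hH : ∀ a t, |H a t| ≤ B0) :
    (∑ a, ∫ t, (inH η η1 m T1 b' g B1 H).s a * P t * (inH η η1 m T1 b' g B1 H).B a t) =
      (∑ a, ∫ t, sN m a * P t * B1 t) + (∑ a, ∫ t, sN m a * P t * BF T1 g (Fil.cv a η) a t) +
        (∑ a, ∫ t, sN m a * P t * H a t) - b' / 2 * (sN m true + sN m false) := by
  have hmp : (0 : ℝ) < m := by exact_mod_cast hm
  have hc : ∀ a, Continuous (BF T1 g (Fil.cv a η) a) := fun a =>
    continuous_iff_continuousAt.2 fun t =>
      (NUSea.PLX.H0.hasDerivAt_BF g T1 a ((Fil.abs_cv_le a η t).trans_lt (hη t))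
        (Fil.hasDerivAt_cv a (hd t))).continuousAt
  have hi : ∀ a, Integrable fun t => sN m a * P t * BF T1 g (Fil.cv a η) a t := by
    intro a
    refine ((NUSea.PLX.H0.P_B_int (hc a) (hK a)).const_mul (sN m a)).congr
      (Eventually.of_forall fun t => ?_)
    simp only
    ring
  have hj : ∀ a, Integrable fun t => sN m a * P t * H a t := by
    intro a
    refine ((NUSea.PLX.H0.P_B_int (hHc a) (hH a)).const_mul (sN m a)).congr
      (Eventually.of_forall fun t => ?_)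
    simp only
    ring
  have hB : ∀ a, Integrable fun t => sN m a * P t * B1 t := by
    intro a
    refine (hBi.const_mul (sN m a / m)).congr (Eventually.of_forall fun t => ?_)
    simp only
    field_simp
  have h1 : ∀ a, (∫ t, (inH η η1 m T1 b' g B1 H).s a * P t * (inH η η1 m T1 b' g B1 H).B a t) =
      (∫ t, sN m a * P t * B1 t) + (∫ t, sN m a * P t * BF T1 g (Fil.cv a η) a t) +
        (∫ t, sN m a * P t * H a t) - b' / 2 * sN m a := by
    intro a
    have h2 : ∀ t, (inH η η1 m T1 b' g B1 H).s a * P t * (inH η η1 m T1 b' g B1 H).B a t =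
        (sN m a * P t * B1 t + sN m a * P t * BF T1 g (Fil.cv a η) a t + sN m a * P t * H a t) -
          (b' / 2 * sN m a) * P t := by
      intro t
      show sN m a * P t * (B1 t + BF T1 g (Fil.cv a η) a t + H a t - b' / 2) = _
      ring
    simp_rw [h2]
    have h3 : Integrable fun t => sN m a * P t * B1 t + sN m a * P t * BF T1 g (Fil.cv a η) a t :=
      (hB a).add (hi a)
    have h4 : Integrable fun t => sN m a * P t * B1 t + sN m a * P t * BF T1 g (Fil.cv a η) a t +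
        sN m a * P t * H a t := h3.add (hj a)
    rw [integral_sub h4 (NUSea.P_int.const_mul _), integral_add h3 (hj a),
      integral_add (hB a) (hi a), integral_const_mul, NUSea.P_mass, mul_one]
  rw [Fintype.sum_bool, h1, h1, Fintype.sum_bool, Fintype.sum_bool, Fintype.sum_bool]
  ring

/-- **the exponent `En` of the data with groups and a potential**: exact linear term `linH`, full
current on the objects, sea terms of the groups at their true heights -/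
theorem exists_enH6 {W B0 : ℝ} (hW : 0 ≤ W) (hB0 : 0 ≤ B0) : ∃ K0 : ℝ, 0 ≤ K0 ∧
    ∀ kap : ℝ, 0 < kap → ∀ ep : ℝ, 0 < ep → ep ≤ 1 / 100 → ∀ e1 : ℝ, 0 < e1 → e1 ≤ 1 / 100 →
    ∀ Cc : ℝ, 0 ≤ Cc → ∀ (k : ℕ) (κ C : ℝ), 0 < κ → ∃ (C1 : ℝ) (m0 : ℕ), ∀ m ≥ m0,
    ∀ η η1 : ℝ → ℝ, CrvP e1 Cc m η η1 → (∀ t t', |crH η m t - crH η m t'| ≤ |t - t'|) →
    ∀ b' : ℝ, |b'| ≤ 1 → ∀ n : ℕ, n ≤ 2 → ∀ (g : Fin n → Gd) (T1 : ℝ), TW ep e1 m ≤ T1 →
    ∀ B1 : ℝ → ℝ, ContDiff ℝ 1 B1 → (∀ t, 0 ≤ B1 t) → (∀ t, B1 t ≤ W) →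
    Integrable (fun t => (m : ℝ) * P t * B1 t) → (∫ t, (m : ℝ) * P t * B1 t) ≤ C →
    ∀ H H' : Bool → ℝ → ℝ, (∀ a t, HasDerivAt (H a) (H' a t) t) → (∀ a, Continuous (H' a)) →
    (∀ a t, |H a t| ≤ B0) →
    ∀ (r : ℕ) (O : Fin r → Xo),
    (∃ (dl ε M : ℝ) (e : ℝ → ℝ), IOk6 dl ε M ((1 - e1) * Tb (Real.log m)) e
      (inH η η1 m T1 b' g B1 H) par6 ∧
      ε ≤ (m : ℝ) ^ (-κ) ∧ M ≤ Real.log m ^ k ∧ dl ≤ 3 * (m : ℝ) ^ (-κ)) →
      (datO6 (inH η η1 m T1 b' g B1 H) par6 O).En ≤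
        (∑ i, oneH6 (inH η η1 m T1 b' g B1 H) par6 O (crH η m) i) + enC6 par6 O +
        (∑ i, ∑ d, ES (obSr6 par6 (O i)) (TG (gP T1 g) d)) +
        1 / 2 * (∑ d, ∑ d', ES (TG (gP T1 g) d) (TG (gP T1 g) d')) +
        (∑ i, seaG (sN m) (g i)) + NUSea.PLX.H0.cstF T1 g true * Fil.xe m -
        b' / 2 * (sN m true + sN m false) + linH η η1 m g T1 H +
        K0 * r + kap * win univ (fun i => ht (O i)) + C1 := by
  obtain ⟨KB, hKB, HBF⟩ := NUSea.PLX.H0.exists_BF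
  obtain ⟨K0, hK0, H⟩ := exists_enSX6 par6_good.ok pg6_par6 (WB := W + KB * 2 + 1 / 2 + B0) (by positivity)
  refine ⟨K0, hK0, ?_⟩
  intro kap hkap ep hep hep1 e1 he he1 Cc hCc k κ C hκ
  obtain ⟨C1, m1, H⟩ := H kap hkap κ hκ k
  obtain ⟨CS, m3, hCS, HS⟩ := seaLin_abs hep he he1 hCc
  refine ⟨C1 + CS + 2 * ((Fil.qo : ℕ) * C), max m1 (max m3 3), ?_⟩
  intro m hm η η1 hc hL b' hb' n hn g T1 hT1 B1 hB hB0' hB1 hBi hBC Hp Hp' hHd hHc hHb r O hok
  have hm1 : m1 ≤ m := (le_max_left _ _).trans hm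
  have hm3 : m3 ≤ m := ((le_max_left _ _).trans (le_max_right _ _)).trans hm
  have hm4 : 3 ≤ m := ((le_max_right _ _).trans (le_max_right _ _)).trans hm
  have hm0 : (0 : ℝ) ≤ m := Nat.cast_nonneg m
  obtain ⟨n1, n2⟩ := hc.small
  have n3 : ∀ t, |η t| < l / 5 := fun t => (n1 t).trans_lt small_l
  have hlog : 0 ≤ Real.log m := Real.log_nonneg (by exact_mod_cast (by omega : 1 ≤ m))
  have hTW0 : 0 ≤ TW ep e1 m := by
    unfold TW Tb
    have : 0 ≤ 1 + 2 * e1 + 2 * ep := by linarith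
    exact mul_nonneg this (by linarith)
  have hT0 : 0 ≤ T1 := hTW0.trans hT1
  have hBF2 : ∀ (a : Bool) (t : ℝ), |BF T1 g (Fil.cv a η) a t| ≤ KB * 2 := by
    intro a t
    obtain ⟨-, -, hBF, -⟩ := HBF n g T1 (Fil.cv a η) (Fil.cv a η1) hT0
      (fun t => (Fil.abs_cv_le a η t).trans ((n1 t).trans (by norm_num)))
      (fun t => (Fil.abs_cv_le a η1 t).trans ((n2 t).trans (by norm_num)))
      (fun t => Fil.hasDerivAt_cv a (hc.d t)) (Fil.continuous_cv a hc.c)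
    refine (hBF a t).trans (mul_le_mul_of_nonneg_left ?_ (by linarith))
    have h1 : ∑ i, Real.exp (-2 * |t - NUSp.pin T1 (g i).τ|) ≤ ∑ _i : Fin n, (1 : ℝ) :=
      Finset.sum_le_sum fun i _ => Real.exp_le_one_iff.2 (by
        have := abs_nonneg (t - NUSp.pin T1 (g i).τ)
        linarith)
    refine h1.trans ?_
    rw [Finset.sum_const, card_univ, Fintype.card_fin, nsmul_eq_mul, mul_one]
    exact_mod_cast hn
  have hS := spI_inH (m := m) (T1 := T1) (b' := b') g hB n3 hc.d hc.c hHd hHc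
  have hBb : ∀ a t, |(inH η η1 m T1 b' g B1 Hp).B a t| ≤ W + KB * 2 + 1 / 2 + B0 := by
    intro a t
    show |B1 t + BF T1 g (Fil.cv a η) a t + Hp a t - b' / 2| ≤ _
    have h1 := hB0' t
    have h2 := hB1 t
    have h3 := abs_le.1 (hBF2 a t)
    have h4 := abs_le.1 hb'
    have h5 := abs_le.1 (hHb a t)
    rw [abs_le]
    constructor <;> linarith [h3.1, h3.2, h4.1, h4.2, h5.1, h5.2]
  have hmm : 1 ≤ m := by omega
  have hcur : curI (inH η η1 m T1 b' g B1 Hp) = crH η m := by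
    funext t
    show sN m true * P t * Fil.cv true η t = (m : ℝ) * P t * η t
    rw [sN_true hmm, Fil.cv_true]
  have h1 := H m hm1 e1 he he1 n hn (gP T1 g) pE qE (inH η η1 m T1 b' g B1 Hp) _ hS
    hBb (by rw [hcur]; exact hL) r O hok
  have hHc' : ∀ a, Continuous (Hp a) := fun a =>
    continuous_iff_continuousAt.2 fun t => (hHd a t).continuousAt
  rw [int_B_inH g n3 hc.d hmm hBi hBF2 hHc' hHb, hcur] at h1
  have h2 := (abs_le.1 (HS m hm3 η η1 hc n hn g T1 hT1)).2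
  have h4 : (∑ i, seaG (inH η η1 m T1 b' g B1 Hp).s (gP T1 g i)) = ∑ i, seaG (sN m) (gP T1 g i) := rfl
  have h5 : (pE : ℂ).im = 0 := by simp [pE]
  have h6 : (∑ i, (NUSp.gph true (gP T1 g i).G + NUSp.gph false (gP T1 g i).G) *
      crH η m (gP T1 g i).τ) = ∑ i, phG (g i) * crH η m (NUSp.pin T1 (g i).τ) :=
    Finset.sum_congr rfl fun i _ => by
      show phG ((g i).pin T1) * _ = _
      rw [phG_pin]
      rfl
  have h7 : hd ((inH η η1 m T1 b' g B1 Hp).s true) ((inH η η1 m T1 b' g B1 Hp).η true)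
      ((inH η η1 m T1 b' g B1 Hp).η1 true) = hd m η η1 := by
    show hd (sN m true) (Fil.cv true η) (Fil.cv true η1) = _
    rw [sN_true hmm, Fil.cv_true, Fil.cv_true]
  have h8 : ∀ a, ∫ t, sN m a * P t * B1 t ≤ (Fil.qo : ℕ) * C := by
    intro a
    have hmp : (0 : ℝ) < m := by exact_mod_cast hmm
    have e1 : (∫ t, sN m a * P t * B1 t) = sN m a / m * ∫ t, (m : ℝ) * P t * B1 t := by
      rw [← integral_const_mul]
      refine integral_congr_ae (ae_of_all _ fun t => ?_)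
      simp only
      field_simp
    have e2 : 0 ≤ ∫ t, (m : ℝ) * P t * B1 t := integral_nonneg fun t =>
      mul_nonneg (mul_nonneg hm0 (NUSea.P_pos t).le) (hB0' t)
    have e3 : sN m a / m ≤ (Fil.qo : ℕ) := by
      rw [div_le_iff₀ hmp]
      exact sN_le hmm a
    rw [e1]
    exact mul_le_mul e3 hBC e2 (Nat.cast_nonneg _)
  have h9 : (∑ a, ∫ t, sN m a * P t * B1 t) ≤ 2 * ((Fil.qo : ℕ) * C) := by
    rw [Fintype.sum_bool]
    linarith [h8 true, h8 false]
  rw [h4, h5, h6, h7] at h1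
  unfold linH
  linarith

end PotH.PLX

end
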