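import Pool.Agent.PHK.PotH.InH
import Pool.Agent.PHK.H0.SpG
import Pool.Agent.PLX.NUSea.H0.PinF

/-!
# TARGET-C with a real potential, six kinds: curve, equation, size and energy of the remainder

**`exists_datFxH6`**: the fields `ok`, `fld`, `gs`, `ν0`, `w0`, `w1` of `DatC6` for `inH`, for every
family of groups, every admissible curve, every majorant `B` of bounded energy and every admissible
potential `H`.
-/

set_option autoImplicit false
set_option linter.unusedSectionVars false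

open MeasureTheory Set Filter Topology
open PLX (Fil Ends)

namespace PotH.PLX

open NUO (Xo ht Tb TW excS)
open PHK (par6 chgO6 nA6)
open NUSea.PLX.H0
open NUGC (muS tauS)
open NUGC.PLX (pE qE CcF SC chG gP FamOk)

noncomputable section

/-- energy of a sum of four functions on an interval -/
lemma energy4x {f f' u u' h h' : ℝ → ℝ} (hf : Continuous f) (hf' : Continuous f') (hu : Continuous u)
    (hu' : Continuous u') (hh : Continuous h) (hh' : Continuous h') (c : ℝ) {y E1 E2 E3 : ℝ}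
    (hy : 0 ≤ y)
    (h1 : ∫ t in (-y)..y, (f t ^ 2 + f' t ^ 2) ≤ E1) (h2 : ∫ t in (-y)..y, (u t ^ 2 + u' t ^ 2) ≤ E2)
    (h3 : ∫ t in (-y)..y, (h t ^ 2 + h' t ^ 2) ≤ E3) :
    ∫ t in (-y)..y, ((f t + u t + h t - c) ^ 2 + (f' t + u' t + h' t) ^ 2) ≤
      4 * E1 + 4 * E2 + 4 * E3 + 8 * c ^ 2 * y := by
  have hle : -y ≤ y := by linarith
  have c0 : Continuous fun t => (f t + u t + h t - c) ^ 2 + (f' t + u' t + h' t) ^ 2 := by fun_prop
  have c1 : Continuous fun t => 4 * (f t ^ 2 + f' t ^ 2) := by fun_prop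
  have c2 : Continuous fun t => 4 * (u t ^ 2 + u' t ^ 2) := by fun_prop
  have c3 : Continuous fun t => 4 * (h t ^ 2 + h' t ^ 2) := by fun_prop
  have c12 : Continuous fun t => 4 * (f t ^ 2 + f' t ^ 2) + 4 * (u t ^ 2 + u' t ^ 2) := by fun_prop
  have c123 : Continuous fun t => 4 * (f t ^ 2 + f' t ^ 2) + 4 * (u t ^ 2 + u' t ^ 2) +
    4 * (h t ^ 2 + h' t ^ 2) := by fun_prop
  have c4 : Continuous fun t => (4 * (f t ^ 2 + f' t ^ 2) + 4 * (u t ^ 2 + u' t ^ 2) +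
    4 * (h t ^ 2 + h' t ^ 2)) + 4 * c ^ 2 := by fun_prop
  refine (intervalIntegral.integral_mono_on hle (c0.intervalIntegrable _ _)
    (c4.intervalIntegrable _ _) fun t _ => ?_).trans ?_
  · (clear * -; nlinarith [sq_nonneg (f t - u t), sq_nonneg (f t + c), sq_nonneg (u t + c), sq_nonneg (f' t - u' t),
      sq_nonneg (f t - h t), sq_nonneg (u t - h t), sq_nonneg (h t + c), sq_nonneg (f' t - h' t),
      sq_nonneg (u' t - h' t), sq_nonneg (f' t), sq_nonneg (u' t), sq_nonneg (h' t)])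
  · rw [intervalIntegral.integral_add (c123.intervalIntegrable _ _) intervalIntegrable_const,
      intervalIntegral.integral_add (c12.intervalIntegrable _ _) (c3.intervalIntegrable _ _),
      intervalIntegral.integral_add (c1.intervalIntegrable _ _) (c2.intervalIntegrable _ _),
      intervalIntegral.integral_const_mul, intervalIntegral.integral_const_mul,
      intervalIntegral.integral_const_mul, intervalIntegral.integral_const, smul_eq_mul]
    nlinarith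

variable [NUSea.Sea] [Fil] [Ends]

/-- **curve, equation, size and energy of the remainder** -/
theorem exists_datFxH6 (G : ℕ) {W C : ℝ} (hW : 0 ≤ W) (hC : 0 ≤ C) {e1 Cc : ℝ} (he : 0 < e1)
    (he1 : e1 ≤ 1 / 100) (hCc : 1 ≤ Cc) {B0 N0 : ℝ} (hB0' : 0 ≤ B0) (hN0 : 0 ≤ N0) :
    ∃ (k : ℕ) (κ CB : ℝ), 0 < κ ∧ 0 ≤ CB ∧
    ∀ ϑ : ℝ, 0 < ϑ → ∃ d : ℝ, 0 < d ∧ ∃ m0 : ℕ, ∀ m : ℕ, m0 ≤ m →
    ∀ η η1 : ℝ → ℝ, CrvP e1 Cc m η η1 →
    ∀ b' : ℝ, |b'| ≤ d → ∀ (T1 : ℝ) (g : Fin G → Gd), 0 ≤ T1 →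
    ∀ B B' : ℝ → ℝ, (∀ t, HasDerivAt B (B' t) t) → Continuous B' →
      (∀ t, 0 ≤ B t) → (∀ t, B t ≤ W) →
      Integrable (fun t => B t ^ 2 + B' t ^ 2) → (∫ t, B t ^ 2 + B' t ^ 2) ≤ C →
    ∀ (H H' : Bool → ℝ → ℝ) (bH AH : ℝ), HOk B0 N0 d bH AH H H' →
    (∃ (dl ε M : ℝ) (e : ℝ → ℝ), IOk6 dl ε M ((1 - e1) * Tb (Real.log m)) e
        (inH η η1 m T1 b' g B H) par6 ∧
      ε ≤ (m : ℝ) ^ (-κ) ∧ M ≤ Real.log m ^ k ∧ dl ≤ 3 * (m : ℝ) ^ (-κ)) ∧
    (∀ nX nY : ℕ, (nX : ℝ) + (Fil.xe m : ℕ) - nY = -chG g → ∀ (r : ℕ) (O : Fin r → Xo),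
      chgO6 O true ≤ nX → chgO6 O false ≤ nY → Fld (datO6 (inH η η1 m T1 b' g B H) par6 O)
        (nA6 nX O true) (nA6 nY O false)) ∧
    (∀ i, |(gP T1 g i).τ| ≤ T1) ∧
    (∀ a t, |(inH η η1 m T1 b' g B H).ν a t| ≤
      CB * ∑ j, Real.exp (-(5 / 2 * |t - (gP T1 g j).τ|))) ∧
    (∀ a t, |wO (inH η η1 m T1 b' g B H) a t| ≤ CB) ∧
    ∀ a T, 0 ≤ T → ∫ t in (-(T + 1))..(T + 1), (wO (inH η η1 m T1 b' g B H) a t ^ 2 +
      deriv (wO (inH η η1 m T1 b' g B H) a) t ^ 2) ≤ CB + ϑ * (T + 1) := by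
  obtain ⟨K, hK, HK⟩ := exists_spG6
  obtain ⟨Kb, hKb, HB⟩ := exists_BF
  obtain ⟨CB, hCBd⟩ : ∃ CB : ℝ, CB = K + (W + Kb * G + B0 + 1 + K * (G + 1)) +
      (8 * C + 8 * (Kb * G) ^ 2 + 8 * N0 + (K * (G + 1)) ^ 2) := ⟨_, rfl⟩
  have hG0 : (0 : ℝ) ≤ G := Nat.cast_nonneg G
  have q1 : 0 ≤ W + Kb * G + B0 + 1 + K * (G + 1) := by positivity
  have q2 : 0 ≤ 8 * C + 8 * (Kb * G) ^ 2 + 8 * N0 + (K * (G + 1)) ^ 2 := by positivity
  have hK0 : 0 ≤ K := by linarith
  refine ⟨2, e1 / 2, CB, by (clear * - he; linarith), by rw [hCBd]; linarith, fun ϑ hϑ => ?_⟩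
  have h4 := (Real.tendsto_log_atTop.comp tendsto_natCast_atTop_atTop).eventually_ge_atTop
    (max 20 ((Fil.qo : ℕ) * Cc) : ℝ)
  obtain ⟨m2, hm2⟩ := Filter.eventually_atTop.1 h4
  obtain ⟨m3, hm3⟩ := NUS4.log_pow_small 0 (show 0 < e1 / 2 by linarith) 400
  obtain ⟨d, hd⟩ : ∃ d : ℝ, d = min 1 (ϑ / 12) := ⟨_, rfl⟩
  have hd0 : 0 < d := by
    rw [hd]
    exact lt_min one_pos (by linarith)
  have hd1 : d ≤ 1 := by
    rw [hd]
    exact min_le_left _ _
  have hd2 : d ≤ ϑ / 12 := by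
    rw [hd]
    exact min_le_right _ _
  refine ⟨d, hd0, max m2 (max m3 1), fun m km η η1 hcv b' hb' T1 g hT1 B B' hB hB' hB0 hBW hBi hBe H H' bH AH hH => ?_⟩
  have k2 : m2 ≤ m := (le_max_left _ _).trans km
  have k3 : m3 ≤ m := (le_max_left _ _).trans ((le_max_right _ _).trans km)
  have k1 : 1 ≤ m := (le_max_right _ _).trans ((le_max_right _ _).trans km)
  have hL : max 20 ((Fil.qo : ℕ) * Cc) ≤ Real.log m := hm2 m k2
  have hL1 : 20 ≤ Real.log m := (le_max_left _ _).trans hL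
  have hL2 : (Fil.qo : ℕ) * Cc ≤ Real.log m := (le_max_right _ _).trans hL
  have hqo : (1 : ℝ) ≤ (Fil.qo : ℕ) := Fil.one_le_qor
  have hm0 : (0 : ℝ) ≤ m := Nat.cast_nonneg m
  have hT : 0 ≤ Tb (Real.log m) := by
    show 0 ≤ 3 / 8 * Real.log m
    clear * - he he1 hL1
    linarith
  obtain ⟨ε, e, hcur, hcom, hε0, hε, hε1⟩ := hcv.spc k1
  have hη : ∀ a t, |Fil.cv a η t| ≤ 1 / 40 := fun a t => (hcv.lecv a t).trans (by norm_num)
  have hη1 : ∀ a t, |Fil.cv a η1 t| ≤ 1 := fun a t =>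
    Fil.abs_cv_le_of ((hcv.le1 t).trans (by norm_num))
  have HBa := fun a => HB G g T1 (Fil.cv a η) (Fil.cv a η1) hT1 (hη a) (hη1 a) (hcv.dcv a) (hcv.ccv a)
  have p1 := fun a => (HBa a).1 a
  have p2 := fun a => (HBa a).2.1 a
  have p5 := fun a => (HBa a).2.2.2.2.1 a
  have p6 := fun a => (HBa a).2.2.2.2.2 a
  have hBc : Continuous B := continuous_iff_continuousAt.2 fun t => (hB t).continuousAt
  have hBFc : ∀ a, Continuous (BF T1 g (Fil.cv a η) a) := fun a =>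
    continuous_iff_continuousAt.2 fun t => (p1 a t).continuousAt
  have hHc : ∀ a, Continuous (H a) := fun a =>
    continuous_iff_continuousAt.2 fun t => (hH.d a t).continuousAt
  have S : SpI pE qE (gP T1 g) (inH η η1 m T1 b' g B H)
      (fun a t => B' t + BF1 T1 g (Fil.cv a η) (Fil.cv a η1) a t + H' a t) :=
    { hp := by unfold pE; rw [Complex.ofReal_re]
      hq := by unfold qE; rw [Complex.ofReal_re]
      him := by unfold pE qE; rw [Complex.ofReal_im, Complex.ofReal_im]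
      A := fun a z => rfl
      ν := rfl
      τ := rfl
      dB := fun a t => (((hB t).add (p1 a t)).add (hH.d a t)).sub_const _
      cB := fun a => (hB'.add (p2 a)).add (hH.c a) }
  have hε400 : ε ≤ 1 / 400 := by
    have h5 := hm3 m k3
    rw [pow_zero, mul_one] at h5
    clear * - hε h5
    linarith
  obtain ⟨s1, s2, s3, s4, -, s6, -, s8⟩ := HK G (gP T1 g) pE qE (inH η η1 m T1 b' g B H) _ S ε
    ((Fil.qo : ℕ) * (Cc * Real.log m)) ((1 - e1) * Tb (Real.log m)) e hcur hcv.dcv hε400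
  have hIB : ∀ a t, |(inH η η1 m T1 b' g B H).B a t| ≤ W + Kb * G + B0 + 1 := by
    intro a t
    show |B t + BF T1 g (Fil.cv a η) a t + H a t - b' / 2| ≤ _
    have h1 := abs_sub (B t + BF T1 g (Fil.cv a η) a t + H a t) (b' / 2)
    have h2 := abs_add_le (B t + BF T1 g (Fil.cv a η) a t) (H a t)
    have h2' := abs_add_le (B t) (BF T1 g (Fil.cv a η) a t)
    have h3 := p5 a t
    have h3' := hH.le a t
    have h5 : |b' / 2| ≤ 1 := by
      rw [abs_div, abs_two]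
      clear * - he he1 hd1 hb'
      linarith
    rw [abs_of_nonneg (hB0 t)] at h2'
    clear * - h1 h2 h2' h3 h3' h5 hBW
    linarith [hBW t]
  have hKε : K * (G + 1) * ε ≤ K * (G + 1) := by
    have : 0 ≤ K * (G + 1) := by positivity
    clear * - he1 hK he hε1 this
    nlinarith
  have hKε0 : 0 ≤ K * (G + 1) * ε := by positivity
  have b0 : 0 ≤ (1 - e1) * Tb (Real.log m) := by
    have : 0 ≤ 1 - e1 := by linarith
    positivity
  have hl := NUMF.l_pos
  have hl3 : 1 ≤ 3 * NUMF.l := by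
    unfold NUMF.l
    have := Real.pi_gt_three
    linarith
  have hl0 : NUP1.l = NUMF.l := rfl
  have hCL : 1 ≤ Cc * Real.log m := by (clear * - he1 hCc hL1 he; nlinarith)
  have hMq : ((Fil.qo : ℕ) : ℝ) ≤ (Fil.qo : ℕ) * (Cc * Real.log m) := le_mul_of_one_le_right (by linarith) hCL
  have hcom' := hcom.mono hMq (hcur true).oc.nonneg
  have hIok : IOk6 (3 * ε) ε ((Fil.qo : ℕ) * (Cc * Real.log m))
      ((1 - e1) * Tb (Real.log m)) e (inH η η1 m T1 b' g B H) par6 := by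
    have r1 : ε / NUMF.l ≤ 3 * ε := by
      rw [div_le_iff₀ hl]
      clear * - he he1 hε0 hl3
      nlinarith
    exact s8 (W + Kb * G + B0 + 1) _ par6 hIB (sN_nonneg m) hcom' b0 PHK.par6_good.ok
      PHK.pg6_par6 r1 (by linarith)
  refine ⟨⟨_, ε, _, e, hIok, hε, ?_, by linarith⟩, fun nX nY hn r O hX hY => ?_, fun i => ?_,
    fun a t => ?_, fun a t => ?_, fun a T hT' => ?_⟩
  · (clear * - hL2 hL1; nlinarith)
  · refine hIok.fld' hX hY ?_
    rw [s6]
    show -chG g = ((nX : ℝ) - sN m true) - ((nY : ℝ) - sN m false)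
    have e1 := sN_sub m
    clear * - hn e1
    linarith
  · show |NUSp.pin T1 (g i).τ| ≤ T1
    exact NUSp.abs_pin_le hT1 _
  · refine (s4 a t).trans (mul_le_mul_of_nonneg_right ?_
      (Finset.sum_nonneg fun _ _ => (Real.exp_pos _).le))
    rw [hCBd]
    clear * - q1 q2
    linarith
  · refine (s1 a t).trans ?_
    have := hIB a t
    rw [hCBd]
    clear * - he he1 hK q2 hKε this
    linarith
  · have hy : 0 ≤ T + 1 := by linarith
    refine (s3 a T hT').trans ?_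
    have e1' : ∫ t in (-(T + 1))..(T + 1), (B t ^ 2 + B' t ^ 2) ≤ C := by
      rw [intervalIntegral.integral_of_le (by (clear * - he he1 hT'; linarith))]
      exact (setIntegral_le_integral hBi (ae_of_all _ fun t => by (clear * -; positivity))).trans hBe
    have e2 := energy4x hBc hB' (hBFc a) (p2 a) (hHc a) (hH.c a) (b' / 2) hy e1' (p6 a (T + 1) hy)
      (hH.en a (T + 1) hy)
    have e3 : ∫ t in (-(T + 1))..(T + 1), ((inH η η1 m T1 b' g B H).B a t ^ 2 +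
        (B' t + BF1 T1 g (Fil.cv a η) (Fil.cv a η1) a t + H' a t) ^ 2) =
        ∫ t in (-(T + 1))..(T + 1), ((B t + BF T1 g (Fil.cv a η) a t + H a t - b' / 2) ^ 2 +
          (B' t + BF1 T1 g (Fil.cv a η) (Fil.cv a η1) a t + H' a t) ^ 2) := rfl
    rw [e3]
    have e4 : (K * (G + 1) * ε) ^ 2 ≤ (K * (G + 1)) ^ 2 := pow_le_pow_left₀ hKε0 hKε 2
    have e5 : b' ^ 2 ≤ |b'| := by
      rw [← sq_abs]
      have := abs_nonneg b'
      clear * - hd1 hd0 hb' this
      nlinarith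
    have e6 : (8 * d + 4 * b' ^ 2) * (T + 1) ≤ ϑ * (T + 1) :=
      mul_le_mul_of_nonneg_right (by (clear * - hd2 hb' e5; linarith)) hy
    rw [hCBd]
    clear * - he he1 hK q1 e2 e4 e6
    nlinarith

end

end PotH.PLX
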